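import Pool.Agent.Helper14.FO.Defs

set_option autoImplicit false

namespace Pool.Agent.Helper14.FO

open Finset

theorem cert_class {α β : Type} [Fintype α] [Fintype β] [DecidableEq β] [Nonempty β]
    (g : α → β) : ∃ c, Fintype.card α ≤ Fintype.card β * (univ.filter (fun a => g a = c)).card := by
  by_contra h
  push Not at h
  have h1 : ∑ c : β, Fintype.card β * (univ.filter (fun a => g a = c)).card <
      ∑ c : β, Fintype.card α :=
    Finset.sum_lt_sum_of_nonempty univ_nonempty (fun c _ => h c)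
  rw [← Finset.mul_sum, ← Finset.card_eq_sum_card_fiberwise (f := g) (s := univ) (t := univ)
    (fun _ _ => by simp)] at h1
  simp at h1

theorem cert_prod {ι : Type} [Fintype ι] [DecidableEq ι] {n : ℕ} (θ : ι → ℝ) (g : Fin n → ι) :
    ∏ j, θ (g j) = ∏ i, θ i ^ (univ.filter (fun j => g j = i)).card := by
  rw [← Finset.prod_fiberwise (s := univ) (g := g) (f := fun j => θ (g j))]
  refine Finset.prod_congr rfl fun i _ => ?_
  rw [Finset.prod_congr rfl (g := fun _ => θ i), Finset.prod_const]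
  intro j hj
  rw [(Finset.mem_filter.1 hj).2]

theorem cert_count {ι : Type} [Fintype ι] [DecidableEq ι] {n : ℕ} (g : Fin n → ι) :
    ∑ i, (univ.filter (fun j => g j = i)).card = n := by
  rw [← Finset.card_eq_sum_card_fiberwise (f := g) (s := univ) (t := univ) (fun _ _ => by simp)]
  simp

theorem cert_step {V : Type} [Fintype V] [Nonempty V] {n : ℕ} (U : Finset (Fin n → V)) (L : ℕ)
    (hU : Fintype.card (Fin n → V) ≤ L * U.card) (a T : ℝ) (ha : 0 < a)
    (h : (U.card : ℝ) * (a / Fintype.card V) ^ n ≤ T) : a ^ n ≤ L * T := by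
  have hV : (0 : ℝ) < Fintype.card V := by
    have := Fintype.card_pos (α := V)
    exact_mod_cast this
  have h1 : ((Fintype.card V : ℝ)) ^ n ≤ L * U.card := by
    have : Fintype.card (Fin n → V) = Fintype.card V ^ n := by simp
    rw [this] at hU
    exact_mod_cast hU
  have h2 : a ^ n = (Fintype.card V : ℝ) ^ n * (a / Fintype.card V) ^ n := by
    rw [← mul_pow]
    congr 1
    field_simp
  have h3 : 0 ≤ (a / Fintype.card V) ^ n := by positivity
  calc a ^ n = (Fintype.card V : ℝ) ^ n * (a / Fintype.card V) ^ n := h2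
    _ ≤ (L * U.card) * (a / Fintype.card V) ^ n := mul_le_mul_of_nonneg_right h1 h3
    _ = L * (U.card * (a / Fintype.card V) ^ n) := by ring
    _ ≤ L * T := mul_le_mul_of_nonneg_left h (Nat.cast_nonneg _)

theorem cert_log {ι : Type} [Fintype ι] (n L : ℕ) (hL : 0 < L) (a : ℝ) (ha : 0 < a) (θ : ι → ℝ)
    (hθ : ∀ i, 0 < θ i) (c : ι → ℕ) (h : a ^ n ≤ L * ∏ i, θ i ^ c i) :
    n * Real.log a ≤ Real.log L + ∑ i, c i * Real.log (θ i) := by
  have hLr : (0 : ℝ) < L := by exact_mod_cast hL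
  have hP : (0 : ℝ) < ∏ i, θ i ^ c i := Finset.prod_pos fun i _ => pow_pos (hθ i) _
  have h1 := Real.log_le_log (pow_pos ha n) h
  rw [Real.log_pow, Real.log_mul hLr.ne' hP.ne', Real.log_prod (fun i _ => (pow_pos (hθ i) _).ne')]
    at h1
  simpa [Real.log_pow] using h1

theorem cert_large (A B : ℝ) (k : ℕ → ℕ) (hk : ∀ n, 0 < k n) (hs : SubExp k) (m : ℕ) (hB : 0 < B)
    (hA : 0 ≤ A) : ∃ n : ℕ, 1 ≤ n ∧
    A * Real.log (((k n * (n + 1) ^ m : ℕ) : ℝ)) < B * n := by
  have hA1 : 0 < 4 * (A + 1) := by linarith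
  obtain ⟨n0, hn0⟩ := hs (B / (4 * (A + 1))) (div_pos hB hA1)
  have hc : 0 < B / (8 * (A + 1) * (m + 1)) := by positivity
  have h1 := Real.isLittleO_log_id_atTop.def hc
  rw [Filter.eventually_atTop] at h1
  obtain ⟨x0, hx0⟩ := h1
  obtain ⟨n1, hn1⟩ := exists_nat_ge x0
  refine ⟨max n0 n1 + 1, by omega, ?_⟩
  set n := max n0 n1 + 1 with hn
  have hnpos : (1 : ℝ) ≤ n := by
    rw [hn]; push_cast
    have : (0 : ℝ) ≤ max (n0 : ℝ) n1 := le_max_of_le_left (Nat.cast_nonneg _)
    linarith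
  have hkr : (0 : ℝ) < k n := by exact_mod_cast hk n
  have e1 : Real.log (k n) ≤ B / (4 * (A + 1)) * n := by
    have h := Real.log_le_log hkr (hn0 n (by omega))
    rwa [Real.log_exp] at h
  have e2 : Real.log ((n : ℝ) + 1) ≤ B / (8 * (A + 1) * (m + 1)) * (n + 1) := by
    have hx : x0 ≤ (n : ℝ) + 1 := by
      have : (n1 : ℝ) ≤ n := by exact_mod_cast (by omega : n1 ≤ n)
      linarith
    have h := hx0 _ hx
    rw [Real.norm_eq_abs, id, Real.norm_eq_abs, abs_of_nonneg (by linarith : (0 : ℝ) ≤ n + 1)] at h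
    exact le_trans (le_abs_self _) h
  have e3 : Real.log (((k n * (n + 1) ^ m : ℕ) : ℝ)) =
      Real.log (k n) + m * Real.log ((n : ℝ) + 1) := by
    push_cast
    rw [Real.log_mul hkr.ne' (by positivity), Real.log_pow]
  rw [e3]
  have hm : (0 : ℝ) ≤ m := Nat.cast_nonneg _
  have e4 : m * Real.log ((n : ℝ) + 1) ≤ B / (4 * (A + 1)) * n := by
    have s1 : (m : ℝ) * Real.log ((n : ℝ) + 1) ≤ m * (B / (8 * (A + 1) * (m + 1)) * (n + 1)) :=
      mul_le_mul_of_nonneg_left e2 hm
    have s2 : (m : ℝ) * (B / (8 * (A + 1) * (m + 1)) * (n + 1)) ≤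
        (m + 1) * (B / (8 * (A + 1) * (m + 1)) * (2 * n)) := by
      have : B / (8 * (A + 1) * (m + 1)) * ((n : ℝ) + 1) ≤
          B / (8 * (A + 1) * (m + 1)) * (2 * n) := mul_le_mul_of_nonneg_left (by linarith) hc.le
      have hpos : 0 ≤ B / (8 * (A + 1) * (m + 1)) * (2 * (n : ℝ)) := by positivity
      nlinarith
    have s3 : ((m : ℝ) + 1) * (B / (8 * (A + 1) * (m + 1)) * (2 * n)) = B / (4 * (A + 1)) * n := by
      field_simp
      ring
    linarith
  have e5 : A * (Real.log (k n) + m * Real.log ((n : ℝ) + 1)) ≤ A * (B / (2 * (A + 1)) * n) := by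
    refine mul_le_mul_of_nonneg_left ?_ hA
    have : B / (2 * (A + 1)) * n = B / (4 * (A + 1)) * n + B / (4 * (A + 1)) * n := by
      field_simp
      ring
    linarith
  have e6 : A * (B / (2 * (A + 1)) * n) = (A / (A + 1)) * (B * n / 2) := by
    field_simp
  have e7 : A / (A + 1) ≤ 1 := by
    rw [div_le_one (by linarith)]; linarith
  have e8 : 0 < B * n := by positivity
  nlinarith

theorem st_CERT (hT : ST_CLT) (hC : ST_CLC) : ST_CERT := by
  intro V _ _ _ X θa χa hθa hχa hLT hLC ι _ _ W Y θ χ hθ hχ hUT hUC hA l μ hl hμ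
  by_contra hcon
  push Not at hcon
  obtain ⟨k, hk, hs, hf⟩ := hA
  have hι : Nonempty ι := by
    obtain ⟨f, -⟩ := hf 1 le_rfl
    exact ⟨((f (fun _ => Classical.arbitrary V)).2 0).1⟩
  obtain ⟨i0, -, hi0⟩ := Finset.exists_min_image (univ : Finset ι)
    (fun i => (l * Real.log θa + μ * Real.log χa) - (l * Real.log (θ i) + μ * Real.log (χ i)))
    univ_nonempty
  set B := (l * Real.log θa + μ * Real.log χa) - (l * Real.log (θ i0) + μ * Real.log (χ i0))
    with hB
  have hBpos : 0 < B := by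
    have := hcon i0
    linarith
  obtain ⟨n, hn1, hn⟩ := cert_large (l + μ) B k hk hs (Fintype.card ι) hBpos (by linarith)
  obtain ⟨f, hfn⟩ := hf n hn1
  set cls : (Fin n → V) → Fin (k n) × (ι → Fin (n + 1)) := fun u =>
    ((f u).1, fun i => ⟨(univ.filter (fun j => ((f u).2 j).1 = i)).card, by
      have h1 := Finset.card_filter_le (univ : Finset (Fin n)) (fun j => ((f u).2 j).1 = i)
      rw [Finset.card_univ, Fintype.card_fin] at h1
      omega⟩) with hcls
  have hne : Nonempty (Fin (k n) × (ι → Fin (n + 1))) := ⟨cls (fun _ => Classical.arbitrary V)⟩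
  obtain ⟨c, hc⟩ := cert_class cls
  have hcard : Fintype.card (Fin (k n) × (ι → Fin (n + 1))) = k n * (n + 1) ^ Fintype.card ι := by
    simp
  rw [hcard] at hc
  set L := k n * (n + 1) ^ Fintype.card ι with hL
  have hLpos : 0 < L := Nat.mul_pos (hk n) (pow_pos (Nat.succ_pos n) _)
  set U := univ.filter (fun a => cls a = c) with hU
  have hUm : ∀ u ∈ U, cls u = c := fun u hu => (Finset.mem_filter.1 hu).2
  have hadj : ∀ u ∈ U, ∀ v ∈ U, (∃ i, X.Adj (u i) (v i)) →
      ∃ i, (SigG Y).Adj ((f u).2 i) ((f v).2 i) := by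
    intro u hu v hv huv
    rcases hfn u v huv with h | h
    · exfalso
      apply h
      have h1 : (cls u).1 = (cls v).1 := by rw [hUm u hu, hUm v hv]
      exact h1
    · exact h
  have hcnt : ∀ u ∈ U, ∀ i, (univ.filter (fun j => ((f u).2 j).1 = i)).card = (c.2 i : ℕ) := by
    intro u hu i
    have h1 : ((cls u).2 i : ℕ) = (c.2 i : ℕ) := by rw [hUm u hu]
    exact h1
  have hprod : ∀ (t : ι → ℝ), ∀ u ∈ U, ∏ j, t ((f u).2 j).1 ≤ ∏ i, t i ^ (c.2 i : ℕ) := by
    intro t u hu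
    rw [cert_prod t (fun j => ((f u).2 j).1)]
    refine le_of_eq (Finset.prod_congr rfl fun i _ => ?_)
    rw [hcnt u hu i]
  have hUne : U.Nonempty := by
    rw [← Finset.card_pos]
    by_contra h0
    have h1 : U.card = 0 := by omega
    rw [h1, mul_zero] at hc
    have := Fintype.card_pos (α := Fin n → V)
    omega
  have hsum : ∑ i, (c.2 i : ℕ) = n := by
    obtain ⟨u, hu⟩ := hUne
    exact (Finset.sum_congr rfl fun i _ => (hcnt u hu i).symm).trans
      (cert_count (fun j => ((f u).2 j).1))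
  have b1 := hT V X θa hθa hLT ι W Y θ hθ hUT n U (fun u => (f u).2) (∏ i, θ i ^ (c.2 i : ℕ))
    (Finset.prod_nonneg fun i _ => pow_nonneg (hθ i).le _) hadj (hprod θ)
  have b2 := hC V X χa hχa hLC ι W Y χ hχ hUC n U (fun u => (f u).2) (∏ i, χ i ^ (c.2 i : ℕ))
    (Finset.prod_nonneg fun i _ => pow_nonneg (hχ i).le _) hadj (hprod χ)
  have c1 := cert_log n L hLpos θa hθa θ hθ (fun i => (c.2 i : ℕ))
    (cert_step U L hc θa _ hθa b1)
  have c2 := cert_log n L hLpos χa hχa χ hχ (fun i => (c.2 i : ℕ))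
    (cert_step U L hc χa _ hχa b2)
  have d1 : ∑ i, ((c.2 i : ℕ) : ℝ) * (l * Real.log (θ i) + μ * Real.log (χ i)) ≤
      n * ((l * Real.log θa + μ * Real.log χa) - B) := by
    have h1 : ∑ i, ((c.2 i : ℕ) : ℝ) * (l * Real.log (θ i) + μ * Real.log (χ i)) ≤
        ∑ i, ((c.2 i : ℕ) : ℝ) * ((l * Real.log θa + μ * Real.log χa) - B) := by
      refine Finset.sum_le_sum fun i _ => mul_le_mul_of_nonneg_left ?_ (Nat.cast_nonneg _)
      have := hi0 i (Finset.mem_univ i)
      linarith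
    rw [← Finset.sum_mul] at h1
    have h2 : (∑ i, ((c.2 i : ℕ) : ℝ)) = n := by exact_mod_cast hsum
    rw [h2] at h1
    exact h1
  have d2 : ∑ i, ((c.2 i : ℕ) : ℝ) * (l * Real.log (θ i) + μ * Real.log (χ i)) =
      l * ∑ i, ((c.2 i : ℕ) : ℝ) * Real.log (θ i) + μ * ∑ i, ((c.2 i : ℕ) : ℝ) * Real.log (χ i) := by
    rw [Finset.mul_sum, Finset.mul_sum, ← Finset.sum_add_distrib]
    refine Finset.sum_congr rfl fun i _ => ?_
    ring
  have e1 := mul_le_mul_of_nonneg_left c1 hl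
  have e2 := mul_le_mul_of_nonneg_left c2 hμ
  have hn' : (l + μ) * Real.log (L : ℝ) < B * n := hn
  nlinarith

end Pool.Agent.Helper14.FO
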