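import Pool.Agent.Helper14.FO.Defs

set_option autoImplicit false

namespace Pool.Agent.Helper14.FO

theorem st_ODD : ST_ODD := by
  intro W Z hZ
  rw [SimpleGraph.two_colorable_iff_forall_loop_even] at hZ
  push Not at hZ
  obtain ⟨x, w, hw⟩ := hZ
  rw [Nat.not_even_iff_odd] at hw
  have hlen : w.length ≠ 1 := by
    intro h1
    have h := w.adj_getVert_succ (i := 0) (by omega)
    have h2 : w.getVert (0 + 1) = w.getVert w.length := by rw [h1]
    rw [h2, SimpleGraph.Walk.getVert_length, SimpleGraph.Walk.getVert_zero] at h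
    exact Z.loopless.irrefl x h
  obtain ⟨m, hm⟩ := hw
  refine ⟨m - 1, fun i => w.getVert i.val, fun i => ?_⟩
  have hL : w.length = 2 * (m - 1) + 3 := by omega
  have hlt : i.val < 2 * (m - 1) + 3 := ZMod.val_lt i
  have h := w.adj_getVert_succ (i := i.val) (by omega)
  have hv : (i + 1).val = (i.val + 1) % (2 * (m - 1) + 3) := by
    rw [ZMod.val_add]
    have : Fact (1 < 2 * (m - 1) + 3) := ⟨by omega⟩
    rw [ZMod.val_one]
  change Z.Adj (w.getVert i.val) (w.getVert (i + 1).val)
  rw [hv]
  by_cases hc : i.val + 1 = 2 * (m - 1) + 3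
  · rw [hc, Nat.mod_self, SimpleGraph.Walk.getVert_zero]
    rw [show i.val + 1 = w.length by omega, SimpleGraph.Walk.getVert_length] at h
    exact h
  · rw [Nat.mod_eq_of_lt (by omega)]
    exact h

end Pool.Agent.Helper14.FO
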