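import Pool.Agent.Helper14.FO.Fin2
import Pool.Agent.Helper11.FO.UPI
import Pool.Agent.Helper14.FO.CERT
import Pool.Agent.Helper14.FO.ODD
import Pool.Agent.Helper25.FO.DENK
import Pool.Agent.Helper3.FO.COV
import Pool.Agent.Helper3.FO.DENB
import Pool.Agent.Helper35.FO.BH
import Pool.Agent.Helper35.FO.KNB
import Pool.Agent.Helper38.FO.BCE
import Pool.Agent.Helper38.FO.CLC
import Pool.Agent.Helper46.FO.FNP
import Pool.Agent.Helper46.FO.SPC
import Pool.Agent.Helper47.FO.IND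
import Pool.Agent.Helper49.FO.CCT
import Pool.Agent.Helper50.FO.ASY
import Pool.Agent.Helper63.FO.FW
import Pool.Agent.Helper63.FO.TAIL
import Pool.Agent.Helper68.FO.KRW
import Pool.Agent.Helper72.FO.KUP
import Pool.Agent.Helper72.FO.PIG
import Pool.Agent.Helper72.FO.REL
import Pool.Agent.Helper72.FO.VEC
import Pool.Agent.Helper76.FO.CLT
import Pool.Agent.Helper79.FO.TEN
import Pool.Agent.Helper79.FO.TREE
import Pool.Agent.Helper81.FO.GRM
import Pool.Agent.Helper91.FO.NODES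
import Pool.Agent.Helper93.FO.EXP
import Pool.Agent.Helper93.FO.KHOM
import Pool.Agent.Helper94.FO.FIN
import Pool.Agent.Helper24.FO.RNS
import Pool.Agent.Helper77.FO.UNI

set_option autoImplicit false

namespace Pool.Agent.Helper14.FO

theorem a_UPI : ST_UPI := st_UPI st_COV

theorem a_CERT : ST_CERT := st_CERT st_CLT (Pool.Agent.Helper38.FO.st_CLC st_IND)

theorem a_CCT : ST_CCT := Pool.Agent.Helper49.FO.st_CCT Pool.Agent.Helper35.FO.st_KNB st_EXP

theorem a_FNP : ST_FNP := st_FNP a_CCT st_TEN st_GRM st_KUP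

theorem a_BCE : ST_BCE := Pool.Agent.Helper38.FO.st_BCE st_KRW

theorem a_DENB : ST_DENB := st_DENB st_TAIL

theorem a_ROOT : ST_ROOT := st_ROOT a_BCE st_FW st_VEC a_DENB

theorem a_NEXT : ST_NEXT := st_NEXT a_BCE st_FW st_VEC st_TEN st_PIG a_DENB

theorem a_NODES : ST_NODES := st_NODES a_ROOT a_NEXT st_DENK st_SPC st_KHOM st_TREE

theorem a_FIN : ST_FIN :=
  Pool.Agent.Helper94.FO.st_FIN st_REL1 st_REL2 Pool.Agent.Helper35.FO.st_BH st_ODD a_UPI a_CERT a_FNP a_NODES st_UNI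

end Pool.Agent.Helper14.FO
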