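import Pool.Agent.Helper14.FO.Defs2

set_option autoImplicit false

namespace Pool.Agent.Helper14.FO

open Finset

theorem fic_mono {W : Type} (Y : SimpleGraph W) {χ χ' : ℝ} (h : χ ≤ χ') (hY : UpW Y χ) :
    UpW Y χ' := by
  obtain ⟨J, i1, p, I, hp, h1, h2, h3⟩ := hY
  refine ⟨J, i1, p, I, hp, h1, h2, fun y => (h3 y).trans (mul_le_mul_of_nonneg_right h ?_)⟩
  refine Finset.sum_nonneg fun j _ => ?_
  split_ifs
  · exact hp j
  · exact le_rfl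

/-- room for the slope -/
theorem fic_room (A D : ℝ) (hD : 0 < D) : ∃ κ : ℝ, 0 < κ ∧ ∀ l, 0 ≤ l → l ≤ κ → l * A < D := by
  refine ⟨D / (2 * (|A| + 1)), by positivity, fun l hl hlk => ?_⟩
  have h1 : 0 < |A| + 1 := by positivity
  have h2 : l * A ≤ l * (|A| + 1) := mul_le_mul_of_nonneg_left (by linarith [le_abs_self A]) hl
  have h3 : l * (|A| + 1) ≤ D / (2 * (|A| + 1)) * (|A| + 1) := mul_le_mul_of_nonneg_right hlk h1.le
  have h4 : D / (2 * (|A| + 1)) * (|A| + 1) = D / 2 := by field_simp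
  linarith

theorem st_FIC (h1 : ST_VTX) (h2 : ST_GAP) (h3 : ST_NDC) (h4 : ST_MON2) (h5 : ST_ASM) :
    ST_FIC := by
  intro V₁ V₂ _ _ _ _ X₁ X₂ hX χ₁ c hU hN hlt hc2
  obtain ⟨φ, c', hcc, hφ0, hφ1, hXP⟩ := h1 V₂ X₂ c (by linarith) hN
  -- the numbers
  obtain ⟨m, hm⟩ : ∃ m : ℝ, m = max (max χ₁ 1) 2 := ⟨_, rfl⟩
  have hm1 : χ₁ ≤ m := by rw [hm]; exact le_max_of_le_left (le_max_left _ _)
  have hm2 : 2 ≤ m := by rw [hm]; exact le_max_right _ _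
  have hmc : m < c := by
    rw [hm]
    exact max_lt (max_lt hlt (by linarith)) hc2
  obtain ⟨y0, hy0, y0c⟩ := exists_between hmc
  obtain ⟨y1, hy1, y1c⟩ := exists_between y0c
  obtain ⟨Y, M, hM0, hM1, hFC, hXPY, hHom⟩ := h2 V₂ X₂ φ y1 c' hφ0 hφ1 hXP (by linarith)
    (by linarith)
  obtain ⟨θ₁, χ', hθ₁, -, hUT, -⟩ := h4 V₁ X₁
  have hD : 0 < Real.log y0 - Real.log m := by
    have := Real.log_lt_log (by linarith) hy0
    linarith
  obtain ⟨κ, hκ, hroom⟩ := fic_room (Real.log θ₁) _ hD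
  obtain ⟨nd, n1, n2, n3, n4⟩ := h3 Y M y1 hM0 hM1 hFC hXPY y0 y1 κ (by linarith) hy1 le_rfl hκ
  have hcomp : ∀ w, HomTo (nd w).X X₂ := by
    intro w
    obtain ⟨f, hf⟩ := n1 w
    obtain ⟨g, hg⟩ := hHom
    exact ⟨fun x => g (f x), fun a b hab => hg _ _ (hf _ _ hab)⟩
  refine h5 V₁ V₂ X₁ X₂ hX nd hcomp n2 ?_ θ₁ m hθ₁ (by linarith) hUT (fic_mono X₁ hm1 hU) ?_
  · intro w
    obtain ⟨a1, a2, a3⟩ := n3 w
    exact ⟨by linarith, by linarith, by linarith⟩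
  · intro a
    obtain ⟨l, hl0, hlk, hl⟩ := n4 a
    obtain ⟨a1, a2, a3⟩ := n3 a
    refine ⟨l, 1, hl0, zero_le_one, ?_, ?_⟩
    · have b1 := hroom l hl0 hlk
      have b2 : 0 ≤ l * Real.log (nd a).θ := mul_nonneg hl0 (Real.log_nonneg a1)
      have b3 := Real.log_lt_log (by linarith) a2
      linarith
    · intro b hb
      have := hl b hb
      linarith

end Pool.Agent.Helper14.FO
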