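import Pool.Agent.Helper14.FO.Defs2

set_option autoImplicit false

namespace Pool.Agent.Helper14.FO

open Finset

theorem fit_room (A D : ℝ) (hD : 0 < D) : ∃ κ : ℝ, 0 < κ ∧ ∀ l, 0 ≤ l → l ≤ κ → l * A < D := by
  refine ⟨D / (2 * (|A| + 1)), by positivity, fun l hl hlk => ?_⟩
  have h1 : 0 < |A| + 1 := by positivity
  have h2 : l * A ≤ l * (|A| + 1) := mul_le_mul_of_nonneg_left (by linarith [le_abs_self A]) hl
  have h3 : l * (|A| + 1) ≤ D / (2 * (|A| + 1)) * (|A| + 1) := mul_le_mul_of_nonneg_right hlk h1.le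
  have h4 : D / (2 * (|A| + 1)) * (|A| + 1) = D / 2 := by field_simp
  linarith

/-- monotonicity in the value -/
theorem fit_mono {V : Type} [Fintype V] [DecidableEq V] (X : SimpleGraph V) {θ θ' : ℝ}
    (h : θ ≤ θ') (hU : UpT X θ) : UpT X θ' := by
  obtain ⟨d, v, h1, h2⟩ := hU
  obtain ⟨e⟩ : Nonempty (Fin (d + Fintype.card V) ≃ Fin d ⊕ V) :=
    ⟨finSumFinEquiv.symm.trans (Equiv.sumCongr (Equiv.refl _) (Fintype.equivFin V).symm)⟩
  obtain ⟨s, hs⟩ : ∃ s : ℝ, s ^ 2 = θ' - θ := ⟨Real.sqrt (θ' - θ), Real.sq_sqrt (by linarith)⟩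
  obtain ⟨w, hw⟩ : ∃ w : V → Fin d ⊕ V → ℝ, w = fun x k => Sum.elim (fun i => v x i)
    (fun y => if x = y then s else 0) k := ⟨_, rfl⟩
  refine ⟨d + Fintype.card V, fun x i => w x (e i), ?_, ?_⟩
  · intro x
    rw [Equiv.sum_comp e (fun k => w x k ^ 2), Fintype.sum_sum_type, hw]
    simp only [Sum.elim_inl, Sum.elim_inr]
    rw [h1 x]
    have : ∑ y, (if x = y then s else 0) ^ 2 = s ^ 2 := by
      rw [Finset.sum_eq_single x]
      · simp
      · intro y _ hy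
        rw [if_neg (fun h => hy h.symm)]
        ring
      · intro h
        exact absurd (Finset.mem_univ x) h
    rw [this, hs]
    ring
  · intro x y hxy
    rw [Equiv.sum_comp e (fun k => w x k * w y k), Fintype.sum_sum_type, hw]
    simp only [Sum.elim_inl, Sum.elim_inr]
    rw [h2 x y hxy]
    have : ∑ z, (if x = z then s else 0) * (if y = z then s else 0) = 0 := by
      refine Finset.sum_eq_zero fun z _ => ?_
      by_cases h : x = z
      · have h' : ¬ y = z := fun h' => X.ne_of_adj hxy (h.trans h'.symm)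
        rw [if_neg h', mul_zero]
      · rw [if_neg h, zero_mul]
    rw [this, add_zero]

theorem st_FIT (h1 : ST_SDP) (h2 : ST_SCL) (h3 : ST_NDT) (h4 : ST_MON2) (h5 : ST_ASM) :
    ST_FIT := by
  intro V₁ V₂ _ _ _ _ X₁ X₂ hX θ₁ c hU hN hlt hc2
  obtain ⟨B, b1, b2, b3, b4, b5⟩ := h1 V₂ X₂ c (by linarith) hN
  obtain ⟨Y, M, hM0, hM1, hFC, hcM, hHom⟩ := h2 V₂ X₂ c B hc2 b1 b2 b3 b4 b5
  -- the numbers
  obtain ⟨m, hm⟩ : ∃ m : ℝ, m = max (max θ₁ 1) 2 := ⟨_, rfl⟩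
  have hm1 : θ₁ ≤ m := by rw [hm]; exact le_max_of_le_left (le_max_left _ _)
  have hm2 : 2 ≤ m := by rw [hm]; exact le_max_right _ _
  have hmc : m < c := by
    rw [hm]
    exact max_lt (max_lt hlt (by linarith)) hc2
  obtain ⟨x0, hx0, x0c⟩ := exists_between hmc
  obtain ⟨x1, hx1, x1c⟩ := exists_between x0c
  obtain ⟨θ', χ₁, -, hχ₁, -, hUW⟩ := h4 V₁ X₁
  have hD : 0 < Real.log x0 - Real.log m := by
    have := Real.log_lt_log (by linarith) hx0
    linarith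
  obtain ⟨κ, hκ, hroom⟩ := fit_room (Real.log χ₁) _ hD
  obtain ⟨nd, n1, n2, n3, n4⟩ := h3 Y M hM0 hM1 hFC x0 x1 κ (by linarith) hx1 (by linarith) hκ
  have hcomp : ∀ w, HomTo (nd w).X X₂ := by
    intro w
    obtain ⟨f, hf⟩ := n1 w
    obtain ⟨g, hg⟩ := hHom
    exact ⟨fun x => g (f x), fun a b hab => hg _ _ (hf _ _ hab)⟩
  refine h5 V₁ V₂ X₁ X₂ hX nd hcomp n2 ?_ m χ₁ (by linarith) hχ₁ (fit_mono X₁ hm1 hU) hUW ?_
  · intro w
    obtain ⟨a1, a2, a3⟩ := n3 w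
    exact ⟨by linarith, by linarith, by linarith⟩
  · intro a
    obtain ⟨μ, hl0, hlk, hl⟩ := n4 a
    obtain ⟨a1, a2, a3⟩ := n3 a
    refine ⟨1, μ, zero_le_one, hl0, ?_, ?_⟩
    · have b1 := hroom μ hl0 hlk
      have b2 : 0 ≤ μ * Real.log (nd a).c := mul_nonneg hl0 (Real.log_nonneg a1)
      have b3 := Real.log_lt_log (by linarith) a3
      linarith
    · intro b hb
      have := hl b hb
      linarith

end Pool.Agent.Helper14.FO
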