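import Pool.Agent.Helper14.FO.Defs2

set_option autoImplicit false

namespace Pool.Agent.Helper14.FO

open Finset

theorem vtx_mono {W : Type} (Y : SimpleGraph W) {χ χ' : ℝ} (h : χ ≤ χ') (hY : UpW Y χ) :
    UpW Y χ' := by
  obtain ⟨J, i1, p, I, hp, h1, h2, h3⟩ := hY
  refine ⟨J, i1, p, I, hp, h1, h2, fun y => (h3 y).trans (mul_le_mul_of_nonneg_right h ?_)⟩
  refine Finset.sum_nonneg fun j _ => ?_
  split_ifs
  · exact hp j
  · exact le_rfl

theorem st_VTX (hS : ST_SAD) : ST_VTX := by
  intro V _ _ X c hc hX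
  classical
  by_cases hV : Nonempty V
  swap
  · exfalso
    rw [not_nonempty_iff] at hV
    exact hX ⟨Unit, inferInstance, fun _ => 1, fun _ _ => true, fun _ => zero_le_one, by simp,
      fun _ x => (hV.false x).elim, fun y => (hV.false y).elim⟩
  have hne : Nonempty {K : Finset V // Ind X K} := ⟨⟨∅, fun a ha => absurd ha (by simp)⟩⟩
  obtain ⟨p, q, v, hp0, hp1, hq0, hq1, h1, h2⟩ := hS {K : Finset V // Ind X K} V
    (fun K x => if x ∈ K.1 then 1 else 0)
  have hP : ∀ x, v ≤ ∑ K, if x ∈ K.1 then p K else 0 := by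
    intro x
    refine (h1 x).trans (le_of_eq (Finset.sum_congr rfl fun K _ => ?_))
    split_ifs <;> simp
  have hQ : ∀ K : Finset V, Ind X K → ∑ x ∈ K, q x ≤ v := by
    intro K hK
    refine le_trans (le_of_eq ?_) (h2 ⟨K, hK⟩)
    rw [← Finset.sum_filter_add_sum_filter_not univ (fun x => x ∈ K)]
    have e1 : ∑ x ∈ univ.filter (fun x => x ∈ K), (if x ∈ K then (1 : ℝ) else 0) * q x =
        ∑ x ∈ K, q x := by
      refine Finset.sum_congr (by ext x; simp) fun x hx => ?_
      rw [if_pos hx, one_mul]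
    have e2 : ∑ x ∈ univ.filter (fun x => ¬ x ∈ K), (if x ∈ K then (1 : ℝ) else 0) * q x = 0 := by
      refine Finset.sum_eq_zero fun x hx => ?_
      rw [if_neg (Finset.mem_filter.1 hx).2, zero_mul]
    have e3 : ∀ x, (if x ∈ (⟨K, hK⟩ : {K : Finset V // Ind X K}).1 then (1 : ℝ) else 0) * q x =
        (if x ∈ K then (1 : ℝ) else 0) * q x := fun _ => rfl
    simp only [e3]
    rw [e1, e2, add_zero]
  have hv : 0 < v := by
    by_contra hv
    push Not at hv
    have h3 : ∀ x, q x ≤ 0 := by
      intro x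
      have hx : Ind X {x} := by
        intro a ha b hb
        rw [Finset.mem_singleton] at ha hb
        rw [ha, hb]
        exact X.loopless.irrefl x
      have := hQ {x} hx
      rw [Finset.sum_singleton] at this
      linarith
    have h4 : ∑ x, q x ≤ 0 := Finset.sum_nonpos fun x _ => h3 x
    linarith
  have hU : UpW X (1 / v) := by
    refine ⟨{K : Finset V // Ind X K}, inferInstance, p, fun K x => decide (x ∈ K.1), hp0, hp1, ?_,
      ?_⟩
    · intro K x y hx hy
      exact K.2 x (by simpa using hx) y (by simpa using hy)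
    · intro y
      rw [one_div, ← div_eq_inv_mul, le_div_iff₀ hv, one_mul]
      refine (hP y).trans (le_of_eq (Finset.sum_congr rfl fun K _ => ?_))
      simp
  refine ⟨q, 1 / v, ?_, hq0, hq1, ?_⟩
  · by_contra h
    exact hX (vtx_mono X (not_lt.1 h) hU)
  · intro I hI N hN
    have hIN : I ⊆ N := fun x hx => (hN x).2 (Or.inl hx)
    have hK : ∀ K : {K : Finset V // Ind X K}, ∑ x ∈ I, q x + ∑ x ∈ K.1 \ N, q x ≤ v := by
      intro K
      have hd : Disjoint I (K.1 \ N) := by
        rw [Finset.disjoint_left]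
        intro x hx hx'
        exact (Finset.mem_sdiff.1 hx').2 (hIN hx)
      rw [← Finset.sum_union hd]
      refine hQ _ ?_
      intro a ha b hb hab
      rcases Finset.mem_union.1 ha with ha | ha
      · rcases Finset.mem_union.1 hb with hb | hb
        · exact hI a ha b hb hab
        · exact (Finset.mem_sdiff.1 hb).2 ((hN b).2 (Or.inr ⟨a, ha, hab⟩))
      · rcases Finset.mem_union.1 hb with hb | hb
        · exact (Finset.mem_sdiff.1 ha).2 ((hN a).2 (Or.inr ⟨b, hb, hab.symm⟩))
        · exact K.2 a (Finset.mem_sdiff.1 ha).1 b (Finset.mem_sdiff.1 hb).1 hab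
    have hav : ∑ x ∈ I, q x + ∑ x ∈ Nᶜ, q x * ∑ K : {K : Finset V // Ind X K},
        (if x ∈ K.1 then p K else 0) ≤ v := by
      have e1 : ∑ K : {K : Finset V // Ind X K}, p K * (∑ x ∈ I, q x + ∑ x ∈ K.1 \ N, q x) ≤
          ∑ K : {K : Finset V // Ind X K}, p K * v :=
        Finset.sum_le_sum fun K _ => mul_le_mul_of_nonneg_left (hK K) (hp0 K)
      rw [← Finset.sum_mul, hp1, one_mul] at e1
      refine le_trans (le_of_eq ?_) e1
      simp only [mul_add, Finset.sum_add_distrib]
      rw [← Finset.sum_mul, hp1, one_mul]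
      congr 1
      simp only [Finset.mul_sum]
      rw [Finset.sum_comm]
      refine Finset.sum_congr rfl fun K _ => ?_
      have e2 : K.1 \ N = Nᶜ.filter (fun x => x ∈ K.1) := by
        ext x
        simp only [Finset.mem_sdiff, Finset.mem_filter, Finset.mem_compl]
        tauto
      rw [e2, Finset.sum_filter]
      refine Finset.sum_congr rfl fun x _ => ?_
      split_ifs
      · ring
      · simp
    have hlow : v * ∑ x ∈ Nᶜ, q x ≤ ∑ x ∈ Nᶜ, q x * ∑ K : {K : Finset V // Ind X K},
        (if x ∈ K.1 then p K else 0) := by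
      rw [Finset.mul_sum]
      refine Finset.sum_le_sum fun x _ => ?_
      rw [mul_comm]
      exact mul_le_mul_of_nonneg_left (hP x) (hq0 x)
    have htot : ∑ x ∈ N, q x + ∑ x ∈ Nᶜ, q x = 1 := by
      rw [Finset.sum_add_sum_compl, hq1]
    rw [one_div, ← div_eq_inv_mul, div_le_iff₀ hv]
    nlinarith

end Pool.Agent.Helper14.FO
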