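import Pool.Agent.Helper14.FO.QST
import Pool.Agent.Helper14.FO.VTX

/-! Intervals containing an edgeless graph whose order exceeds the fractional clique cover number
of the lower end. -/

set_option autoImplicit false

namespace Pool.Agent.Helper14.FO

open Finset

/-- real weights to multisets -/
theorem int_upC {W : Type} (Y : SimpleGraph W) {c c' : ℝ} (hc : 0 < c) (hcc : c < c')
    (h : UpW Y c) : UpC Y c' := by
  obtain ⟨J, iJ, p, I, hp, hp1, hI, hy⟩ := h
  have hr : 0 < c' / c - 1 := by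
    rw [sub_pos, one_lt_div hc]; exact hcc
  obtain ⟨D, hD⟩ := exists_nat_gt ((c' * Fintype.card J) / (c' / c - 1) + Fintype.card J)
  have hc'0 : 0 < c' := hc.trans hcc
  have hJ0 : (0 : ℝ) ≤ Fintype.card J := Nat.cast_nonneg _
  have hq0 : 0 ≤ (c' * Fintype.card J) / (c' / c - 1) := by positivity
  have hD1 : (Fintype.card J : ℝ) < D := by linarith
  have hD2 : c' * Fintype.card J < D * (c' / c - 1) := by
    rw [← div_lt_iff₀ hr]; linarith
  have hDn : (0 : ℝ) ≤ D := Nat.cast_nonneg _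
  obtain ⟨k, hk⟩ : ∃ k : J → ℕ, ∀ j, k j = ⌊p j * D⌋₊ := ⟨_, fun _ => rfl⟩
  have hk1 : ∀ j, (k j : ℝ) ≤ p j * D := by
    intro j
    rw [hk]
    exact Nat.floor_le (mul_nonneg (hp j) hDn)
  have hk2 : ∀ j, p j * D - 1 ≤ k j := by
    intro j
    rw [hk]
    have := Nat.lt_floor_add_one (p j * D)
    linarith
  have hs1 : (∑ j, (k j : ℝ)) ≤ D := by
    calc (∑ j, (k j : ℝ)) ≤ ∑ j, p j * D := Finset.sum_le_sum fun j _ => hk1 j
      _ = D := by rw [← Finset.sum_mul, hp1, one_mul]
  have hs2 : (D : ℝ) - Fintype.card J ≤ ∑ j, (k j : ℝ) := by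
    calc (D : ℝ) - Fintype.card J = ∑ j, (p j * D - 1) := by
          rw [Finset.sum_sub_distrib, ← Finset.sum_mul, hp1, one_mul]
          simp
      _ ≤ ∑ j, (k j : ℝ) := Finset.sum_le_sum fun j _ => hk2 j
  have hne : Nonempty (Σ j, Fin (k j)) := by
    have h0 : 0 < ∑ j, (k j : ℝ) := by linarith
    obtain ⟨j, -, hj⟩ := Finset.exists_ne_zero_of_sum_ne_zero h0.ne'
    have : 0 < k j := by
      rw [Nat.pos_iff_ne_zero]
      exact_mod_cast hj
    exact ⟨⟨j, ⟨0, this⟩⟩⟩
  refine ⟨Σ j, Fin (k j), inferInstance, hne, fun z => {y | I z.1 y = true}, ?_, ?_⟩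
  · intro z x hx y hy'
    exact hI z.1 x y hx hy'
  · intro y
    have e1 : (Fintype.card (Σ j, Fin (k j)) : ℝ) = ∑ j, (k j : ℝ) := by
      rw [Fintype.card_sigma]
      push_cast
      simp
    have e2 : (Set.ncard {z : Σ j, Fin (k j) | y ∈ {y | I z.1 y = true}} : ℝ) =
        ∑ j, if I j y = true then (k j : ℝ) else 0 := by
      rw [Set.ncard_eq_toFinset_card']
      have e3 : ({z : Σ j, Fin (k j) | y ∈ {y | I z.1 y = true}} : Set (Σ j, Fin (k j))).toFinset =
          univ.sigma (fun j => if I j y = true then (univ : Finset (Fin (k j))) else ∅) := by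
        ext z
        simp only [Set.mem_toFinset, Set.mem_ofPred_eq, Finset.mem_sigma, Finset.mem_univ,
          true_and]
        split_ifs with h
        · simp [h]
        · simp [h]
      rw [e3, Finset.card_sigma]
      push_cast
      refine Finset.sum_congr rfl fun j _ => ?_
      split_ifs <;> simp
    rw [e1, e2]
    have e4 : D * (∑ j, if I j y = true then p j else 0) - Fintype.card J ≤
        ∑ j, if I j y = true then (k j : ℝ) else 0 := by
      calc D * (∑ j, if I j y = true then p j else 0) - Fintype.card J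
          = ∑ j, ((if I j y = true then p j * D else 0) - 1) := by
            rw [Finset.sum_sub_distrib, Finset.mul_sum]
            congr 1
            · refine Finset.sum_congr rfl fun j _ => ?_
              split_ifs
              · ring
              · ring
            · simp
        _ ≤ ∑ j, if I j y = true then (k j : ℝ) else 0 := by
            refine Finset.sum_le_sum fun j _ => ?_
            split_ifs
            · exact hk2 j
            · norm_num
    have e5 : 1 / c ≤ ∑ j, if I j y = true then p j else 0 := by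
      rw [div_le_iff₀ hc, mul_comm]
      exact hy y
    have e6 : D * (1 / c) ≤ D * (∑ j, if I j y = true then p j else 0) :=
      mul_le_mul_of_nonneg_left e5 hDn
    have e7 : c' * (D * (1 / c) - Fintype.card J) ≤
        c' * ∑ j, if I j y = true then (k j : ℝ) else 0 :=
      mul_le_mul_of_nonneg_left (by linarith) hc'0.le
    have e8 : c' * (D * (1 / c) - Fintype.card J) = D * (c' / c - 1) + D - c' * Fintype.card J := by
      field_simp
      ring
    linarith

/-- multisets to real weights -/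
theorem int_upW {W : Type} (Y : SimpleGraph W) {c : ℝ} (h : UpC Y c) : UpW Y c := by
  classical
  obtain ⟨J, iJ, nJ, I, hI, hy⟩ := h
  have hJ : (0 : ℝ) < Fintype.card J := by
    have := Fintype.card_pos (α := J)
    exact_mod_cast this
  refine ⟨J, iJ, fun _ => 1 / Fintype.card J, fun j x => decide (x ∈ I j), fun _ => by positivity,
    ?_, ?_, ?_⟩
  · rw [Finset.sum_const, Finset.card_univ, nsmul_eq_mul]
    field_simp
  · intro j x y hx hy'
    exact hI j x (by simpa using hx) y (by simpa using hy')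
  · intro y
    have e : (∑ j, if decide (y ∈ I j) = true then 1 / (Fintype.card J : ℝ) else 0) =
        (Set.ncard {j | y ∈ I j} : ℝ) / Fintype.card J := by
      rw [← Finset.sum_filter, Finset.sum_const, nsmul_eq_mul, Set.ncard_eq_toFinset_card']
      rw [mul_one_div]
      congr 2
      congr 1
      ext j
      simp
    rw [e, ← mul_div_assoc, one_le_div hJ]
    exact hy y

theorem int_top (m : ℕ) {c : ℝ} (hc : 0 < c) (h : UpW (⊤ : SimpleGraph (Fin m)) c) :
    (m : ℝ) ≤ c := by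
  obtain ⟨J, iJ, p, I, hp, hp1, hI, hy⟩ := h
  have h1 : ∑ y : Fin m, (1 : ℝ) ≤ ∑ y : Fin m, c * ∑ j, if I j y = true then p j else 0 :=
    Finset.sum_le_sum fun y _ => hy y
  rw [← Finset.mul_sum, Finset.sum_comm] at h1
  have h2 : ∑ j, ∑ y : Fin m, (if I j y = true then p j else 0) ≤ ∑ j, p j := by
    refine Finset.sum_le_sum fun j _ => ?_
    rw [← Finset.sum_filter, Finset.sum_const, nsmul_eq_mul]
    have h3 : (univ.filter fun y : Fin m => I j y = true).card ≤ 1 := by
      rw [Finset.card_le_one]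
      intro a ha b hb
      by_contra hab
      exact hI j a b (Finset.mem_filter.1 ha).2 (Finset.mem_filter.1 hb).2 hab
    have h4 : ((univ.filter fun y : Fin m => I j y = true).card : ℝ) ≤ 1 := by exact_mod_cast h3
    exact (mul_le_mul_of_nonneg_right h4 (hp j)).trans (by rw [one_mul])
  rw [hp1] at h2
  have h5 : (∑ y : Fin m, (1 : ℝ)) = m := by simp
  rw [h5] at h1
  nlinarith

theorem int_growth (m : ℕ) (hm : 3 ≤ m) (c : ℝ) (hc1 : 1 ≤ c) (hc : c < m) :
    ∃ n : ℕ, c ^ (n + 1) < (qstP m (n + 1) : ℝ) := by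
  have hm3 : (3 : ℝ) ≤ m := by exact_mod_cast hm
  have hm0 : (0 : ℝ) < m := by linarith
  have hr : c / m < 1 := by rw [div_lt_one hm0]; exact hc
  obtain ⟨n, hn⟩ := exists_pow_lt_of_lt_one (show (0 : ℝ) < 1 / 2 by norm_num) hr
  refine ⟨n, ?_⟩
  have hexp : ∀ k : ℕ, ((m : ℤ) - 1) * qstP m k = (m - 2) * (m : ℤ) ^ k + 1 := by
    intro k
    induction k with
    | zero => simp only [qstP]; ring
    | succ k ih =>
      have h : qstP m (k + 1) = m * qstP m k - 1 := rfl
      calc ((m : ℤ) - 1) * qstP m (k + 1) = m * (((m : ℤ) - 1) * qstP m k) - (m - 1) := by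
            rw [h]; ring
        _ = (m - 2) * (m : ℤ) ^ (k + 1) + 1 := by rw [ih]; ring
  have h1 : ((m : ℝ) - 1) * (qstP m (n + 1) : ℝ) = (m - 2) * (m : ℝ) ^ (n + 1) + 1 := by
    exact_mod_cast hexp (n + 1)
  have h2 : (c / m) ^ (n + 1) < 1 / 2 := by
    refine lt_of_le_of_lt ?_ hn
    exact pow_le_pow_of_le_one (by positivity) hr.le (Nat.le_succ n)
  rw [div_pow, div_lt_iff₀ (by positivity)] at h2
  have h3 : (0 : ℝ) < (m : ℝ) ^ (n + 1) := by positivity
  by_contra hcon
  push Not at hcon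
  have h4 : ((m : ℝ) - 1) * (qstP m (n + 1) : ℝ) ≤ (m - 1) * (1 / 2 * (m : ℝ) ^ (n + 1)) :=
    mul_le_mul_of_nonneg_left (by linarith) (by linarith)
  nlinarith

theorem int_main (hREL2 : ST_REL2) (hUPI : ST_UPI) (hKHOM : ST_KHOM)
    (hKUP : ST_KUP) (hFIC : ST_FIC) (m : ℕ) (hm : 3 ≤ m) (V₁ V₂ : Type) [Fintype V₁]
    (X₁ : SimpleGraph V₁) (X₂ : SimpleGraph V₂) (c : ℝ) (hc : c < m)
    (hU : UpW X₁ c) (hX : ALE (⊤ : SimpleGraph (Fin m)) X₂) : Uni X₁ X₂ := by
  have hm3 : (3 : ℝ) ≤ m := by exact_mod_cast hm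
  obtain ⟨c', h1, h2⟩ := exists_between (max_lt hc (show (1 : ℝ) < m by linarith))
  have hc1 : 1 < c' := lt_of_le_of_lt (le_max_right _ _) h1
  have hU' : UpC X₁ c' := int_upC X₁ (lt_of_lt_of_le one_pos (le_max_right c 1)) h1
    (vtx_mono X₁ (le_max_left c 1) hU)
  obtain ⟨n, hn⟩ := int_growth m hm c' hc1.le h2
  obtain ⟨g1, g2⟩ := qst_lt (m : ℤ) (by exact_mod_cast hm) n
  obtain ⟨p, hp⟩ := Int.eq_ofNat_of_zero_le
    (le_trans zero_le_one (qst_lt (m : ℤ) (by exact_mod_cast hm) (n + 1)).1)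
  obtain ⟨q, hq⟩ := Int.eq_ofNat_of_zero_le (le_trans zero_le_one g1)
  have hcl := qst_clique m n p q hm hp.symm hq.symm
  have hq1 : 1 ≤ q := by
    rw [hq] at g1
    exact_mod_cast g1
  have hpq : p + 1 = m * q := by
    have h : qstP m (n + 1) = m * qstP m n - 1 := rfl
    rw [hp, hq] at h
    have : (p : ℤ) + 1 = m * q := by linarith
    exact_mod_cast this
  have hpz : NeZero p := ⟨by nlinarith⟩
  have hmz : NeZero m := ⟨by omega⟩
  have hq0 : (0 : ℝ) < q := by exact_mod_cast hq1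
  have hpR : (p : ℝ) + 1 = m * q := by exact_mod_cast hpq
  have hA : ALE X₁ (KC p q) := by
    refine hUPI (ZMod p) (KC p q) (n + 1) p (by omega) (by nlinarith) hcl V₁ X₁ c' hc1.le hU' ?_
    rw [hp] at hn
    exact_mod_cast hn
  have hhom : HomTo (KC p q) (⊤ : SimpleGraph (Fin m)) := by
    obtain ⟨φ, hφ⟩ := hKHOM p q m 1 (by omega) one_pos (by omega)
    obtain ⟨e⟩ : Nonempty (ZMod m ≃ Fin m) := ⟨Fintype.equivOfCardEq (by rw [ZMod.card]; simp)⟩
    exact ⟨fun x => e (φ x), fun a b hab h => (hφ a b hab).1 (e.injective h)⟩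
  have hlt : max ((p : ℝ) / q) 2 < m := by
    refine max_lt ?_ (by linarith)
    rw [div_lt_iff₀ hq0]
    linarith
  obtain ⟨c₂, h3, h4⟩ := exists_between hlt
  have h5 : (p : ℝ) / q < c₂ := lt_of_le_of_lt (le_max_left _ _) h3
  have h6 : 2 < c₂ := lt_of_le_of_lt (le_max_right _ _) h3
  have hUni := hFIC (ZMod p) (Fin m) (KC p q) ⊤ hhom ((p : ℝ) / q) c₂
    (int_upW _ (hKUP p q (by omega) (by nlinarith)))
    (fun h => absurd (int_top m (by linarith) h) (by linarith)) h5 h6
  intro P _ r hr ht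
  obtain ⟨φ, k1, k2⟩ := hUni P r hr ht
  exact ⟨φ, k1, fun a => ⟨hREL2 _ _ _ _ _ _ hA (k2 a).1, hREL2 _ _ _ _ _ _ (k2 a).2 hX⟩⟩

end Pool.Agent.Helper14.FO
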