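import Pool.Agent.Helper14.FO.CONM
import Pool.Agent.Helper14.FO.INT
import Pool.Agent.Helper14.FO.ODD
import Pool.Agent.Helper25.FO.MON
import Pool.Agent.Helper88.FO.SCL
import Pool.Agent.Helper7.FO.SDP

/-! Pairs of graphs separated at every point of the asymptotic spectrum. -/

set_option autoImplicit false

namespace Pool.Agent.Helper14.FO

open Finset

theorem stri_alt (a : ℕ → ℝ) (m : ℕ) :
    ∑ k ∈ range m, (-1 : ℝ) ^ k * (a k + a (k + 1)) = a 0 - (-1) ^ m * a m := by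
  induction m with
  | zero => simp
  | succ m ih =>
    rw [Finset.sum_range_succ, ih, pow_succ]
    ring

/-- odd cycles -/
theorem stri_odd {W : Type} (Z : SimpleGraph W) (n : ℕ) (φ : ZMod (2 * n + 3) → W)
    (hφ : ∀ i, Z.Adj (φ i) (φ (i + 1))) (θ : ℝ) (h : UpT Z θ) :
    2 + 2 / ((2 * n + 3 : ℕ) : ℝ) ^ 2 ≤ θ := by
  obtain ⟨d, v, h1, h2⟩ := h
  obtain ⟨m, hm⟩ : ∃ m, m = 2 * n + 3 := ⟨_, rfl⟩
  rw [← hm]
  have hmR : (0 : ℝ) < m := by
    rw [hm]
    positivity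
  have hodd : Odd m := ⟨n + 1, by omega⟩
  obtain ⟨a, ha⟩ : ∃ a : ℕ → W, a = fun k : ℕ => φ (k : ZMod (2 * n + 3)) := ⟨_, rfl⟩
  have hadj : ∀ k, Z.Adj (a k) (a (k + 1)) := by
    intro k
    have := hφ (k : ZMod (2 * n + 3))
    rw [ha]
    dsimp only
    rw [Nat.cast_succ]
    exact this
  have ham : a m = a 0 := by
    rw [ha]
    dsimp only
    rw [hm, ZMod.natCast_self, Nat.cast_zero]
  have h3 : ∀ k, ∑ i, (v (a k) i + v (a (k + 1)) i) ^ 2 = 2 * (θ - 2) := by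
    intro k
    have e : ∀ i, (v (a k) i + v (a (k + 1)) i) ^ 2 =
        v (a k) i ^ 2 + v (a (k + 1)) i ^ 2 + 2 * (v (a k) i * v (a (k + 1)) i) := by
      intro i; ring
    rw [Finset.sum_congr rfl fun i _ => e i, Finset.sum_add_distrib, Finset.sum_add_distrib,
      ← Finset.mul_sum, h1, h1, h2 _ _ (hadj k)]
    ring
  have h4 : ∀ i, (2 * v (a 0) i) ^ 2 ≤ m * ∑ k ∈ range m, (v (a k) i + v (a (k + 1)) i) ^ 2 := by
    intro i
    have e1 := stri_alt (fun k => v (a k) i) m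
    rw [hodd.neg_one_pow, ham] at e1
    have e2 : 2 * v (a 0) i = ∑ k ∈ range m, (-1 : ℝ) ^ k * (v (a k) i + v (a (k + 1)) i) := by
      rw [e1]
      ring
    have e3 := sq_sum_le_card_mul_sum_sq (s := range m)
      (f := fun k => (-1 : ℝ) ^ k * (v (a k) i + v (a (k + 1)) i))
    rw [← e2, Finset.card_range] at e3
    refine e3.trans (le_of_eq ?_)
    congr 1
    refine Finset.sum_congr rfl fun k _ => ?_
    rw [mul_pow, ← pow_mul, mul_comm k 2, pow_mul]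
    norm_num
  have h5 : ∑ i, (2 * v (a 0) i) ^ 2 ≤
      ∑ i, (m : ℝ) * ∑ k ∈ range m, (v (a k) i + v (a (k + 1)) i) ^ 2 :=
    Finset.sum_le_sum fun i _ => h4 i
  have h6 : ∑ i, (2 * v (a 0) i) ^ 2 = 4 * (θ - 1) := by
    have e : ∀ i, (2 * v (a 0) i) ^ 2 = 4 * v (a 0) i ^ 2 := by intro i; ring
    rw [Finset.sum_congr rfl fun i _ => e i, ← Finset.mul_sum, h1]
  have h7 : ∑ i, (m : ℝ) * ∑ k ∈ range m, (v (a k) i + v (a (k + 1)) i) ^ 2 =
      m * (m * (2 * (θ - 2))) := by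
    rw [← Finset.mul_sum, Finset.sum_comm, Finset.sum_congr rfl fun k _ => h3 k,
      Finset.sum_const, Finset.card_range, nsmul_eq_mul]
  rw [h6, h7] at h5
  have h8 : 0 ≤ θ - 2 := by
    have := h3 0
    have h9 : 0 ≤ ∑ i, (v (a 0) i + v (a (0 + 1)) i) ^ 2 :=
      Finset.sum_nonneg fun i _ => sq_nonneg _
    linarith
  have h10 : 2 / (m : ℝ) ^ 2 ≤ θ - 2 := by
    rw [div_le_iff₀ (by positivity)]
    nlinarith
  linarith

/-- disjoint union -/
def SumG {V W : Type} (X : SimpleGraph V) (Y : SimpleGraph W) : SimpleGraph (V ⊕ W) where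
  Adj a b := (∃ x y, a = Sum.inl x ∧ b = Sum.inl y ∧ X.Adj x y) ∨
    ∃ x y, a = Sum.inr x ∧ b = Sum.inr y ∧ Y.Adj x y
  symm := ⟨fun _ _ h => by
    rcases h with ⟨x, y, h1, h2, h3⟩ | ⟨x, y, h1, h2, h3⟩
    · exact Or.inl ⟨y, x, h2, h1, h3.symm⟩
    · exact Or.inr ⟨y, x, h2, h1, h3.symm⟩⟩
  loopless := ⟨fun _ h => by
    rcases h with ⟨x, y, h1, h2, h3⟩ | ⟨x, y, h1, h2, h3⟩
    · rw [h1] at h2
      rw [Sum.inl.inj h2] at h3
      exact X.loopless.irrefl _ h3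
    · rw [h1] at h2
      rw [Sum.inr.inj h2] at h3
      exact Y.loopless.irrefl _ h3⟩

/-- a graph slightly above a non-bipartite graph with a larger Lovász number -/
theorem stri_above {V : Type} [Fintype V] (X : SimpleGraph V) (hX : ¬ X.Colorable 2) (κ : ℝ)
    (hκ : 1 < κ) : ∃ (U : Type) (_ : Fintype U) (Z : SimpleGraph U) (θ₁ c : ℝ), HomTo X Z ∧
      FrH Z X κ ∧ UpT X θ₁ ∧ ¬ UpT Z c ∧ θ₁ < c ∧ 2 < c := by
  classical
  obtain ⟨n, φ, hφ⟩ := st_ODD V X hX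
  obtain ⟨θa, _, _, _, hθa, _⟩ := st_MON2 V X
  obtain ⟨S, hS⟩ : ∃ S : Set ℝ, S = {θ | UpT X θ} := ⟨_, rfl⟩
  have hSne : S.Nonempty := ⟨θa, by rw [hS]; exact hθa⟩
  obtain ⟨η, hη⟩ : ∃ η : ℝ, η = 2 / ((2 * n + 3 : ℕ) : ℝ) ^ 2 := ⟨_, rfl⟩
  have hη0 : 0 < η := by rw [hη]; positivity
  have hSb : ∀ θ ∈ S, 2 + η ≤ θ := by
    intro θ hθ
    rw [hS] at hθ
    rw [hη]
    exact stri_odd X n φ hφ θ hθ
  have hBdd : BddBelow S := ⟨2 + η, hSb⟩
  obtain ⟨τ, hτ⟩ : ∃ τ, τ = sInf S - 1 := ⟨_, rfl⟩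
  have hτ1 : 1 + η ≤ τ := by
    have := le_csInf hSne hSb
    rw [hτ]
    linarith
  have hτ0 : 0 < τ := by linarith
  -- the parameter
  obtain ⟨δ, hδ0, hδ1, hδ2, hδ3⟩ : ∃ δ : ℝ, 0 < δ ∧ 1 ≤ κ * (1 - 2 * δ) ∧ δ * τ ≤ 1 / 4 ∧
      δ ≤ 1 - 1 / τ := by
    refine ⟨min (min ((1 - 1 / κ) / 2) (1 / (4 * τ))) (1 - 1 / τ), ?_, ?_, ?_, min_le_right _ _⟩
    · refine lt_min (lt_min ?_ (by positivity)) ?_
      · have : 1 / κ < 1 := by rw [div_lt_one (by linarith)]; exact hκ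
        linarith
      · have : 1 / τ < 1 := by rw [div_lt_one hτ0]; linarith
        linarith
    · have h1 : min (min ((1 - 1 / κ) / 2) (1 / (4 * τ))) (1 - 1 / τ) ≤ (1 - 1 / κ) / 2 :=
        (min_le_left _ _).trans (min_le_left _ _)
      have h2 : κ * (1 / κ) = 1 := by field_simp
      nlinarith
    · have h1 : min (min ((1 - 1 / κ) / 2) (1 / (4 * τ))) (1 - 1 / τ) ≤ 1 / (4 * τ) :=
        (min_le_left _ _).trans (min_le_right _ _)
      calc _ ≤ 1 / (4 * τ) * τ := mul_le_mul_of_nonneg_right h1 hτ0.le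
        _ = 1 / 4 := by field_simp
  have hδ4 : δ ≤ 1 / 4 := by nlinarith
  -- the lower approximation
  obtain ⟨t, ht⟩ : ∃ t, t = τ * (1 - δ / 4) := ⟨_, rfl⟩
  have ht1 : 1 < t := by
    have h1 : τ * (1 / τ) = 1 := by field_simp
    have h2 : δ * τ ≤ (1 - 1 / τ) * τ := mul_le_mul_of_nonneg_right hδ3 hτ0.le
    rw [ht]
    nlinarith
  have ht2 : t < τ := by rw [ht]; nlinarith
  have hnot : ¬ UpT X (1 + t) := by
    intro h
    have h1 : 1 + t ∈ S := by rw [hS]; exact h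
    have h2 := csInf_le hBdd h1
    linarith
  obtain ⟨B, b1, b2, b3, b4, b5⟩ := st_SDP V X (1 + t) (by linarith) hnot
  obtain ⟨Y, M, hM0, hM1, hFC, hcM, ψ, hψ⟩ := st_SCL V X (1 + t) B (by linarith) b1 b2 b3 b4 b5
  have hMt : M * t ≤ 1 := by
    have h1 : t ≤ 1 / M := by linarith
    rw [le_div_iff₀ hM0] at h1
    linarith
  -- the upper values
  obtain ⟨τ₁, hτ₁⟩ : ∃ τ₁, τ₁ = τ * (1 + δ / 2) := ⟨_, rfl⟩
  have hτ₁0 : 0 < τ₁ := by rw [hτ₁]; positivity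
  have hττ₁ : τ < τ₁ := by rw [hτ₁]; nlinarith
  obtain ⟨θ₁, hθ₁S, hθ₁⟩ := exists_lt_of_csInf_lt hSne (show sInf S < 1 + τ₁ by linarith)
  have hθ₁' : UpT X θ₁ := by rw [hS] at hθ₁S; exact hθ₁S
  have hθ₁2 := hSb θ₁ hθ₁S
  have hkey1 : (1 - 2 * δ) * M < 1 / τ₁ * (1 - δ) := by
    rw [div_mul_eq_mul_div, one_mul, lt_div_iff₀ hτ₁0]
    have h1 : (1 - 2 * δ) * τ₁ < (1 - δ) * t := by
      have e : (1 - δ) * t - (1 - 2 * δ) * τ₁ = τ * (δ / 4 + 5 / 4 * δ ^ 2) := by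
        rw [ht, hτ₁]; ring
      have e2 : 0 < τ * (δ / 4 + 5 / 4 * δ ^ 2) := by positivity
      linarith
    have h2 : M * ((1 - 2 * δ) * τ₁) < M * ((1 - δ) * t) := mul_lt_mul_of_pos_left h1 hM0
    have h3 : (1 - δ) * (M * t) ≤ (1 - δ) * 1 := mul_le_mul_of_nonneg_left hMt (by linarith)
    calc (1 - 2 * δ) * M * τ₁ = M * ((1 - 2 * δ) * τ₁) := by ring
      _ < M * ((1 - δ) * t) := h2
      _ = (1 - δ) * (M * t) := by ring
      _ ≤ 1 - δ := by linarith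
  have hkey2 : δ < 1 / τ₁ * (1 - δ) := by
    rw [div_mul_eq_mul_div, one_mul, lt_div_iff₀ hτ₁0, hτ₁]
    nlinarith
  have hM'1 : 1 / τ₁ ≤ 1 := by
    rw [div_le_one hτ₁0]
    linarith
  obtain ⟨U, iU, Q, N, g, hN1, hg, hdom, hup⟩ := con_main Y M hFC δ (1 / τ₁) hδ0 (by linarith)
    hkey1 hkey2 hM'1
  have hNR : (0 : ℝ) < N := by exact_mod_cast hN1
  refine ⟨V ⊕ U, inferInstance, SumG X Q, θ₁, (θ₁ + (1 + τ₁)) / 2, ⟨Sum.inl, fun a b hab =>
    Or.inl ⟨a, b, rfl, rfl, hab⟩⟩, ?_, hθ₁', ?_, by linarith, by linarith⟩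
  · refine ⟨Fin N, inferInstance, ⟨⟨0, hN1⟩⟩, fun j z => Sum.elim (fun x => some x)
      (fun u => (g j u).map ψ) z, ?_, ?_⟩
    · intro j a b x y hab hx hy
      rcases hab with ⟨x', y', rfl, rfl, h3⟩ | ⟨x', y', rfl, rfl, h3⟩
      · simp only [Sum.elim_inl, Option.some.injEq] at hx hy
        rw [← hx, ← hy]
        exact h3
      · simp only [Sum.elim_inr, Option.map_eq_some_iff] at hx hy
        obtain ⟨x1, hx1, rfl⟩ := hx
        obtain ⟨y1, hy1, rfl⟩ := hy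
        exact hψ _ _ (hg j _ _ _ _ h3 hx1 hy1)
    · rintro (x | u)
      · have : (univ.filter fun j : Fin N => ((Sum.elim (fun x => some x)
            (fun u => (g j u).map ψ) (Sum.inl x : V ⊕ U)) : Option V).isSome = true) = univ := by
          rw [Finset.filter_true_of_mem]
          intro j _
          rfl
        rw [this, Finset.card_univ]
        have h1 : (0 : ℝ) ≤ Fintype.card (Fin N) := Nat.cast_nonneg _
        nlinarith
      · have : (univ.filter fun j : Fin N => ((Sum.elim (fun x => some x)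
            (fun u => (g j u).map ψ) (Sum.inr u : V ⊕ U)) : Option V).isSome = true) =
            univ.filter fun j : Fin N => (g j u).isSome = true := by
          apply Finset.filter_congr
          intro j _
          simp
        rw [this, Fintype.card_fin]
        have h1 := hdom u
        have h2 := mul_le_mul_of_nonneg_left h1 (by linarith : (0 : ℝ) ≤ κ)
        nlinarith
  · intro h
    have h1 : UpT Q ((θ₁ + (1 + τ₁)) / 2) :=
      (st_MON1 U (V ⊕ U) Q (SumG X Q) ⟨Sum.inr, fun a b hab =>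
        Or.inr ⟨a, b, rfl, rfl, hab⟩⟩).1 _ h
    have h2 := hup _ h1
    rw [one_div_one_div] at h2
    linarith

/-- strictly separated pairs -/
theorem strict_main (hREL2 : ST_REL2) (hFIT : ST_FIT) {V₁ V₂ : Type} [Fintype V₁] [Fintype V₂]
    (X₁ : SimpleGraph V₁) (X₂ : SimpleGraph V₂) (hX : ¬ X₁.Colorable 2) (p q : ℕ) (hq : 0 < q)
    (hpq : q < p) (h : ALE (OrT p X₁) (OrT q X₂)) : Uni X₁ X₂ := by
  classical
  have hqR : (0 : ℝ) < q := by exact_mod_cast hq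
  have hpqR : (q : ℝ) < p := by exact_mod_cast hpq
  obtain ⟨κ, hκ1, hκ2⟩ := exists_between (show (1 : ℝ) < p / q by rw [one_lt_div hqR]; exact hpqR)
  rw [lt_div_iff₀ hqR] at hκ2
  obtain ⟨U, iU, Z, θ₁, c, h1, h2, h3, h4, h5, h6⟩ := stri_above X₁ hX κ hκ1
  have hZ : ALE Z X₂ := frh_main Z X₁ X₂ p q κ hq hκ1.le hκ2 h h2
  have hU := hFIT V₁ U X₁ Z h1 θ₁ c h3 h4 h5 h6
  intro P _ r hr ht
  obtain ⟨φ, k1, k2⟩ := hU P r hr ht
  exact ⟨φ, k1, fun a => ⟨(k2 a).1, hREL2 _ _ _ _ _ _ (k2 a).2 hZ⟩⟩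

/-- a clique of a power larger than the fractional chromatic number allows -/
theorem strict_clique (hUPI : ST_UPI) {V₁ V₂ : Type} [Fintype V₁] (X₁ : SimpleGraph V₁)
    (X₂ : SimpleGraph V₂) (c : ℝ) (hc : 1 ≤ c) (hU : UpC X₁ c) (N K : ℕ) (hN : 1 ≤ N)
    (hcl : PowClique X₂ N K) (hlt : c ^ N < K) : ∃ p q : ℕ, 0 < q ∧ q < p ∧
      ALE (OrT p X₁) (OrT q X₂) := by
  classical
  have hc0 : 0 < c := by linarith
  have hcN : 0 < c ^ N := pow_pos hc0 N
  -- the ratio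
  obtain ⟨q, hq⟩ := exists_nat_gt ((N : ℝ) * 2 ^ N * c ^ N / (K - c ^ N))
  have hKc : 0 < (K : ℝ) - c ^ N := by linarith
  have hqR : (0 : ℝ) < q := lt_of_le_of_lt (by positivity) hq
  have hq0 : 0 < q := by exact_mod_cast hqR
  have hNR : (1 : ℝ) ≤ N := by exact_mod_cast hN
  rw [div_lt_iff₀ hKc] at hq
  have hpow : ((q : ℝ) + 1) ^ N ≤ q ^ N + N * 2 ^ N * q ^ (N - 1) := by
    have h1 : ((q : ℝ) + 1) ^ N - q ^ N ≤ N * (q + 1) ^ (N - 1) := by
      have h2 : ((q : ℝ) + 1) ^ N - q ^ N =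
          ((q + 1) - q) * ∑ i ∈ range N, ((q : ℝ) + 1) ^ i * q ^ (N - 1 - i) :=
        (Commute.all _ _).mul_geom_sum₂ N |>.symm
      rw [h2, add_sub_cancel_left, one_mul]
      calc ∑ i ∈ range N, ((q : ℝ) + 1) ^ i * q ^ (N - 1 - i)
          ≤ ∑ i ∈ range N, ((q : ℝ) + 1) ^ (N - 1) := by
            refine Finset.sum_le_sum fun i hi => ?_
            have hi' := Finset.mem_range.1 hi
            calc ((q : ℝ) + 1) ^ i * q ^ (N - 1 - i) ≤ ((q : ℝ) + 1) ^ i * (q + 1) ^ (N - 1 - i) := by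
                  apply mul_le_mul_of_nonneg_left _ (by positivity)
                  exact pow_le_pow_left₀ hqR.le (by linarith) _
              _ = ((q : ℝ) + 1) ^ (N - 1) := by
                  rw [← pow_add]
                  congr 1
                  omega
        _ = N * (q + 1) ^ (N - 1) := by rw [Finset.sum_const, Finset.card_range, nsmul_eq_mul]
    have h3 : ((q : ℝ) + 1) ^ (N - 1) ≤ 2 ^ N * q ^ (N - 1) := by
      have h4 : (1 : ℝ) ≤ q := by exact_mod_cast hq0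
      calc ((q : ℝ) + 1) ^ (N - 1) ≤ (2 * q) ^ (N - 1) :=
            pow_le_pow_left₀ (by positivity) (by linarith) _
        _ = 2 ^ (N - 1) * q ^ (N - 1) := mul_pow _ _ _
        _ ≤ 2 ^ N * q ^ (N - 1) := by
            apply mul_le_mul_of_nonneg_right _ (by positivity)
            exact pow_le_pow_right₀ one_le_two (by omega)
    nlinarith
  have hmain : (((q + 1 : ℕ) : ℝ) * c) ^ N < ((q ^ N * K : ℕ) : ℝ) := by
    push_cast
    rw [mul_pow]
    have h1 : (0 : ℝ) < q ^ (N - 1) := by positivity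
    have h2 : (q : ℝ) ^ N = q ^ (N - 1) * q := by
      rw [← pow_succ]
      congr 1
      omega
    calc ((q : ℝ) + 1) ^ N * c ^ N ≤ (q ^ N + N * 2 ^ N * q ^ (N - 1)) * c ^ N :=
          mul_le_mul_of_nonneg_right hpow hcN.le
      _ = q ^ N * c ^ N + q ^ (N - 1) * (N * 2 ^ N * c ^ N) := by ring
      _ < q ^ N * c ^ N + q ^ (N - 1) * (q * (K - c ^ N)) := by
          have := mul_lt_mul_of_pos_left hq h1
          linarith
      _ = q ^ N * K := by rw [h2]; ring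
  refine ⟨q + 1, q, hq0, Nat.lt_succ_self q, ?_⟩
  refine hUPI (Fin q × V₂) (OrT q X₂) N (q ^ N * K) hN ?_ ?_ (Fin (q + 1) × V₁) (OrT (q + 1) X₁)
    (((q + 1 : ℕ) : ℝ) * c) ?_ ?_ hmain
  · have h1 : (1 : ℝ) < ((q ^ N * K : ℕ) : ℝ) := by
      refine lt_of_le_of_lt ?_ hmain
      apply one_le_pow₀
      push_cast
      nlinarith
    have h2 : 1 < q ^ N * K := by exact_mod_cast h1
    omega
  · obtain ⟨F, hF⟩ := hcl
    obtain ⟨e⟩ : Nonempty (Fin (q ^ N * K) ≃ (Fin N → Fin q) × Fin K) :=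
      ⟨Fintype.equivOfCardEq (by
        rw [Fintype.card_prod, Fintype.card_fun, Fintype.card_fin, Fintype.card_fin,
          Fintype.card_fin, Fintype.card_fin])⟩
    refine ⟨fun a i => ((e a).1 i, F (e a).2 i), ?_⟩
    intro a b hab
    by_cases h : (e a).2 = (e b).2
    · have h' : (e a).1 ≠ (e b).1 := fun h' => hab (e.injective (Prod.ext h' h))
      obtain ⟨i, hi⟩ := Function.ne_iff.1 h'
      exact ⟨i, Or.inl hi⟩
    · obtain ⟨i, hi⟩ := hF _ _ h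
      exact ⟨i, Or.inr hi⟩
  · push_cast
    nlinarith
  · obtain ⟨J, iJ, nJ, I, hI, hcard⟩ := hU
    refine ⟨Fin (q + 1) × J, inferInstance, inferInstance,
      fun j => {z | z.1 = j.1 ∧ z.2 ∈ I j.2}, ?_, ?_⟩
    · rintro j x ⟨hx1, hx2⟩ y ⟨hy1, hy2⟩ hxy
      rcases hxy with h | h
      · exact h (hx1.trans hy1.symm)
      · exact hI _ _ hx2 _ hy2 h
    · rintro ⟨i, y⟩
      have h1 : (Set.ncard {j : Fin (q + 1) × J | (i, y) ∈ {z : Fin (q + 1) × V₁ |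
          z.1 = j.1 ∧ z.2 ∈ I j.2}} : ℝ) = (Set.ncard {j | y ∈ I j} : ℝ) := by
        congr 1
        have : {j : Fin (q + 1) × J | (i, y) ∈ {z : Fin (q + 1) × V₁ |
            z.1 = j.1 ∧ z.2 ∈ I j.2}} = (fun j => (i, j)) '' {j | y ∈ I j} := by
          ext ⟨i', j⟩
          simp only [Set.mem_ofPred_eq, Set.mem_image, Prod.mk.injEq]
          constructor
          · rintro ⟨rfl, h⟩
            exact ⟨j, h, rfl, rfl⟩
          · rintro ⟨j', h, rfl, rfl⟩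
            exact ⟨rfl, h⟩
        rw [this]
        exact Set.ncard_image_of_injective _ (Prod.mk_right_injective i)
      rw [h1, Fintype.card_prod, Fintype.card_fin]
      push_cast
      have h2 := hcard y
      calc ((q : ℝ) + 1) * Fintype.card J ≤ (q + 1) * (c * (Set.ncard {j | y ∈ I j} : ℝ)) :=
            mul_le_mul_of_nonneg_left h2 (by positivity)
        _ = _ := by ring

end Pool.Agent.Helper14.FO
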