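import Pool.Agent.Helper14.FO.Defs

/-!
# MP_190084_co: intervals detected by the fractional clique cover number or the Lovász number

Definitions and module statements, part 2 (all graphs here are COMPLEMENTS of the graphs of the
problem). Everything is weighted: `ρ` is a probability distribution on the vertices.
-/

set_option autoImplicit false

namespace Pool.Agent.Helper14.FO

open Finset

/-! ## Certificates with weights -/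

/-- lower bound `θ` for the Lovász number of the complement, with respect to the weights `ρ` -/
def LowTw {V : Type} [Fintype V] (X : SimpleGraph V) (ρ : V → ℝ) (θ : ℝ) : Prop :=
  ∃ (d : ℕ) (g : V → Fin d → ℝ) (h : Fin d → ℝ), (∀ x, ∑ i, g x i ^ 2 = 1) ∧
    (∑ i, h i ^ 2 = 1) ∧ (∀ x y, x ≠ y → ¬ X.Adj x y → ∑ i, g x i * g y i = 0) ∧
    ∀ x, θ * ρ x ≤ (∑ i, g x i * h i) ^ 2

/-- lower bound `χ` for the fractional chromatic number, with respect to the weights `ρ` -/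
def LowCw {V : Type} (X : SimpleGraph V) (ρ : V → ℝ) (χ : ℝ) : Prop :=
  ∀ S : Finset V, Ind X S → χ * ∑ x ∈ S, ρ x ≤ 1

/-- upper bound `χ` for the fractional chromatic number: a random independent set containing
every vertex with probability at least `1 / χ` -/
def UpW {W : Type} (Y : SimpleGraph W) (χ : ℝ) : Prop :=
  ∃ (J : Type) (_ : Fintype J) (p : J → ℝ) (I : J → W → Bool), (∀ j, 0 ≤ p j) ∧ ∑ j, p j = 1 ∧
    (∀ j x y, I j x = true → I j y = true → ¬ Y.Adj x y) ∧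
    ∀ y, 1 ≤ χ * ∑ j, if I j y = true then p j else 0

/-- expansion: `c ρ(I) ≤ ρ(N[I])` for independent sets `I` -/
def XP {V : Type} (X : SimpleGraph V) (ρ : V → ℝ) (c : ℝ) : Prop :=
  ∀ I : Finset V, Ind X I → ∀ N : Finset V, (∀ x, x ∈ N ↔ x ∈ I ∨ ∃ a ∈ I, X.Adj a x) →
    c * ∑ x ∈ I, ρ x ≤ ∑ x ∈ N, ρ x

/-- symmetric matrix with row sums `ρ` and `-M ρ ≤ E ≤ ρ` as quadratic forms -/
def FM {V : Type} [Fintype V] (ρ : V → ℝ) (E : V → V → ℝ) (M : ℝ) : Prop :=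
  (∀ x y, E x y = E y x) ∧ (∀ x, ∑ y, E x y = ρ x) ∧
  (∀ f : V → ℝ, 0 ≤ ∑ x, ∑ y, E x y * f x * f y + M * ∑ x, ρ x * f x ^ 2) ∧
  ∀ f : V → ℝ, ∑ x, ∑ y, E x y * f x * f y ≤ ∑ x, ρ x * f x ^ 2

/-- spectral certificate with weights `ρ` -/
def FC {V : Type} [Fintype V] (X : SimpleGraph V) (ρ : V → ℝ) (M : ℝ) : Prop :=
  ∃ E : V → V → ℝ, (∀ x y, ¬ X.Adj x y → E x y = 0) ∧ FM ρ E M

/-- product weights -/
def PW {V W : Type} (φ : V → ℝ) (ψ : W → ℝ) : V × W → ℝ := fun z => φ z.1 * ψ z.2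

/-- uniform weights -/
noncomputable def UW (V : Type) [Fintype V] : V → ℝ := fun _ => 1 / (Fintype.card V : ℝ)

def HomTo {V W : Type} (X : SimpleGraph V) (Y : SimpleGraph W) : Prop :=
  ∃ φ : V → W, ∀ a b, X.Adj a b → Y.Adj (φ a) (φ b)

/-- weighted finite graph -/
structure GW where
  V : Type
  [fin : Fintype V]
  [dec : DecidableEq V]
  X : SimpleGraph V
  ρ : V → ℝ
  pos : ∀ x, 0 < ρ x
  one : ∑ x, ρ x = 1

attribute [instance] GW.fin GW.dec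

/-- node: weighted graph with its two upper bounds and its two lower bounds -/
structure Nd extends GW where
  θ : ℝ
  χ : ℝ
  c : ℝ
  upT : UpT toGW.X θ
  upW : UpW toGW.X χ
  lowT : LowTw toGW.X toGW.ρ θ
  lowC : LowCw toGW.X toGW.ρ c

/-- OR-product of a complete graph on `ZMod j` with `R` -/
def OrK {G : Type} (j : ℕ) (R : SimpleGraph G) : SimpleGraph (ZMod j × G) where
  Adj a b := a.1 ≠ b.1 ∨ R.Adj a.2 b.2
  symm := ⟨fun _ _ h => h.imp (fun h => h.symm) (fun h => h.symm)⟩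
  loopless := ⟨fun _ h => by
    rcases h with h | h
    · exact h rfl
    · exact R.loopless.irrefl _ h⟩

/-- translation invariant graph with independence ratio below `1 / C`, its spectral certificate
and the matching vector colouring -/
structure RD (C : ℕ) where
  G : Type
  [grp : AddCommGroup G]
  [fin : Fintype G]
  [dec : DecidableEq G]
  R : SimpleGraph G
  M : ℝ
  ti : TI R
  ind : ∀ I : Finset G, Ind R I → C * I.card < Fintype.card G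
  cert : Cert R M
  upt : UpT R (1 + 1 / M)
  lo : 0 < M
  hi : M < 1

attribute [instance] RD.grp RD.fin RD.dec

/-- the interval between the graphs with complements `X₁` and `X₂` is universal -/
def Uni {V W : Type} (X₁ : SimpleGraph V) (X₂ : SimpleGraph W) : Prop :=
  ∀ (P : Type) [Countable P] (r : P → P → Prop), (∀ a, r a a) →
  (∀ a b c, r a b → r b c → r a c) → ∃ φ : P → (Σ n : ℕ, SimpleGraph (Fin n)),
    (∀ a b, r a b ↔ ALE (φ a).2 (φ b).2) ∧ ∀ a, ALE X₁ (φ a).2 ∧ ALE (φ a).2 X₂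

/-! ## Module statements -/

/-- TR2: tree in convex position with small slopes -/
def ST_TR2 : Prop := ∀ x0 x1 y0 y1 κ : ℝ, x0 < x1 → y0 < y1 → 0 < κ →
  ∃ (tx ty : List Bool → ℝ) (η : ℕ → ℝ), (∀ l, 0 < η l) ∧
    (∀ w, x0 < tx w - η w.length ∧ tx w + η w.length < x1 ∧
      y0 < ty w - η w.length ∧ ty w + η w.length < y1) ∧
    (∀ w b, tx (b :: w) + η (w.length + 1) < tx w - η w.length ∧
      ty (b :: w) + η (w.length + 1) < ty w - η w.length) ∧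
    ∀ F H : List Bool → ℝ, (∀ w, |F w - tx w| < η w.length) → (∀ w, |H w - ty w| < η w.length) →
      ∀ a, ∃ l : ℝ, 0 ≤ l ∧ l ≤ κ ∧ ∀ b, ¬ b <:+ a → l * F b + H b < l * F a + H a

/-- IN2 -/
def ST_IN2 : Prop := ∀ (V : Type) [Fintype V] [DecidableEq V] (X : SimpleGraph V) (ρ : V → ℝ)
  (χ : ℝ), (∀ x, 0 ≤ ρ x) → 0 < χ → LowCw X ρ χ → ∀ (n : ℕ) (S : Finset (Fin n → V)),
    (∀ u ∈ S, ∀ v ∈ S, ∀ i, ¬ X.Adj (u i) (v i)) → χ ^ n * ∑ u ∈ S, ∏ i, ρ (u i) ≤ 1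

/-- CT2: Bessel inequality on a class -/
def ST_CT2 : Prop := ∀ (V : Type) [Fintype V] [DecidableEq V] (X : SimpleGraph V) (ρ : V → ℝ)
  (θa : ℝ), (∀ x, 0 ≤ ρ x) → 0 < θa → LowTw X ρ θa →
  ∀ (ι : Type) [Fintype ι] [DecidableEq ι] (W : ι → Type) (Y : ∀ i, SimpleGraph (W i))
    (θ : ι → ℝ), (∀ i, 0 < θ i) → (∀ i, UpT (Y i) (θ i)) →
  ∀ (n : ℕ) (U : Finset (Fin n → V)) (f : (Fin n → V) → (Fin n → Σ i, W i)) (T : ℝ), 0 ≤ T →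
    (∀ u ∈ U, ∀ v ∈ U, (∃ i, X.Adj (u i) (v i)) → ∃ i, (SigG Y).Adj (f u i) (f v i)) →
    (∀ u ∈ U, ∏ i, θ (f u i).1 ≤ T) → θa ^ n * ∑ u ∈ U, ∏ i, ρ (u i) ≤ T

/-- CC2: random independent sets on a class -/
def ST_CC2 : Prop := ∀ (V : Type) [Fintype V] [DecidableEq V] (X : SimpleGraph V) (ρ : V → ℝ)
  (χa : ℝ), (∀ x, 0 ≤ ρ x) → 0 < χa → LowCw X ρ χa →
  ∀ (ι : Type) [Fintype ι] [DecidableEq ι] (W : ι → Type) (Y : ∀ i, SimpleGraph (W i))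
    (χ : ι → ℝ), (∀ i, 0 < χ i) → (∀ i, UpW (Y i) (χ i)) →
  ∀ (n : ℕ) (U : Finset (Fin n → V)) (f : (Fin n → V) → (Fin n → Σ i, W i)) (T : ℝ), 0 ≤ T →
    (∀ u ∈ U, ∀ v ∈ U, (∃ i, X.Adj (u i) (v i)) → ∃ i, (SigG Y).Adj (f u i) (f v i)) →
    (∀ u ∈ U, ∏ i, χ (f u i).1 ≤ T) → χa ^ n * ∑ u ∈ U, ∏ i, ρ (u i) ≤ T

/-- CE2: the certificate theorem with weights -/
def ST_CE2 : Prop := ∀ (V : Type) [Fintype V] [DecidableEq V] (X : SimpleGraph V) (ρ : V → ℝ)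
    (θa χa : ℝ), (∀ x, 0 ≤ ρ x) → ∑ x, ρ x = 1 → 0 < θa → 0 < χa → LowTw X ρ θa → LowCw X ρ χa →
  ∀ (ι : Type) [Fintype ι] [DecidableEq ι] (W : ι → Type) (Y : ∀ i, SimpleGraph (W i))
    (θ χ : ι → ℝ), (∀ i, 0 < θ i) → (∀ i, 0 < χ i) → (∀ i, UpT (Y i) (θ i)) →
    (∀ i, UpW (Y i) (χ i)) → ALE X (SigG Y) → ∀ l μ : ℝ, 0 ≤ l → 0 ≤ μ →
    ∃ i, l * Real.log θa + μ * Real.log χa ≤ l * Real.log (θ i) + μ * Real.log (χ i)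

/-- MON: upper bounds are monotone, and every finite graph has some -/
def ST_MON1 : Prop := ∀ (V W : Type) (X : SimpleGraph V) (Y : SimpleGraph W), HomTo X Y →
  (∀ θ, UpT Y θ → UpT X θ) ∧ ∀ χ, UpW Y χ → UpW X χ
def ST_MON2 : Prop := ∀ (V : Type) [Fintype V] [DecidableEq V] (X : SimpleGraph V),
  ∃ θ χ : ℝ, 0 < θ ∧ 0 < χ ∧ UpT X θ ∧ UpW X χ

/-- TE2: tensor products of matrices and of certificates; monotonicity; uniform certificates -/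
def ST_TE2a : Prop := ∀ (V W : Type) [Fintype V] [Fintype W] (ρ : V → ℝ) (σ : W → ℝ)
  (E : V → V → ℝ) (F : W → W → ℝ) (M : ℝ), 0 ≤ M → M ≤ 1 → FM ρ E M → FM σ F M →
    FM (PW ρ σ) (fun a b => E a.1 b.1 * F a.2 b.2) M
def ST_TE2b : Prop := ∀ (V W : Type) [Fintype V] [Fintype W] (X : SimpleGraph V)
  (Y : SimpleGraph W) (ρ : V → ℝ) (σ : W → ℝ) (M : ℝ), 0 ≤ M → M ≤ 1 → FC X ρ M → FC Y σ M →
    FC (Ten X Y) (PW ρ σ) M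
def ST_TE2c : Prop := ∀ (V : Type) [Fintype V] (X : SimpleGraph V) (ρ : V → ℝ) (M M' : ℝ),
  (∀ x, 0 ≤ ρ x) → M ≤ M' → FC X ρ M → FC X ρ M'
def ST_TE2d : Prop := ∀ (V : Type) [Fintype V] [DecidableEq V] [Nonempty V] (X : SimpleGraph V)
  (M : ℝ), Cert X M → FC X (UW V) M

/-- GR2 -/
def ST_GR2 : Prop := ∀ (V : Type) [Fintype V] [DecidableEq V] (X : SimpleGraph V) (ρ : V → ℝ)
  (M : ℝ), 0 < M → (∀ x, 0 < ρ x) → ∑ x, ρ x = 1 → FC X ρ M → LowTw X ρ (1 + 1 / M)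

/-- XPF: expansion from the spectral certificate -/
def ST_XPF : Prop := ∀ (V : Type) [Fintype V] [DecidableEq V] (X : SimpleGraph V) (ρ : V → ℝ)
  (M : ℝ), 0 < M → (∀ x, 0 ≤ ρ x) → FC X ρ M → XP X ρ (1 + 1 / M)

/-- XPT: expansion in translation invariant graphs -/
def ST_XPT : Prop := ∀ (G : Type) [AddCommGroup G] [Fintype G] [DecidableEq G]
  (R : SimpleGraph G), TI R → ∀ c : ℝ, 0 ≤ c → (∀ I, Ind R I → c * I.card ≤ Fintype.card G) →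
    XP R (UW G) c

/-- ZHU: independent sets of tensor products -/
def ST_ZHU : Prop := ∀ (V W : Type) [Fintype V] [Fintype W] [DecidableEq V] [DecidableEq W]
  (X : SimpleGraph V) (Y : SimpleGraph W) (φ : V → ℝ) (ψ : W → ℝ) (c : ℝ), (∀ x, 0 ≤ φ x) →
  (∀ y, 0 ≤ ψ y) → ∑ x, φ x = 1 → ∑ y, ψ y = 1 → XP X φ c → XP Y ψ c →
    LowCw (Ten X Y) (PW φ ψ) c

/-- KR2 -/
def ST_KR2 : Prop := ∀ (N r : ℕ), 1 ≤ r → 3 * r ≤ N → ∀ S : Finset (Fin N), 2 ≤ S.card →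
  S.card + 2 ≤ N → |∑ T ∈ powersetCard r (univ : Finset (Fin N)), (-1 : ℝ) ^ (S ∩ T).card| ≤
    (N.choose r : ℝ) * (1 - 2 * (r : ℝ) / N)

/-- BC2 -/
def ST_BC2 : Prop := ∀ (N r : ℕ), 1 ≤ r → 3 * r ≤ N → Even (N - r) →
  Cert (BG N (N - r)) (1 - 2 * (r : ℝ) / N)

/-- DB2 -/
def ST_DB2 : Prop := ∀ a b δ : ℝ, 1 / 3 ≤ a → a < b → b ≤ 1 → 0 < δ →
  ∃ N r P : ℕ, P.Prime ∧ 2 < P ∧ N < 4 * P ∧ N - r = 2 * P ∧ 1 ≤ r ∧ 3 * r ≤ N ∧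
    a < 1 - 2 * (r : ℝ) / N ∧ 1 - 2 * (r : ℝ) / N < b ∧
    2 * ((∑ i ∈ range P, N.choose i : ℕ) : ℝ) ≤ δ * 2 ^ N

/-- ORK -/
def ST_ORK : Prop := ∀ (j C : ℕ) [NeZero j] (X : RD C), ∃ Y : RD C,
  1 + 1 / Y.M = j * (1 + 1 / X.M)

/-- RT2 and NX2 -/
def ST_RT2 : Prop := ∀ (C : ℕ) (a b : ℝ), 0 ≤ a → a < b → b ≤ 1 →
  ∃ X : RD C, a < X.M ∧ X.M < b
def ST_NX2 : Prop := ∀ (C : ℕ) (X : RD C) (a b : ℝ), X.M ≤ a → a < b → b ≤ 1 →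
  ∃ X' : RD C, a < X'.M ∧ X'.M < b ∧ HomTo X'.R X.R

/-- biased cube: weights and matrix -/
def CuW (t : ℝ) (N : ℕ) : (Fin N → Bool) → ℝ :=
  fun A => ∏ i, if A i = true then t else 1 - t
def CuE (t : ℝ) (N : ℕ) : (Fin N → Bool) → (Fin N → Bool) → ℝ :=
  fun A B => ∏ i, if A i = true then (if B i = true then 0 else t) else
    (if B i = true then t else 1 - 2 * t)
/-- number of ones -/
def CuN {N : ℕ} (A : Fin N → Bool) : ℕ := (univ.filter fun i => A i = true).card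

/-- CU1 -/
def ST_CU1 : Prop := ∀ (t : ℝ) (N : ℕ), 0 < t → t < 1 / 2 → FM (CuW t N) (CuE t N) (t / (1 - t))

/-- CU2: Chebyshev -/
def ST_CU2 : Prop := ∀ t δ ε : ℝ, 0 < t → t < 1 / 2 → 0 < δ → 0 < ε → ∃ N0 : ℕ, ∀ N, N0 ≤ N →
  ∀ A : Fin N → Bool, |(CuN A : ℝ) - t * N| ≤ δ * N →
    ∑ B ∈ univ.filter (fun B : Fin N → Bool => ¬ |(CuN B : ℝ) - t * N| ≤ δ * N),
      CuE t N A B ≤ ε * CuW t N A

/-- CUB -/
def ST_CUB : Prop := ∀ y0 y1 : ℝ, 2 < y0 → y0 < y1 → ∃ (C : GW) (M χ : ℝ), 0 < M ∧ M < 1 ∧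
  FC C.X C.ρ M ∧ y0 < 1 + 1 / M ∧ 1 + 1 / M < y1 ∧ UpW C.X χ ∧ y0 < χ ∧ χ < y1

/-- NDC: nodes for the fractional chromatic number -/
def ST_NDC : Prop := ∀ (Y : GW) (M c : ℝ), 0 < M → M < 1 → FC Y.X Y.ρ M → XP Y.X Y.ρ c →
  ∀ y0 y1 κ : ℝ, 2 < y0 → y0 < y1 → y1 ≤ c → 0 < κ → ∃ nd : List Bool → Nd,
    (∀ w, HomTo (nd w).X Y.X) ∧ (∀ w b, HomTo (nd (b :: w)).X (nd w).X) ∧
    (∀ w, 1 ≤ (nd w).θ ∧ y0 < (nd w).c ∧ y0 < (nd w).χ) ∧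
    ∀ a, ∃ l : ℝ, 0 ≤ l ∧ l ≤ κ ∧ ∀ b, ¬ b <:+ a →
      l * Real.log (nd b).θ + Real.log (nd b).χ < l * Real.log (nd a).θ + Real.log (nd a).c

/-- NDT: nodes for the Lovász number -/
def ST_NDT : Prop := ∀ (Y : GW) (M : ℝ), 0 < M → M < 1 → FC Y.X Y.ρ M →
  ∀ x0 x1 κ : ℝ, 2 < x0 → x0 < x1 → x1 ≤ 1 + 1 / M → 0 < κ → ∃ nd : List Bool → Nd,
    (∀ w, HomTo (nd w).X Y.X) ∧ (∀ w b, HomTo (nd (b :: w)).X (nd w).X) ∧
    (∀ w, 1 ≤ (nd w).c ∧ 1 ≤ (nd w).χ ∧ x0 < (nd w).θ) ∧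
    ∀ a, ∃ μ : ℝ, 0 ≤ μ ∧ μ ≤ κ ∧ ∀ b, ¬ b <:+ a →
      Real.log (nd b).θ + μ * Real.log (nd b).χ < Real.log (nd a).θ + μ * Real.log (nd a).c

/-- SAD: finite matrix games -/
def ST_SAD : Prop := ∀ (I J : Type) [Fintype I] [Fintype J] [Nonempty I] [Nonempty J]
  (A : I → J → ℝ), ∃ (p : I → ℝ) (q : J → ℝ) (v : ℝ), (∀ i, 0 ≤ p i) ∧ ∑ i, p i = 1 ∧
    (∀ j, 0 ≤ q j) ∧ ∑ j, q j = 1 ∧ (∀ j, v ≤ ∑ i, p i * A i j) ∧ ∀ i, ∑ j, A i j * q j ≤ v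

/-- VTX: optimal fractional clique -/
def ST_VTX : Prop := ∀ (V : Type) [Fintype V] [DecidableEq V] (X : SimpleGraph V) (c : ℝ),
  0 < c → ¬ UpW X c → ∃ (φ : V → ℝ) (c' : ℝ), c < c' ∧ (∀ x, 0 ≤ φ x) ∧ ∑ x, φ x = 1 ∧ XP X φ c'

/-- FAR: fractional perfect matchings -/
def ST_FAR : Prop := ∀ (V : Type) [Fintype V] [DecidableEq V] (X : SimpleGraph V) (φ : V → ℝ),
  (∀ x, 0 ≤ φ x) → XP X φ 2 → ∃ E : V → V → ℝ, (∀ x y, E x y = E y x) ∧ (∀ x y, 0 ≤ E x y) ∧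
    (∀ x y, ¬ X.Adj x y → E x y = 0) ∧ ∀ x, ∑ y, E x y = φ x

/-- GAP -/
def ST_GAP : Prop := ∀ (V : Type) [Fintype V] [DecidableEq V] (X : SimpleGraph V) (φ : V → ℝ)
  (c c' : ℝ), (∀ x, 0 ≤ φ x) → ∑ x, φ x = 1 → XP X φ c' → 2 < c → c < c' →
    ∃ (Y : GW) (M : ℝ), 0 < M ∧ M < 1 ∧ FC Y.X Y.ρ M ∧ XP Y.X Y.ρ c ∧ HomTo Y.X X

/-- SDP: duality for the Lovász number -/
def ST_SDP : Prop := ∀ (V : Type) [Fintype V] [DecidableEq V] (X : SimpleGraph V) (θ : ℝ),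
  1 < θ → ¬ UpT X θ → ∃ B : V → V → ℝ, (∀ x y, B x y = B y x) ∧
    (∀ f : V → ℝ, 0 ≤ ∑ x, ∑ y, B x y * f x * f y) ∧ (∀ x y, x ≠ y → ¬ X.Adj x y → B x y = 0) ∧
    ∑ x, B x x = 1 ∧ θ ≤ ∑ x, ∑ y, B x y

/-- SCL: an optimal matrix gives a certificate -/
def ST_SCL : Prop := ∀ (V : Type) [Fintype V] [DecidableEq V] (X : SimpleGraph V) (θ : ℝ)
  (B : V → V → ℝ), 2 < θ → (∀ x y, B x y = B y x) →
    (∀ f : V → ℝ, 0 ≤ ∑ x, ∑ y, B x y * f x * f y) → (∀ x y, x ≠ y → ¬ X.Adj x y → B x y = 0) →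
    ∑ x, B x x = 1 → θ ≤ ∑ x, ∑ y, B x y →
    ∃ (Y : GW) (M : ℝ), 0 < M ∧ M < 1 ∧ FC Y.X Y.ρ M ∧ θ ≤ 1 + 1 / M ∧ HomTo Y.X X

/-- ASM: nodes give universality -/
def ST_ASM : Prop := ∀ (V₁ V₂ : Type) [Fintype V₁] [Fintype V₂] [DecidableEq V₁]
  [DecidableEq V₂] (X₁ : SimpleGraph V₁) (X₂ : SimpleGraph V₂), HomTo X₁ X₂ →
  ∀ nd : List Bool → Nd, (∀ w, HomTo (nd w).X X₂) → (∀ w b, HomTo (nd (b :: w)).X (nd w).X) →
  (∀ w, 0 < (nd w).θ ∧ 0 < (nd w).χ ∧ 0 < (nd w).c) →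
  ∀ θ₁ χ₁ : ℝ, 0 < θ₁ → 0 < χ₁ → UpT X₁ θ₁ → UpW X₁ χ₁ →
  (∀ a, ∃ l μ : ℝ, 0 ≤ l ∧ 0 ≤ μ ∧
    l * Real.log θ₁ + μ * Real.log χ₁ < l * Real.log (nd a).θ + μ * Real.log (nd a).c ∧
    ∀ b, ¬ b <:+ a → l * Real.log (nd b).θ + μ * Real.log (nd b).χ <
      l * Real.log (nd a).θ + μ * Real.log (nd a).c) → Uni X₁ X₂

/-! ## The classical bounds of the problem's graphs -/

/-- values of the fractional clique covers of `G` -/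
def CliqueCovers {V : Type} [Fintype V] [DecidableEq V] (G : SimpleGraph V) : Set ℝ :=
  {c | ∃ w : Finset V → ℝ, (∀ K, 0 ≤ w K) ∧
    (∀ K, w K ≠ 0 → ∀ x ∈ K, ∀ y ∈ K, x ≠ y → G.Adj x y) ∧
    (∀ x, 1 ≤ ∑ K, if x ∈ K then w K else 0) ∧ ∑ K, w K = c}

/-- fractional clique cover number -/
noncomputable def fracCliqueCover {V : Type} [Fintype V] [DecidableEq V] (G : SimpleGraph V) : ℝ :=
  sInf (CliqueCovers G)

/-- values of the orthonormal representations of `G` -/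
def OrthReps {V : Type} (G : SimpleGraph V) : Set ℝ :=
  {t | 0 ≤ t ∧ ∃ (d : ℕ) (u : V → Fin d → ℝ) (c : Fin d → ℝ), (∀ x, ∑ i, u x i ^ 2 = 1) ∧
    ∑ i, c i ^ 2 = 1 ∧ (∀ x y, x ≠ y → ¬ G.Adj x y → ∑ i, u x i * u y i = 0) ∧
    ∀ x, 1 ≤ t * (∑ i, c i * u x i) ^ 2}

/-- Lovász theta number -/
noncomputable def lovaszTheta {V : Type} (G : SimpleGraph V) : ℝ := sInf (OrthReps G)

/-- CVC, CVT -/
def ST_CVC : Prop := ∀ (n : ℕ) (G : SimpleGraph (Fin n)) (c : ℝ),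
  (fracCliqueCover G < c → ∃ c₁, c₁ < c ∧ UpW Gᶜ c₁) ∧ (0 ≤ c → c < fracCliqueCover G → ¬ UpW Gᶜ c)
def ST_CVT : Prop := ∀ (n : ℕ) (G : SimpleGraph (Fin n)) (c : ℝ),
  (lovaszTheta G < c → ∃ c₁, c₁ < c ∧ UpT Gᶜ c₁) ∧ (0 ≤ c → c < lovaszTheta G → ¬ UpT Gᶜ c)

/-! ## Assembly -/

/-- FIC: gap of the fractional chromatic number -/
def ST_FIC : Prop := ∀ (V₁ V₂ : Type) [Fintype V₁] [Fintype V₂] [DecidableEq V₁]
  [DecidableEq V₂] (X₁ : SimpleGraph V₁) (X₂ : SimpleGraph V₂), HomTo X₁ X₂ →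
  ∀ χ₁ c : ℝ, UpW X₁ χ₁ → ¬ UpW X₂ c → χ₁ < c → 2 < c → Uni X₁ X₂

/-- FIT: gap of the Lovász number of the complement -/
def ST_FIT : Prop := ∀ (V₁ V₂ : Type) [Fintype V₁] [Fintype V₂] [DecidableEq V₁]
  [DecidableEq V₂] (X₁ : SimpleGraph V₁) (X₂ : SimpleGraph V₂), HomTo X₁ X₂ →
  ∀ θ₁ c : ℝ, UpT X₁ θ₁ → ¬ UpT X₂ c → θ₁ < c → 2 < c → Uni X₁ X₂

end Pool.Agent.Helper14.FO
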