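import Pool.Agent.Helper14.FO.All
import Pool.Agent.Helper14.FO.FIC
import Pool.Agent.Helper14.FO.FIT
import Pool.Agent.Helper14.FO.VTX
import Pool.Agent.Helper14.FO.STRI
import Pool.Agent.Helper2.FO.NX2
import Pool.Agent.Helper3.FO.CVT
import Pool.Agent.Helper3.FO.DB2
import Pool.Agent.Helper4.FO.NDT
import Pool.Agent.Helper24.FO.CC2
import Pool.Agent.Helper35.FO.FAR
import Pool.Agent.Helper38.FO.CU2
import Pool.Agent.Helper52.FO.CVC
import Pool.Agent.Helper54.FO.BC2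
import Pool.Agent.Helper54.FO.IN2
import Pool.Agent.Helper54.FO.XPT
import Pool.Agent.Helper58.FO.SAD
import Pool.Agent.Helper63.FO.TR2
import Pool.Agent.Helper67.FO.KR2
import Pool.Agent.Helper68.FO.NDC
import Pool.Agent.Helper71.FO.CT2
import Pool.Agent.Helper71.FO.GAP
import Pool.Agent.Helper72.FO.XPF
import Pool.Agent.Helper77.FO.CE2
import Pool.Agent.Helper79.FO.RT2
import Pool.Agent.Helper79.FO.ZHU
import Pool.Agent.Helper83.FO.ASM
import Pool.Agent.Helper88.FO.ORK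
import Pool.Agent.Helper91.FO.CUB
import Pool.Agent.Helper94.FO.CU1
import Pool.Agent.Helper94.FO.GR2

set_option autoImplicit false

namespace Pool.Agent.Helper14.FO

theorem a_CE2 : ST_CE2 := st_CE2 st_CT2 (st_CC2 st_IN2)

theorem a_ASM : ST_ASM := Pool.Agent.Helper83.FO.st_ASM st_REL1 st_REL2 a_CE2 st_UNI

theorem a_BC2 : ST_BC2 := st_BC2 st_KR2

theorem a_RT2 : ST_RT2 := st_RT2 a_BC2 st_FW st_VEC (st_DB2 st_TAIL) st_ORK

theorem a_NX2 : ST_NX2 := st_NX2 a_RT2 st_TEN st_PIG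

theorem a_XPT : ST_XPT := st_XPT st_EXP

theorem a_CUB : ST_CUB := st_CUB (st_CU1 st_TE2a) Pool.Agent.Helper38.FO.st_CU2

theorem a_NDC : ST_NDC :=
  st_NDC st_TR2 a_RT2 a_NX2 st_DENK st_SPC st_KHOM st_TEN st_TE2b st_TE2c st_TE2d st_GR2 st_ZHU
    a_XPT a_CCT st_KUP

theorem a_NDT : ST_NDT :=
  st_NDT st_TR2 a_RT2 a_NX2 st_TE2b st_TE2c st_TE2d st_GR2 st_XPF a_XPT st_ZHU a_CUB

theorem a_FIC : ST_FIC := st_FIC (st_VTX st_SAD) (st_GAP st_FAR) a_NDC st_MON2 a_ASM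

theorem a_FIT : ST_FIT := st_FIT st_SDP st_SCL a_NDT st_MON2 a_ASM

end Pool.Agent.Helper14.FO
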