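import Pool.Agent.Helper14.FO.Defs

set_option autoImplicit false

namespace Pool.Agent.Helper14.FO

open Finset

/-- a graph that is not 2-colourable has cliques larger than `2 ^ N` in its `N`-th OR-power -/
theorem bip_clique (hBH : ST_BH) (hODD : ST_ODD) {W : Type} (Z : SimpleGraph W)
    (hZ : ¬ Z.Colorable 2) : ∃ N : ℕ, 1 ≤ N ∧ PowClique Z N (2 ^ N + 1) := by
  obtain ⟨n, φ, hφ⟩ := hODD W Z hZ
  obtain ⟨F, hF⟩ := hBH n
  refine ⟨2 ^ n, Nat.one_le_two_pow, fun a i => φ (F a i), ?_⟩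
  intro a b hab
  obtain ⟨i, hi | hi⟩ := hF a b hab
  · refine ⟨i, ?_⟩
    have h : F a i = F b i + 1 := by rw [← hi]; ring
    have := hφ (F b i)
    rw [← h] at this
    exact this.symm
  · refine ⟨i, ?_⟩
    have h : F b i = F a i + 1 := by rw [← hi]; ring
    have := hφ (F a i)
    rw [← h] at this
    exact this

/-- cliques in powers transfer along the asymptotic preorder -/
theorem bip_count {V : Type} (X : SimpleGraph V) (N K m k : ℕ) (hX : PowClique X N K)
    (h : PowHom X (⊤ : SimpleGraph (Fin 2)) (N * m) k) : K ^ m ≤ k * 2 ^ (N * m) := by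
  obtain ⟨F, hF⟩ := hX
  obtain ⟨f, hf⟩ := h
  set U : (Fin m → Fin K) → (Fin (N * m) → V) := fun w t =>
    F (w (finProdFinEquiv.symm t).2) (finProdFinEquiv.symm t).1 with hU
  have hinj : Function.Injective (fun w => f (U w)) := by
    intro w w' hww
    by_contra hne
    obtain ⟨j, hj⟩ := Function.ne_iff.1 hne
    obtain ⟨i, hi⟩ := hF _ _ hj
    have hadj : ∃ t, X.Adj (U w t) (U w' t) := by
      refine ⟨finProdFinEquiv (i, j), ?_⟩
      rw [hU]
      simpa using hi
    have hww' : f (U w) = f (U w') := hww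
    rcases hf _ _ hadj with h1 | ⟨t, ht⟩
    · exact h1 (by rw [hww'])
    · rw [hww'] at ht
      exact (⊤ : SimpleGraph (Fin 2)).loopless.irrefl _ ht
  have := Fintype.card_le_of_injective _ hinj
  simpa using this

theorem bip_only (hBH : ST_BH) (hODD : ST_ODD) {V : Type} (X : SimpleGraph V)
    (h : ALE X (⊤ : SimpleGraph (Fin 2))) : X.Colorable 2 := by
  by_contra hc
  obtain ⟨N, hN, hK⟩ := bip_clique hBH hODD X hc
  obtain ⟨k, hk, hs, hf⟩ := h
  have hNr : (1 : ℝ) ≤ N := by exact_mod_cast hN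
  set q : ℝ := ((2 : ℝ) ^ N + 1) / 2 ^ N with hq
  have h2N : (0 : ℝ) < 2 ^ N := by positivity
  have hq1 : 1 < q := by
    rw [hq, one_lt_div h2N]; linarith
  have hlq : 0 < Real.log q := Real.log_pos hq1
  obtain ⟨n0, hn0⟩ := hs (Real.log q / (2 * N)) (by positivity)
  have hm : 1 ≤ n0 + 1 := by omega
  have hNm : 1 ≤ N * (n0 + 1) := Nat.one_le_iff_ne_zero.2 (by positivity)
  have c := bip_count X N (2 ^ N + 1) (n0 + 1) _ hK (hf (N * (n0 + 1)) hNm)
  have hb := hn0 (N * (n0 + 1)) (by nlinarith)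
  have c' : ((2 : ℝ) ^ N + 1) ^ (n0 + 1) ≤ k (N * (n0 + 1)) * 2 ^ (N * (n0 + 1)) := by
    exact_mod_cast c
  have c2 : q ^ (n0 + 1) ≤ k (N * (n0 + 1)) := by
    rw [hq, div_pow, div_le_iff₀ (by positivity), ← pow_mul]
    exact c'
  have c3 : q ^ (n0 + 1) = Real.exp (Real.log q * (n0 + 1 : ℕ)) := by
    rw [mul_comm, ← Real.log_pow, Real.exp_log (by positivity)]
  have c4 := c2.trans hb
  rw [c3, Real.exp_le_exp] at c4
  push_cast at c4
  have hn0r : (0 : ℝ) < (n0 : ℝ) + 1 := by positivity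
  have e : Real.log q / (2 * N) * (N * ((n0 : ℝ) + 1)) = Real.log q * (n0 + 1) / 2 := by
    field_simp
  rw [e] at c4
  nlinarith

theorem bip_iff (hREL : ST_REL1) (hBH : ST_BH) (hODD : ST_ODD) {V : Type} (X : SimpleGraph V) :
    ALE X (⊤ : SimpleGraph (Fin 2)) ↔ X.Colorable 2 := by
  refine ⟨bip_only hBH hODD X, fun ⟨c⟩ => ?_⟩
  exact hREL V (Fin 2) X ⊤ ⟨c, fun a b hab => c.valid hab⟩

/-- 2-colourable graphs are pairwise comparable -/
theorem bip_total (hREL : ST_REL1) {V W : Type} (X : SimpleGraph V) (Y : SimpleGraph W)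
    (hX : X.Colorable 2) (hY : Y.Colorable 2) : ALE X Y ∨ ALE Y X := by
  have key : ∀ {A B : Type} (S : SimpleGraph A) (T : SimpleGraph B), S.Colorable 2 →
      (∃ a b, T.Adj a b) → ALE S T := by
    intro A B S T ⟨c⟩ ⟨a, b, hab⟩
    refine hREL A B S T ⟨fun x => if c x = 0 then a else b, fun x y hxy => ?_⟩
    have hne : c x ≠ c y := c.valid hxy
    dsimp only
    by_cases h0 : c x = 0
    · rw [if_pos h0, if_neg (fun h => hne (h0.trans h.symm))]
      exact hab
    · have h1 : c y = 0 := by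
        by_contra h1
        apply hne
        have e1 : c x = 1 := by
          omega
        have e2 : c y = 1 := by
          omega
        rw [e1, e2]
      rw [if_neg h0, if_pos h1]
      exact hab.symm
  by_cases eY : ∃ a b, Y.Adj a b
  · exact Or.inl (key X Y hX eY)
  · by_cases eX : ∃ a b, X.Adj a b
    · exact Or.inr (key Y X hY eX)
    · by_cases nY : Nonempty W
      · left
        exact hREL V W X Y ⟨fun _ => Classical.choice nY, fun a b hab => absurd ⟨a, b, hab⟩ eX⟩
      · right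
        exact hREL W V Y X ⟨fun w => absurd ⟨w⟩ nY, fun a b hab => absurd ⟨a, b, hab⟩ eY⟩

end Pool.Agent.Helper14.FO
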