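import Pool.Agent.Helper14.FO.FRH
import Pool.Agent.Helper11.FO.TE2
import Pool.Agent.Helper38.FO.CU2

/-! Graphs slightly above a given graph with a larger Lovász number of the complement: typical
words over the graph with an additional universal letter. -/

set_option autoImplicit false

namespace Pool.Agent.Helper14.FO

open Finset

/-- additional vertex adjacent to all the other vertices -/
def conG {V : Type} (X : SimpleGraph V) : SimpleGraph (Option V) where
  Adj a b := a ≠ b ∧ ∀ x y, a = some x → b = some y → X.Adj x y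
  symm := ⟨fun _ _ h => ⟨h.1.symm, fun x y hx hy => (h.2 y x hy hx).symm⟩⟩
  loopless := ⟨fun _ h => h.1 rfl⟩

def conE {V : Type} (δ : ℝ) (ρ : V → ℝ) (E : V → V → ℝ) : Option V → Option V → ℝ
  | none, none => 0
  | none, some y => δ * ρ y
  | some x, none => δ * ρ x
  | some x, some y => (1 - 2 * δ) * E x y

def conW {V : Type} (δ : ℝ) (ρ : V → ℝ) : Option V → ℝ
  | none => δ
  | some x => (1 - δ) * ρ x

theorem con_fm {V : Type} [Fintype V] (ρ : V → ℝ) (E : V → V → ℝ) (M δ M' : ℝ)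
    (hρ : ∀ x, 0 ≤ ρ x) (h1 : ∑ x, ρ x = 1) (hE : FM ρ E M) (hδ : 0 < δ) (hδ2 : δ < 1 / 2)
    (hM1 : (1 - 2 * δ) * M ≤ M' * (1 - δ)) (hM2 : δ ≤ M' * (1 - δ)) :
    FM (conW δ ρ) (conE δ ρ E) M' := by
  obtain ⟨e1, e2, e3, e4⟩ := hE
  have hd : 0 < 1 - δ := by linarith
  -- decomposition of a function
  have key : ∀ g : V → ℝ, (∑ x, ρ x * g x) ^ 2 ≤ ∑ x, ρ x * g x ^ 2 ∧
      (∑ x, ρ x * g x) ^ 2 - M * (∑ x, ρ x * g x ^ 2 - (∑ x, ρ x * g x) ^ 2) ≤
        ∑ x, ∑ y, E x y * g x * g y := by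
    intro g
    obtain ⟨S, hS⟩ : ∃ S, S = ∑ x, ρ x * g x := ⟨_, rfl⟩
    have a1 : ∑ x, ρ x * (g x - S) ^ 2 = ∑ x, ρ x * g x ^ 2 - S ^ 2 := by
      have : ∀ x, ρ x * (g x - S) ^ 2 = ρ x * g x ^ 2 - 2 * S * (ρ x * g x) + S ^ 2 * ρ x := by
        intro x; ring
      rw [Finset.sum_congr rfl fun x _ => this x, Finset.sum_add_distrib, Finset.sum_sub_distrib,
        ← Finset.mul_sum, ← Finset.mul_sum, h1, ← hS]
      ring
    have a2 : ∑ x, ∑ y, E x y * (g x - S) * (g y - S) = ∑ x, ∑ y, E x y * g x * g y - S ^ 2 := by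
      have b1 : ∀ x, ∑ y, E x y * (g x - S) * (g y - S) =
          ∑ y, E x y * g x * g y - S * (ρ x * g x) - S * ∑ y, E x y * g y + S ^ 2 * ρ x := by
        intro x
        have : ∀ y, E x y * (g x - S) * (g y - S) =
            E x y * g x * g y - S * g x * E x y - S * (E x y * g y) + S ^ 2 * E x y := by
          intro y; ring
        rw [Finset.sum_congr rfl fun y _ => this y, Finset.sum_add_distrib,
          Finset.sum_sub_distrib, Finset.sum_sub_distrib, ← Finset.mul_sum, ← Finset.mul_sum,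
          ← Finset.mul_sum, e2 x]
        ring
      have b2 : ∑ x, ∑ y, E x y * g y = S := by
        rw [Finset.sum_comm, hS]
        refine Finset.sum_congr rfl fun y _ => ?_
        rw [← Finset.sum_mul, ← e2 y]
        congr 1
        exact Finset.sum_congr rfl fun x _ => e1 x y
      rw [Finset.sum_congr rfl fun x _ => b1 x, Finset.sum_add_distrib, Finset.sum_sub_distrib,
        Finset.sum_sub_distrib, ← Finset.mul_sum, ← Finset.mul_sum, ← Finset.mul_sum, b2, h1, ← hS]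
      ring
    have a3 := e3 fun x => g x - S
    have a4 : 0 ≤ ∑ x, ρ x * (g x - S) ^ 2 :=
      Finset.sum_nonneg fun x _ => mul_nonneg (hρ x) (sq_nonneg _)
    rw [a1] at a3 a4
    rw [a2] at a3
    rw [← hS]
    constructor
    · linarith
    · linarith
  have hform : ∀ f : Option V → ℝ, ∑ a, ∑ b, conE δ ρ E a b * f a * f b =
      2 * δ * (f none * ∑ x, ρ x * f (some x)) +
        (1 - 2 * δ) * ∑ x, ∑ y, E x y * f (some x) * f (some y) := by
    intro f
    rw [Fintype.sum_option]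
    have c1 : ∑ b, conE δ ρ E none b * f none * f b =
        δ * (f none * ∑ x, ρ x * f (some x)) := by
      rw [Fintype.sum_option]
      show 0 * f none * f none + ∑ x, δ * ρ x * f none * f (some x) = _
      rw [Finset.mul_sum, Finset.mul_sum, zero_mul, zero_mul, zero_add]
      exact Finset.sum_congr rfl fun x _ => by ring
    have c2 : ∀ x, ∑ b, conE δ ρ E (some x) b * f (some x) * f b =
        δ * f none * (ρ x * f (some x)) +
          (1 - 2 * δ) * ∑ y, E x y * f (some x) * f (some y) := by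
      intro x
      rw [Fintype.sum_option]
      show δ * ρ x * f (some x) * f none + ∑ y, (1 - 2 * δ) * E x y * f (some x) * f (some y) = _
      rw [Finset.mul_sum]
      congr 1
      · ring
      · exact Finset.sum_congr rfl fun y _ => by ring
    rw [c1, Finset.sum_congr rfl fun x _ => c2 x, Finset.sum_add_distrib, ← Finset.mul_sum,
      ← Finset.mul_sum]
    ring
  have hnorm : ∀ f : Option V → ℝ, ∑ a, conW δ ρ a * f a ^ 2 =
      δ * f none ^ 2 + (1 - δ) * ∑ x, ρ x * f (some x) ^ 2 := by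
    intro f
    rw [Fintype.sum_option]
    show δ * f none ^ 2 + ∑ x, (1 - δ) * ρ x * f (some x) ^ 2 = _
    rw [Finset.mul_sum]
    congr 1
    exact Finset.sum_congr rfl fun y _ => by ring
  refine ⟨?_, ?_, ?_, ?_⟩
  · rintro (_ | x) (_ | y)
    · rfl
    · rfl
    · rfl
    · show (1 - 2 * δ) * E x y = (1 - 2 * δ) * E y x
      rw [e1]
  · rintro (_ | x)
    · rw [Fintype.sum_option]
      show 0 + ∑ x, δ * ρ x = δ
      rw [← Finset.mul_sum, h1]
      ring
    · rw [Fintype.sum_option]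
      show δ * ρ x + ∑ y, (1 - 2 * δ) * E x y = (1 - δ) * ρ x
      rw [← Finset.mul_sum, e2]
      ring
  · intro f
    rw [hform, hnorm]
    obtain ⟨k1, k2⟩ := key fun x => f (some x)
    generalize ∑ x, ρ x * f (some x) = S at k1 k2 ⊢
    generalize ∑ x, ρ x * f (some x) ^ 2 = T at k1 k2 ⊢
    generalize ∑ x, ∑ y, E x y * f (some x) * f (some y) = R at k2 ⊢
    generalize f none = a
    have d1 : 0 ≤ (M' * (1 - δ) - (1 - 2 * δ) * M) * (T - S ^ 2) :=
      mul_nonneg (by linarith) (by linarith)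
    have d2 : (1 - 2 * δ) * (S ^ 2 - M * (T - S ^ 2)) ≤ (1 - 2 * δ) * R :=
      mul_le_mul_of_nonneg_left k2 (by linarith)
    have d3 : 0 ≤ (δ * a + (1 - δ) * S) ^ 2 := sq_nonneg _
    have d4 : 0 ≤ (1 - δ) * (M' * δ * a ^ 2 + 2 * δ * (a * S) +
        (1 - 2 * δ + M' * (1 - δ)) * S ^ 2) := by
      have d5 : 0 ≤ (M' * (1 - δ) - δ) * (δ * a ^ 2 + (1 - δ) * S ^ 2) :=
        mul_nonneg (by linarith) (by positivity)
      nlinarith
    have d6 := nonneg_of_mul_nonneg_right d4 hd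
    nlinarith
  · intro f
    rw [hform, hnorm]
    obtain ⟨k1, _⟩ := key fun x => f (some x)
    have k3 := e4 fun x => f (some x)
    generalize ∑ x, ρ x * f (some x) = S at k1 ⊢
    generalize ∑ x, ρ x * f (some x) ^ 2 = T at k1 k3 ⊢
    generalize ∑ x, ∑ y, E x y * f (some x) * f (some y) = R at k3 ⊢
    generalize f none = a
    have d1 : (1 - 2 * δ) * R ≤ (1 - 2 * δ) * T := mul_le_mul_of_nonneg_left k3 (by linarith)
    have d2 : 0 ≤ δ * (a - S) ^ 2 := by positivity
    have d3 : δ * S ^ 2 ≤ δ * T := mul_le_mul_of_nonneg_left k1 hδ.le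
    nlinarith

theorem fm_equiv {V W : Type} [Fintype V] [Fintype W] (e : V ≃ W) (σ : W → ℝ) (F : W → W → ℝ)
    (M : ℝ) (h : FM σ F M) : FM (fun x => σ (e x)) (fun x y => F (e x) (e y)) M := by
  obtain ⟨h1, h2, h3, h4⟩ := h
  have hsum : ∀ f : V → ℝ, ∑ x, ∑ y, F (e x) (e y) * f x * f y =
      ∑ x, ∑ y, F x y * f (e.symm x) * f (e.symm y) := by
    intro f
    rw [← Equiv.sum_comp e]
    refine Finset.sum_congr rfl fun x _ => ?_
    rw [← Equiv.sum_comp e]
    refine Finset.sum_congr rfl fun y _ => ?_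
    rw [Equiv.symm_apply_apply, Equiv.symm_apply_apply]
  have hsum' : ∀ f : V → ℝ, ∑ x, σ (e x) * f x ^ 2 = ∑ x, σ x * f (e.symm x) ^ 2 := by
    intro f
    rw [← Equiv.sum_comp e]
    refine Finset.sum_congr rfl fun x _ => ?_
    rw [Equiv.symm_apply_apply]
  refine ⟨fun x y => h1 _ _, fun x => ?_, fun f => ?_, fun f => ?_⟩
  · dsimp only
    rw [← h2 (e x)]
    exact Equiv.sum_comp e fun y => F (e x) y
  · rw [hsum, hsum']
    exact h3 _
  · rw [hsum, hsum']
    exact h4 _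

theorem fm_pow {V : Type} [Fintype V] (ρ : V → ℝ) (E : V → V → ℝ) (M : ℝ) (hM0 : 0 ≤ M)
    (hM1 : M ≤ 1) (h : FM ρ E M) (N : ℕ) :
    FM (fun u : Fin N → V => ∏ i, ρ (u i)) (fun u v => ∏ i, E (u i) (v i)) M := by
  induction N with
  | zero =>
    refine ⟨fun u v => by simp, fun u => by simp, fun f => ?_, fun f => ?_⟩
    · simp only [Finset.univ_eq_empty, Finset.prod_empty, Fintype.sum_unique, one_mul]
      nlinarith [mul_nonneg hM0 (sq_nonneg (f default)), sq_nonneg (f default)]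
    · simp only [Finset.univ_eq_empty, Finset.prod_empty, Fintype.sum_unique, one_mul]
      rw [sq]
  | succ N ih =>
    have h1 := st_TE2a V (Fin N → V) ρ _ E _ M hM0 hM1 h ih
    have h2 := fm_equiv (Fin.consEquiv (fun _ : Fin (N + 1) => V)).symm _ _ M h1
    have e1 : (fun x : Fin (N + 1) → V => PW ρ (fun u : Fin N → V => ∏ i, ρ (u i))
        ((Fin.consEquiv (fun _ : Fin (N + 1) => V)).symm x)) =
        fun u : Fin (N + 1) → V => ∏ i, ρ (u i) := by
      funext u
      rw [Fin.prod_univ_succ]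
      rfl
    have e2 : (fun x y : Fin (N + 1) → V =>
        E ((Fin.consEquiv (fun _ : Fin (N + 1) => V)).symm x).1
          ((Fin.consEquiv (fun _ : Fin (N + 1) => V)).symm y).1 *
        ∏ i, E (((Fin.consEquiv (fun _ : Fin (N + 1) => V)).symm x).2 i)
          (((Fin.consEquiv (fun _ : Fin (N + 1) => V)).symm y).2 i)) =
        fun u v : Fin (N + 1) → V => ∏ i, E (u i) (v i) := by
      funext u v
      rw [Fin.prod_univ_succ]
      rfl
    rw [e1, e2] at h2
    exact h2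

/-- restriction to a subset with small leaks, lower form -/
theorem con_restrict {α : Type} [Fintype α] (P : α → Prop) [DecidablePred P] (w : α → ℝ)
    (E : α → α → ℝ) (M0 ε : ℝ) (hFM : FM w E M0) (hM0 : 0 ≤ M0) (hε : ε < 1)
    (hleak : ∀ x, P x → ∑ y ∈ univ.filter (fun y => ¬ P y), E x y ≤ ε * w x) :
    (∀ x : {x // P x}, (1 - ε) * w x.1 ≤ ∑ y : {x // P x}, E x.1 y.1) ∧
      ∀ f : {x // P x} → ℝ, 0 ≤ ∑ x : {x // P x}, ∑ y : {x // P x}, E x.1 y.1 * f x * f y +
        M0 / (1 - ε) * ∑ x : {x // P x}, (∑ y : {x // P x}, E x.1 y.1) * f x ^ 2 := by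
  obtain ⟨h1, h2, h3, h4⟩ := hFM
  have hsub : ∀ g : α → ℝ, ∑ y : {x // P x}, g y.1 = ∑ y ∈ univ.filter P, g y := by
    intro g
    rw [Finset.sum_subtype (univ.filter P) (p := P) (fun x => by simp) g]
  have hr : ∀ x : {x // P x}, (1 - ε) * w x.1 ≤ ∑ y : {x // P x}, E x.1 y.1 := by
    intro x
    rw [hsub (fun y => E x.1 y)]
    have e1 := Finset.sum_filter_add_sum_filter_not (univ : Finset α) P (fun y => E x.1 y)
    have e2 := hleak x.1 x.2
    have e3 := h2 x.1
    linarith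
  refine ⟨hr, fun f => ?_⟩
  set g : α → ℝ := fun x => if hx : P x then f ⟨x, hx⟩ else 0 with hg
  have hgv : ∀ x : {x // P x}, g x.1 = f x := by
    intro x
    rw [hg]
    beta_reduce
    rw [dif_pos x.2]
  have hgn : ∀ x, ¬ P x → g x = 0 := by
    intro x hx
    rw [hg]
    beta_reduce
    rw [dif_neg hx]
  have e0 := h3 g
  have e1 : ∀ F : α → ℝ, (∀ x, ¬ P x → F x = 0) → ∑ x, F x = ∑ x : {x // P x}, F x.1 := by
    intro F hF
    rw [hsub F]
    symm
    apply Finset.sum_subset (Finset.subset_univ _)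
    intro x _ hx
    apply hF
    intro h
    exact hx (Finset.mem_filter.mpr ⟨Finset.mem_univ _, h⟩)
  have e2 : ∑ x, ∑ y, E x y * g x * g y =
      ∑ x : {x // P x}, ∑ y : {x // P x}, E x.1 y.1 * f x * f y := by
    rw [e1 (fun x => ∑ y, E x y * g x * g y)
      (fun x hx => Finset.sum_eq_zero fun y _ => by rw [hgn x hx, mul_zero, zero_mul])]
    refine Finset.sum_congr rfl fun x _ => ?_
    rw [e1 (fun y => E x.1 y * g x.1 * g y) (fun y hy => by rw [hgn y hy, mul_zero])]
    refine Finset.sum_congr rfl fun y _ => ?_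
    rw [hgv x, hgv y]
  have e3 : ∑ x, w x * g x ^ 2 = ∑ x : {x // P x}, w x.1 * f x ^ 2 := by
    rw [e1 (fun x => w x * g x ^ 2) (fun x hx => by rw [hgn x hx]; ring)]
    refine Finset.sum_congr rfl fun x _ => ?_
    rw [hgv x]
  rw [e2, e3] at e0
  have hp : 0 < 1 - ε := by linarith
  have e4 : M0 * ∑ x : {x // P x}, w x.1 * f x ^ 2 ≤
      M0 / (1 - ε) * ∑ x : {x // P x}, (∑ y : {x // P x}, E x.1 y.1) * f x ^ 2 := by
    rw [div_mul_eq_mul_div, le_div_iff₀ hp, mul_assoc]
    apply mul_le_mul_of_nonneg_left _ hM0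
    rw [Finset.sum_mul]
    refine Finset.sum_le_sum fun x _ => ?_
    have := mul_le_mul_of_nonneg_right (hr x) (sq_nonneg (f x))
    calc w x.1 * f x ^ 2 * (1 - ε) = (1 - ε) * w x.1 * f x ^ 2 := by ring
      _ ≤ _ := this
  linarith

/-- a lower form bounds the vector colourings -/
theorem con_upt {U : Type} [Fintype U] (Q : SimpleGraph U) (E : U → U → ℝ) (M : ℝ) (hM : 0 < M)
    (hsupp : ∀ x y, ¬ Q.Adj x y → E x y = 0) (hs : 0 < ∑ x, ∑ y, E x y)
    (hform : ∀ f : U → ℝ, 0 ≤ ∑ x, ∑ y, E x y * f x * f y +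
      M * ∑ x, (∑ y, E x y) * f x ^ 2) (c : ℝ) (h : UpT Q c) : 1 + 1 / M ≤ c := by
  obtain ⟨d, v, hv, hvv⟩ := h
  have h1 : 0 ≤ ∑ i : Fin d, (∑ x, ∑ y, E x y * v x i * v y i +
      M * ∑ x, (∑ y, E x y) * v x i ^ 2) := Finset.sum_nonneg fun i _ => hform fun x => v x i
  rw [Finset.sum_add_distrib] at h1
  have h2 : ∑ i : Fin d, ∑ x, ∑ y, E x y * v x i * v y i = - ∑ x, ∑ y, E x y := by
    rw [Finset.sum_comm, ← Finset.sum_neg_distrib]
    refine Finset.sum_congr rfl fun x _ => ?_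
    rw [Finset.sum_comm, ← Finset.sum_neg_distrib]
    refine Finset.sum_congr rfl fun y _ => ?_
    have h3 : ∑ i : Fin d, E x y * v x i * v y i = E x y * ∑ i : Fin d, v x i * v y i := by
      rw [Finset.mul_sum]
      exact Finset.sum_congr rfl fun i _ => by ring
    rw [h3]
    by_cases hxy : Q.Adj x y
    · rw [hvv x y hxy]
      ring
    · rw [hsupp x y hxy]
      ring
  have h4 : ∑ i : Fin d, M * ∑ x, (∑ y, E x y) * v x i ^ 2 =
      M * ((∑ x, ∑ y, E x y) * (c - 1)) := by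
    rw [← Finset.mul_sum, Finset.sum_comm, Finset.sum_mul]
    congr 1
    refine Finset.sum_congr rfl fun x _ => ?_
    rw [← Finset.mul_sum, hv x]
  rw [h2, h4] at h1
  have h5 : 0 ≤ (∑ x, ∑ y, E x y) * (M * (c - 1) - 1) := by nlinarith
  have h6 := nonneg_of_mul_nonneg_right h5 hs
  have h7 : 1 / M ≤ c - 1 := by
    rw [div_le_iff₀ hM]
    linarith
  linarith

end Pool.Agent.Helper14.FO
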