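import Pool.Agent.Helper14.FO.CONE

/-! Graphs slightly above a given graph with a larger Lovász number of the complement, 2. -/

set_option autoImplicit false

namespace Pool.Agent.Helper14.FO

open Finset

/-- weight of the letters -/
def conR {V : Type} (ρ : V → ℝ) : Option V → ℝ
  | none => 1
  | some x => ρ x

def conQ (t : ℝ) (a b : Bool) : ℝ :=
  if a = true then (if b = true then 0 else t) else (if b = true then t else 1 - 2 * t)

theorem conm_sum {V : Type} [Fintype V] (ρ : V → ℝ) (E : V → V → ℝ) (δ : ℝ)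
    (h1 : ∑ x, ρ x = 1) (h2 : ∀ x, ∑ y, E x y = ρ x) (a : Option V) (b : Bool) :
    ∑ o ∈ univ.filter (fun o : Option V => o.isNone = b), conE δ ρ E a o =
      conR ρ a * conQ δ a.isNone b := by
  rw [Finset.sum_filter, Fintype.sum_option]
  rcases a with _ | x
  · cases b
    · have : ∀ x : V, (if (some x : Option V).isNone = false then conE δ ρ E none (some x) else 0) =
          δ * ρ x := fun x => rfl
      rw [Finset.sum_congr rfl fun x _ => this x, ← Finset.mul_sum, h1]
      simp [conR, conQ]
    · have : ∀ x : V, (if (some x : Option V).isNone = true then conE δ ρ E none (some x) else 0) =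
          0 := fun x => by simp
      rw [Finset.sum_congr rfl fun x _ => this x]
      simp [conR, conQ, conE]
  · cases b
    · have : ∀ y : V, (if (some y : Option V).isNone = false then
          conE δ ρ E (some x) (some y) else 0) = (1 - 2 * δ) * E x y := fun y => rfl
      rw [Finset.sum_congr rfl fun y _ => this y, ← Finset.mul_sum, h2]
      simp [conR, conQ]
      ring
    · have : ∀ y : V, (if (some y : Option V).isNone = true then
          conE δ ρ E (some x) (some y) else 0) = 0 := fun y => by simp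
      rw [Finset.sum_congr rfl fun y _ => this y]
      simp [conR, conQ, conE]
      ring

theorem conm_row {V : Type} [Fintype V] (ρ : V → ℝ) (E : V → V → ℝ) (δ : ℝ)
    (h1 : ∑ x, ρ x = 1) (h2 : ∀ x, ∑ y, E x y = ρ x) (N : ℕ) (z : Fin N → Option V)
    (B : Fin N → Bool) :
    ∑ w ∈ univ.filter (fun w : Fin N → Option V => (fun i => (w i).isNone) = B),
      ∏ i, conE δ ρ E (z i) (w i) = (∏ i, conR ρ (z i)) * CuE δ N (fun i => (z i).isNone) B := by
  classical
  have e1 : (univ.filter (fun w : Fin N → Option V => (fun i => (w i).isNone) = B)) =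
      Fintype.piFinset (fun i => univ.filter (fun o : Option V => o.isNone = B i)) := by
    ext w
    simp only [Finset.mem_filter, Finset.mem_univ, true_and, Fintype.mem_piFinset]
    exact funext_iff
  rw [e1, ← Finset.prod_univ_sum, CuE, ← Finset.prod_mul_distrib]
  exact Finset.prod_congr rfl fun i _ => conm_sum ρ E δ h1 h2 (z i) (B i)

theorem conm_leak {V : Type} [Fintype V] (ρ : V → ℝ) (E : V → V → ℝ) (δ : ℝ)
    (h1 : ∑ x, ρ x = 1) (h2 : ∀ x, ∑ y, E x y = ρ x) (N : ℕ) (P : (Fin N → Bool) → Prop)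
    [DecidablePred P] (z : Fin N → Option V) :
    ∑ w ∈ univ.filter (fun w : Fin N → Option V => ¬ P (fun i => (w i).isNone)),
      ∏ i, conE δ ρ E (z i) (w i) = (∏ i, conR ρ (z i)) *
        ∑ B ∈ univ.filter (fun B : Fin N → Bool => ¬ P B), CuE δ N (fun i => (z i).isNone) B := by
  classical
  rw [Finset.mul_sum, ← Finset.sum_congr rfl fun B _ => conm_row ρ E δ h1 h2 N z B]
  rw [← Finset.sum_biUnion]
  · congr 1
    ext w
    simp only [Finset.mem_filter, Finset.mem_univ, true_and, Finset.mem_biUnion]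
    constructor
    · intro h
      exact ⟨_, h, rfl⟩
    · rintro ⟨B, hB, rfl⟩
      exact hB
  · intro B _ B' _ hBB
    rw [Function.onFun, Finset.disjoint_left]
    intro w hw hw'
    exact hBB ((Finset.mem_filter.1 hw).2.symm.trans (Finset.mem_filter.1 hw').2)

theorem con_main (Y : GW) (M : ℝ) (hE : FC Y.X Y.ρ M)
    (δ M' : ℝ) (hδ : 0 < δ) (hδ2 : δ < 1 / 2) (h1 : (1 - 2 * δ) * M < M' * (1 - δ))
    (h2 : δ < M' * (1 - δ)) (hM' : M' ≤ 1) :
    ∃ (U : Type) (_ : Fintype U) (Q : SimpleGraph U) (N : ℕ) (g : Fin N → U → Option Y.V),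
      1 ≤ N ∧ (∀ j a b x y, Q.Adj a b → g j a = some x → g j b = some y → Y.X.Adj x y) ∧
      (∀ a, (N : ℝ) * (1 - 2 * δ) ≤ (univ.filter fun j => (g j a).isSome = true).card) ∧
      ∀ c, UpT Q c → 1 + 1 / M' ≤ c := by
  classical
  have hd : 0 < 1 - δ := by linarith
  obtain ⟨E, hE0, hEF⟩ := hE
  have hρ1 := Y.one
  have hρ0 := Y.pos
  have hM'0 : 0 < M' := by
    by_contra h
    push Not at h
    have : M' * (1 - δ) ≤ 0 := mul_nonpos_of_nonpos_of_nonneg h hd.le
    linarith
  obtain ⟨M0, hM0'⟩ : ∃ M0, M0 = max ((1 - 2 * δ) * M) δ / (1 - δ) := ⟨_, rfl⟩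
  have hm1 : (1 - 2 * δ) * M ≤ M0 * (1 - δ) := by
    rw [hM0', div_mul_cancel₀ _ hd.ne']
    exact le_max_left _ _
  have hm2 : δ ≤ M0 * (1 - δ) := by
    rw [hM0', div_mul_cancel₀ _ hd.ne']
    exact le_max_right _ _
  have hm3 : M0 < M' := by
    rw [hM0', div_lt_iff₀ hd]
    exact max_lt h1 h2
  have hm4 : 0 < M0 := by
    rw [hM0']
    exact div_pos (lt_of_lt_of_le hδ (le_max_right _ _)) hd
  have hFM := fm_pow (conW δ Y.ρ) (conE δ Y.ρ E) M0 hm4.le (by linarith)
    (con_fm Y.ρ E M δ M0 (fun x => (hρ0 x).le) hρ1 hEF hδ hδ2 hm1 hm2)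
  obtain ⟨ε, hε⟩ : ∃ ε, ε = 1 - M0 / M' := ⟨_, rfl⟩
  have hε1 : 1 - ε = M0 / M' := by rw [hε]; ring
  have hεp : 0 < 1 - ε := by rw [hε1]; positivity
  have hε0 : 0 < ε := by
    rw [hε, sub_pos, div_lt_one hM'0]
    exact hm3
  obtain ⟨N0, hN0⟩ := Pool.Agent.Helper38.FO.st_CU2 δ δ ε hδ hδ2 hδ hε0
  obtain ⟨N, hN⟩ : ∃ N, N = N0 + 1 := ⟨_, rfl⟩
  have hNN : N0 ≤ N := by omega
  have hN1 : 1 ≤ N := by omega
  have hNp : (0 : ℝ) < N := by exact_mod_cast hN1
  set P : (Fin N → Option Y.V) → Prop := fun z =>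
    |(CuN (fun i => (z i).isNone) : ℝ) - δ * N| ≤ δ * N with hP
  have hleak : ∀ z, P z → ∑ w ∈ univ.filter (fun w => ¬ P w), ∏ i, conE δ Y.ρ E (z i) (w i) ≤
      ε * ∏ i, conW δ Y.ρ (z i) := by
    intro z hz
    have k1 := conm_leak Y.ρ E δ hρ1 hEF.2.1 N
      (fun B : Fin N → Bool => |(CuN B : ℝ) - δ * N| ≤ δ * N) z
    have k2 := hN0 N hNN (fun i => (z i).isNone) hz
    have k3 : ∏ i, conW δ Y.ρ (z i) = (∏ i, conR Y.ρ (z i)) * CuW δ N (fun i => (z i).isNone) := by
      rw [CuW, ← Finset.prod_mul_distrib]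
      refine Finset.prod_congr rfl fun i _ => ?_
      rcases z i with _ | x
      · simp [conW, conR]
      · simp [conW, conR]
        ring
    have k4 : 0 ≤ ∏ i, conR Y.ρ (z i) := by
      refine Finset.prod_nonneg fun i _ => ?_
      rcases z i with _ | x
      · exact zero_le_one
      · exact (hρ0 x).le
    calc _ = _ := k1
      _ ≤ (∏ i, conR Y.ρ (z i)) * (ε * CuW δ N (fun i => (z i).isNone)) :=
          mul_le_mul_of_nonneg_left k2 k4
      _ = _ := by rw [k3]; ring
  obtain ⟨hr, hform⟩ := con_restrict P (fun z => ∏ i, conW δ Y.ρ (z i))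
    (fun z w => ∏ i, conE δ Y.ρ E (z i) (w i)) M0 ε (hFM N) hm4.le (by linarith) hleak
  have hwpos : ∀ z : Fin N → Option Y.V, 0 < ∏ i, conW δ Y.ρ (z i) := by
    intro z
    refine Finset.prod_pos fun i _ => ?_
    rcases z i with _ | x
    · exact hδ
    · exact mul_pos hd (hρ0 x)
  have hne : Nonempty {z // P z} := by
    have : Nonempty Y.V := by
      by_contra hcon
      rw [not_nonempty_iff] at hcon
      rw [Finset.univ_eq_empty, Finset.sum_empty] at hρ1
      exact zero_ne_one hρ1
    obtain ⟨x0⟩ := this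
    refine ⟨⟨fun _ => some x0, ?_⟩⟩
    show |(CuN (fun _ : Fin N => (some x0 : Option Y.V).isNone) : ℝ) - δ * N| ≤ δ * N
    have : CuN (fun _ : Fin N => (some x0 : Option Y.V).isNone) = 0 := by
      simp [CuN]
    rw [this, Nat.cast_zero, zero_sub, abs_neg, abs_of_pos (by positivity)]
  have hM0M : M0 / (1 - ε) = M' := by
    rw [hε1]
    field_simp
  rw [hM0M] at hform
  let Q : SimpleGraph {z // P z} :=
    { Adj := fun a b => ∀ i, (conG Y.X).Adj (a.1 i) (b.1 i)
      symm := ⟨fun a b h i => (h i).symm⟩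
      loopless := ⟨fun a h => (conG Y.X).loopless.irrefl _ (h ⟨0, hN1⟩)⟩ }
  refine ⟨{z // P z}, inferInstance, Q, N, fun j a => a.1 j, hN1, ?_, ?_, ?_⟩
  · intro j a b x y hab hx hy
    exact (hab j).2 x y hx hy
  · intro a
    have e1 : ((univ.filter fun j => (a.1 j).isSome = true).card : ℝ) =
        N - CuN (fun i => (a.1 i).isNone) := by
      have e2 : (univ.filter fun j => (a.1 j).isSome = true).card +
          CuN (fun i => (a.1 i).isNone) = N := by
        have e3 := Finset.card_filter_add_card_filter_not (s := (univ : Finset (Fin N)))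
          (fun j => (a.1 j).isSome = true)
        rw [Finset.card_univ, Fintype.card_fin] at e3
        have e4 : (univ.filter fun j : Fin N => ¬ (a.1 j).isSome = true) =
            univ.filter fun j : Fin N => (a.1 j).isNone = true := by
          apply Finset.filter_congr
          intro j _
          rcases a.1 j with _ | x <;> simp
        rw [e4] at e3
        exact e3
      have e5 : (((univ.filter fun j => (a.1 j).isSome = true).card : ℕ) : ℝ) +
          (CuN (fun i => (a.1 i).isNone) : ℝ) = N := by exact_mod_cast e2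
      linarith
    have e6 : |(CuN (fun i => (a.1 i).isNone) : ℝ) - δ * N| ≤ δ * N := a.2
    rw [abs_le] at e6
    show (N : ℝ) * (1 - 2 * δ) ≤ ((univ.filter fun j => (a.1 j).isSome = true).card : ℝ)
    rw [e1]
    linarith [e6.2]
  · intro c hc
    refine con_upt Q (fun a b => ∏ i, conE δ Y.ρ E (a.1 i) (b.1 i)) M' hM'0 ?_ ?_ hform c hc
    · intro a b hab
      have : ∃ i, ¬ (conG Y.X).Adj (a.1 i) (b.1 i) := by
        by_contra hcon
        push Not at hcon
        exact hab hcon
      obtain ⟨i, hi⟩ := this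
      refine Finset.prod_eq_zero (Finset.mem_univ i) ?_
      rcases ha : a.1 i with _ | x
      · rcases hb : b.1 i with _ | y
        · rfl
        · exfalso
          apply hi
          rw [ha, hb]
          exact ⟨by simp, fun x y h _ => by simp at h⟩
      · rcases hb : b.1 i with _ | y
        · exfalso
          apply hi
          rw [ha, hb]
          exact ⟨by simp, fun x y _ h => by simp at h⟩
        · show (1 - 2 * δ) * E x y = 0
          have : ¬ Y.X.Adj x y := by
            intro h
            apply hi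
            rw [ha, hb]
            refine ⟨?_, ?_⟩
            · intro h'
              rw [Option.some.inj h'] at h
              exact Y.X.loopless.irrefl _ h
            · intro x' y' hx' hy'
              rw [← Option.some.inj hx', ← Option.some.inj hy']
              exact h
          rw [hE0 x y this, mul_zero]
    · exact Finset.sum_pos (fun a _ => lt_of_lt_of_le (mul_pos hεp (hwpos a.1)) (hr a))
        Finset.univ_nonempty

end Pool.Agent.Helper14.FO
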