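import Mathlib

/-!
# MP_190084_co: intervals of the asymptotic cohomomorphism preorder

Definitions and module statements (all graphs here are COMPLEMENTS of the graphs of the problem).
-/

set_option autoImplicit false

namespace Pool.Agent.Helper14.FO

open Finset

/-! ## The problem's own notions -/

/-- Cohomomorphism `G ≤ H`. -/
def CoLE {V W : Type} (G : SimpleGraph V) (H : SimpleGraph W) : Prop :=
  ∃ f : V → W, ∀ u v, u ≠ v → ¬ G.Adj u v → f u ≠ f v ∧ ¬ H.Adj (f u) (f v)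

/-- Strong product. -/
def strongProd {V W : Type} (G : SimpleGraph V) (H : SimpleGraph W) : SimpleGraph (V × W) where
  Adj a b := a ≠ b ∧ (a.1 = b.1 ∨ G.Adj a.1 b.1) ∧ (a.2 = b.2 ∨ H.Adj a.2 b.2)
  symm := ⟨fun _ _ h => ⟨h.1.symm, h.2.1.imp Eq.symm (fun h => h.symm),
    h.2.2.imp Eq.symm (fun h => h.symm)⟩⟩
  loopless := ⟨fun _ h => h.1 rfl⟩

/-- Strong power. -/
def strongPow {V : Type} (G : SimpleGraph V) (n : ℕ) : SimpleGraph (Fin n → V) where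
  Adj a b := a ≠ b ∧ ∀ i, a i = b i ∨ G.Adj (a i) (b i)
  symm := ⟨fun _ _ h => ⟨h.1.symm, fun i => (h.2 i).imp Eq.symm (fun h => h.symm)⟩⟩
  loopless := ⟨fun _ h => h.1 rfl⟩

/-- Asymptotic cohomomorphism `G ≲ H`: there are positive integers `k n = 2 ^ o(n)` with
`G^n ≤ (edgeless graph on k n vertices) ⊠ H^n` for all `n ≥ 1`. -/
def AsympLE {V W : Type} (G : SimpleGraph V) (H : SimpleGraph W) : Prop :=
  ∃ k : ℕ → ℕ, (∀ n, 0 < k n) ∧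
    Filter.Tendsto (fun n => Real.logb 2 (k n) / n) Filter.atTop (nhds 0) ∧
    ∀ n, 1 ≤ n → CoLE (strongPow G n)
      (strongProd (⊥ : SimpleGraph (Fin (k n))) (strongPow H n))

/-! ## Complement language -/

/-- A homomorphism from the OR-power `X^n` to `K_k * Y^n`. -/
def PowHom {V W : Type} (X : SimpleGraph V) (Y : SimpleGraph W) (n k : ℕ) : Prop :=
  ∃ f : (Fin n → V) → Fin k × (Fin n → W), ∀ u v : Fin n → V, (∃ i, X.Adj (u i) (v i)) →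
    (f u).1 ≠ (f v).1 ∨ ∃ i, Y.Adj ((f u).2 i) ((f v).2 i)

def SubExp (k : ℕ → ℕ) : Prop :=
  ∀ ε : ℝ, 0 < ε → ∃ n0, ∀ n, n0 ≤ n → (k n : ℝ) ≤ Real.exp (ε * n)

def ALE {V W : Type} (X : SimpleGraph V) (Y : SimpleGraph W) : Prop :=
  ∃ k : ℕ → ℕ, (∀ n, 0 < k n) ∧ SubExp k ∧ ∀ n, 1 ≤ n → PowHom X Y n (k n)

/-- `K_K → Y^N` (OR-power). -/
def PowClique {W : Type} (Y : SimpleGraph W) (N K : ℕ) : Prop :=
  ∃ F : Fin K → (Fin N → W), ∀ a b, a ≠ b → ∃ i, Y.Adj (F a i) (F b i)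

/-- independent set -/
def Ind {V : Type} (X : SimpleGraph V) (S : Finset V) : Prop :=
  ∀ a ∈ S, ∀ b ∈ S, ¬ X.Adj a b

/-- tensor product -/
def Ten {V W : Type} (X : SimpleGraph V) (Y : SimpleGraph W) : SimpleGraph (V × W) where
  Adj a b := X.Adj a.1 b.1 ∧ Y.Adj a.2 b.2
  symm := ⟨fun _ _ h => ⟨h.1.symm, h.2.symm⟩⟩
  loopless := ⟨fun _ h => X.loopless.irrefl _ h.1⟩

/-- disjoint union of a family of graphs -/
def SigG {ι : Type} {W : ι → Type} (Y : ∀ i, SimpleGraph (W i)) : SimpleGraph (Σ i, W i) where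
  Adj a b := ∃ i, ∃ x y : W i, a = ⟨i, x⟩ ∧ b = ⟨i, y⟩ ∧ (Y i).Adj x y
  symm := ⟨fun _ _ h => by
    obtain ⟨i, x, y, h1, h2, h3⟩ := h
    exact ⟨i, y, x, h2, h1, h3.symm⟩⟩
  loopless := ⟨fun a h => by
    obtain ⟨i, x, y, h1, h2, h3⟩ := h
    rw [h1] at h2
    obtain ⟨_, h4⟩ := Sigma.mk.inj_iff.mp h2
    rw [eq_of_heq h4] at h3
    exact (Y i).loopless.irrefl _ h3⟩

/-- circular clique `K_{p/q}` on `ZMod p` -/
def KC (p q : ℕ) : SimpleGraph (ZMod p) where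
  Adj a b := a ≠ b ∧ q ≤ (a - b).val ∧ q ≤ (b - a).val
  symm := ⟨fun _ _ h => ⟨h.1.symm, h.2.2, h.2.1⟩⟩
  loopless := ⟨fun _ h => h.1 rfl⟩

/-- the graph on the cube whose edges are the pairs at distance exactly `D` -/
def BG (N D : ℕ) : SimpleGraph (Fin N → ZMod 2) where
  Adj x y := x ≠ y ∧ hammingDist x y = D
  symm := ⟨fun x y h => ⟨h.1.symm, by rw [hammingDist_comm]; exact h.2⟩⟩
  loopless := ⟨fun _ h => h.1 rfl⟩

/-- translation invariance -/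
def TI {G : Type} [AddCommGroup G] (R : SimpleGraph G) : Prop :=
  ∀ a b g : G, R.Adj (a + g) (b + g) ↔ R.Adj a b

/-! ## Certificates -/

/-- spectral certificate: `-M ≤ A ≤ 1`, row sums one, supported on edges -/
def Cert {V : Type} [Fintype V] [DecidableEq V] (X : SimpleGraph V) (M : ℝ) : Prop :=
  ∃ A : Matrix V V ℝ, (∀ x y, ¬ X.Adj x y → A x y = 0) ∧ (∀ x, ∑ y, A x y = 1) ∧
    (A + M • (1 : Matrix V V ℝ)).PosSemidef ∧ ((1 : Matrix V V ℝ) - A).PosSemidef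

/-- lower bound `θ` for the Lovász number of the complement, uniform over the vertices -/
def LowT {V : Type} [Fintype V] (X : SimpleGraph V) (θ : ℝ) : Prop :=
  ∃ (d : ℕ) (g : V → Fin d → ℝ) (h : Fin d → ℝ), (∀ x, ∑ i, g x i ^ 2 = 1) ∧
    (∑ i, h i ^ 2 = 1) ∧ (∀ x y, x ≠ y → ¬ X.Adj x y → ∑ i, g x i * g y i = 0) ∧
    ∀ x, θ / Fintype.card V ≤ (∑ i, g x i * h i) ^ 2

/-- upper bound `θ` for the Lovász number of the complement: strict vector colouring -/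
def UpT {W : Type} (Y : SimpleGraph W) (θ : ℝ) : Prop :=
  ∃ (d : ℕ) (v : W → Fin d → ℝ), (∀ y, ∑ i, v y i ^ 2 = θ - 1) ∧
    ∀ x y, Y.Adj x y → ∑ i, v x i * v y i = -1

/-- lower bound `χ` for the fractional chromatic number (independence ratio) -/
def LowC {V : Type} [Fintype V] (X : SimpleGraph V) (χ : ℝ) : Prop :=
  ∀ S : Finset V, Ind X S → χ * S.card ≤ Fintype.card V

/-- upper bound `χ` for the fractional chromatic number -/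
def UpC {W : Type} (Y : SimpleGraph W) (χ : ℝ) : Prop :=
  ∃ (J : Type) (_ : Fintype J) (_ : Nonempty J) (I : J → Set W),
    (∀ j, ∀ x ∈ I j, ∀ y ∈ I j, ¬ Y.Adj x y) ∧
    ∀ y, (Fintype.card J : ℝ) ≤ χ * (Set.ncard {j | y ∈ I j} : ℝ)

/-! ## Nodes -/

/-- product of cube graphs with its certificates -/
structure RN where
  G : Type
  [grp : AddCommGroup G]
  [fin : Fintype G]
  [dec : DecidableEq G]
  R : SimpleGraph G
  M : ℝ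
  ti : TI R
  ind : ∀ I : Finset G, Ind R I → 10 * I.card < Fintype.card G
  cert : Cert R M
  upt : UpT R (1 + 1 / M)
  lo : 3 / 4 ≤ M
  hi : M < 1

attribute [instance] RN.grp RN.fin RN.dec

/-- final node: circular clique and product of cube graphs -/
structure FN where
  p : ℕ
  q : ℕ
  [ne : NeZero p]
  X : RN
  hq : 0 < q
  h2 : 2 * q ≤ p
  h10 : p ≤ 10 * q
  cr : Cert (KC p q) X.M

attribute [instance] FN.ne

/-- vertex set and graph of a final node -/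
def FN.V (x : FN) : Type := ZMod x.p × x.X.G

instance (x : FN) : Fintype x.V := inferInstanceAs (Fintype (ZMod x.p × x.X.G))
instance (x : FN) : DecidableEq x.V := inferInstanceAs (DecidableEq (ZMod x.p × x.X.G))
instance (x : FN) : Nonempty x.V := inferInstanceAs (Nonempty (ZMod x.p × x.X.G))

def FN.gr (x : FN) : SimpleGraph x.V := Ten (KC x.p x.q) x.X.R

/-! ## Module statements -/

/-- REL -/
def ST_REL1 : Prop := ∀ (V W : Type) (X : SimpleGraph V) (Y : SimpleGraph W),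
  (∃ φ : V → W, ∀ a b, X.Adj a b → Y.Adj (φ a) (φ b)) → ALE X Y
def ST_REL2 : Prop := ∀ (U V W : Type) (X : SimpleGraph U) (Y : SimpleGraph V) (Z : SimpleGraph W),
  ALE X Y → ALE Y Z → ALE X Z

/-- ASY -/
def ST_ASY : Prop := ∀ (V W : Type) (G : SimpleGraph V) (H : SimpleGraph W),
  AsympLE G H ↔ ALE Gᶜ Hᶜ

/-- BH -/
def ST_BH : Prop := ∀ n : ℕ, ∃ F : Fin (2 ^ (2 ^ n) + 1) → (Fin (2 ^ n) → ZMod (2 * n + 3)),
  ∀ a b, a ≠ b → ∃ i, F a i - F b i = 1 ∨ F b i - F a i = 1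

/-- ODD -/
def ST_ODD : Prop := ∀ (W : Type) (Z : SimpleGraph W), ¬ Z.Colorable 2 →
  ∃ n : ℕ, ∃ φ : ZMod (2 * n + 3) → W, ∀ i, Z.Adj (φ i) (φ (i + 1))

/-- COV -/
def ST_COV : Prop := ∀ (W : Type) [Fintype W] (Y : SimpleGraph W) (χ : ℝ), 1 ≤ χ → UpC Y χ →
  ∀ n c : ℕ, ((Fintype.card W : ℝ) ^ n) * (1 - (χ ^ n)⁻¹) ^ c < 1 →
    ∃ col : (Fin n → W) → Fin c, ∀ u v, (∃ i, Y.Adj (u i) (v i)) → col u ≠ col v

/-- UPI -/
def ST_UPI : Prop := ∀ (W' : Type) (Z : SimpleGraph W') (N K : ℕ), 1 ≤ N → 2 ≤ K →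
  PowClique Z N K → ∀ (W : Type) [Fintype W] (Y : SimpleGraph W) (χ : ℝ), 1 ≤ χ → UpC Y χ →
    χ ^ N < K → ALE Y Z

/-- IND: independent sets of OR-powers -/
def ST_IND : Prop := ∀ (V : Type) [Fintype V] [DecidableEq V] (X : SimpleGraph V) (χ : ℝ), 0 < χ →
  LowC X χ → ∀ (n : ℕ) (S : Finset (Fin n → V)), (∀ u ∈ S, ∀ v ∈ S, ∀ i, ¬ X.Adj (u i) (v i)) →
    χ ^ n * S.card ≤ (Fintype.card V : ℝ) ^ n

/-- CLT: Bessel inequality on a class -/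
def ST_CLT : Prop := ∀ (V : Type) [Fintype V] [DecidableEq V] (X : SimpleGraph V) (θa : ℝ),
  0 < θa → LowT X θa →
  ∀ (ι : Type) [Fintype ι] [DecidableEq ι] (W : ι → Type) (Y : ∀ i, SimpleGraph (W i))
    (θ : ι → ℝ), (∀ i, 0 < θ i) → (∀ i, UpT (Y i) (θ i)) →
  ∀ (n : ℕ) (U : Finset (Fin n → V)) (f : (Fin n → V) → (Fin n → Σ i, W i)) (T : ℝ), 0 ≤ T →
    (∀ u ∈ U, ∀ v ∈ U, (∃ i, X.Adj (u i) (v i)) → ∃ i, (SigG Y).Adj (f u i) (f v i)) →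
    (∀ u ∈ U, ∏ i, θ (f u i).1 ≤ T) → (U.card : ℝ) * (θa / Fintype.card V) ^ n ≤ T

/-- CLC: random independent sets on a class -/
def ST_CLC : Prop := ∀ (V : Type) [Fintype V] [DecidableEq V] (X : SimpleGraph V) (χa : ℝ),
  0 < χa → LowC X χa →
  ∀ (ι : Type) [Fintype ι] [DecidableEq ι] (W : ι → Type) (Y : ∀ i, SimpleGraph (W i))
    (χ : ι → ℝ), (∀ i, 0 < χ i) → (∀ i, UpC (Y i) (χ i)) →
  ∀ (n : ℕ) (U : Finset (Fin n → V)) (f : (Fin n → V) → (Fin n → Σ i, W i)) (T : ℝ), 0 ≤ T →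
    (∀ u ∈ U, ∀ v ∈ U, (∃ i, X.Adj (u i) (v i)) → ∃ i, (SigG Y).Adj (f u i) (f v i)) →
    (∀ u ∈ U, ∏ i, χ (f u i).1 ≤ T) → (U.card : ℝ) * (χa / Fintype.card V) ^ n ≤ T

/-- CERT: the certificate theorem -/
def ST_CERT : Prop := ∀ (V : Type) [Fintype V] [DecidableEq V] [Nonempty V] (X : SimpleGraph V)
    (θa χa : ℝ), 0 < θa → 0 < χa → LowT X θa → LowC X χa →
  ∀ (ι : Type) [Fintype ι] [DecidableEq ι] (W : ι → Type) (Y : ∀ i, SimpleGraph (W i))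
    (θ χ : ι → ℝ), (∀ i, 0 < θ i) → (∀ i, 0 < χ i) → (∀ i, UpT (Y i) (θ i)) →
    (∀ i, UpC (Y i) (χ i)) → ALE X (SigG Y) → ∀ l μ : ℝ, 0 ≤ l → 0 ≤ μ →
    ∃ i, l * Real.log θa + μ * Real.log χa ≤ l * Real.log (θ i) + μ * Real.log (χ i)

/-- KHOM -/
def ST_KHOM : Prop := ∀ (p q p' q' : ℕ) [NeZero p] [NeZero p'], 0 < q → 0 < q' →
  p * q' ≤ p' * q → ∃ φ : ZMod p → ZMod p', ∀ a b, (KC p q).Adj a b → (KC p' q').Adj (φ a) (φ b)

/-- KUP -/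
def ST_KUP : Prop := ∀ (p q : ℕ) [NeZero p], 0 < q → 2 * q ≤ p → UpC (KC p q) ((p : ℝ) / q)

/-- KNB -/
def ST_KNB : Prop := ∀ (p q : ℕ) [NeZero p], 0 < q → 2 * q ≤ p → ∀ S T : Finset (ZMod p),
  S.Nonempty → T.Nonempty → (∀ a ∈ S, ∀ b ∈ T, ¬ (KC p q).Adj a b) → S.card + T.card ≤ 2 * q

/-- EXP: expansion of independent sets in translation invariant graphs -/
def ST_EXP : Prop := ∀ (G : Type) [AddCommGroup G] [Fintype G] [DecidableEq G]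
  (R : SimpleGraph G), TI R → ∀ p q : ℕ, (∀ I, Ind R I → p * I.card ≤ q * Fintype.card G) →
  ∀ L : Finset G, Ind R L → ∀ N : Finset G, (∀ b, b ∈ N ↔ ∃ a ∈ L, R.Adj a b) →
    p * L.card ≤ q * (L.card + N.card)

/-- CCT: independent sets of `K_{p/q} × R` -/
def ST_CCT : Prop := ∀ (p q : ℕ) [NeZero p], 0 < q → 2 * q ≤ p →
  ∀ (G : Type) [AddCommGroup G] [Fintype G] [DecidableEq G] (R : SimpleGraph G), TI R →
  (∀ I, Ind R I → p * I.card ≤ q * Fintype.card G) →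
  ∀ S : Finset (ZMod p × G), Ind (Ten (KC p q) R) S → S.card ≤ q * Fintype.card G

/-- SPC: spectral certificate of circular cliques -/
def ST_SPC : Prop := ∀ (m p q : ℕ) [NeZero p], Odd m → 3 ≤ m → m ∣ p → 0 < q →
  2 * m * q ≤ p * (m - 1) → Cert (KC p q) (1 - 2 / (m : ℝ) ^ 2)

/-- KRW -/
def ST_KRW : Prop := ∀ (N r : ℕ), 1 ≤ r → 8 * r ≤ N → ∀ S : Finset (Fin N), 2 ≤ S.card →
  S.card + 2 ≤ N → |∑ T ∈ powersetCard r (univ : Finset (Fin N)), (-1 : ℝ) ^ (S ∩ T).card| ≤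
    (N.choose r : ℝ) * (1 - 2 * (r : ℝ) / N)

/-- BCE: spectral certificate of cube graphs -/
def ST_BCE : Prop := ∀ (N r : ℕ), 1 ≤ r → 8 * r ≤ N → Even (N - r) →
  Cert (BG N (N - r)) (1 - 2 * (r : ℝ) / N)

/-- FW: Frankl-Wilson -/
def ST_FW : Prop := ∀ (N P : ℕ), P.Prime → 2 < P → N < 4 * P → ∀ I : Finset (Fin N → ZMod 2),
  (∀ x ∈ I, ∀ y ∈ I, hammingDist x y ≠ 2 * P) → I.card ≤ 2 * ∑ i ∈ range P, N.choose i

/-- TAIL -/
def ST_TAIL : Prop := ∀ (N P : ℕ), 2 * P < N →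
  ((∑ i ∈ range P, N.choose i : ℕ) : ℝ) * ((N : ℝ) - 2 * P) ^ 2 ≤ N * 2 ^ N

/-- VEC -/
def ST_VEC : Prop := ∀ (N r : ℕ), 2 * r < N → UpT (BG N (N - r)) (1 + 1 / (1 - 2 * (r : ℝ) / N))

/-- TEN -/
def ST_TEN : Prop := ∀ (V W : Type) [Fintype V] [DecidableEq V] [Fintype W] [DecidableEq W]
  (X : SimpleGraph V) (Y : SimpleGraph W) (M : ℝ), 0 ≤ M → M ≤ 1 → Cert X M → Cert Y M →
  Cert (Ten X Y) M

/-- GRM -/
def ST_GRM : Prop := ∀ (V : Type) [Fintype V] [DecidableEq V] [Nonempty V] (X : SimpleGraph V)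
  (M : ℝ), 0 < M → Cert X M → LowT X (1 + 1 / M)

/-- PIG -/
def ST_PIG : Prop := ∀ (V G : Type) [Fintype V] [DecidableEq V] [Fintype G] [DecidableEq G]
  (B : SimpleGraph V) (R : SimpleGraph G) (β ρ : ℕ), (∀ I, Ind B I → I.card ≤ β) →
  (∀ I, Ind R I → I.card ≤ ρ) → ∀ S, Ind (Ten B R) S →
    S.card ≤ Fintype.card V * ρ + 2 ^ Fintype.card G * β * Fintype.card G

/-- DENB -/
def ST_DENB : Prop := ∀ a b δ : ℝ, 3 / 4 ≤ a → a < b → b ≤ 1 → 0 < δ →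
  ∃ N r P : ℕ, P.Prime ∧ 2 < P ∧ N < 4 * P ∧ N - r = 2 * P ∧ 1 ≤ r ∧ 8 * r ≤ N ∧
    a < 1 - 2 * (r : ℝ) / N ∧ 1 - 2 * (r : ℝ) / N < b ∧
    2 * ((∑ i ∈ range P, N.choose i : ℕ) : ℝ) ≤ δ * 2 ^ N

/-- DENK -/
def ST_DENK : Prop := ∀ (m : ℕ), 1 ≤ m → ∀ a b : ℝ, 1 ≤ a → a < b →
  ∃ p q : ℕ, m ∣ p ∧ 0 < q ∧ 0 < p ∧ a < (p : ℝ) / q ∧ (p : ℝ) / q < b

/-- ROOT and NEXT -/
def ST_ROOT : Prop := ∀ a b : ℝ, 3 / 4 ≤ a → a < b → b ≤ 1 → ∃ X : RN, a < X.M ∧ X.M < b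
def ST_NEXT : Prop := ∀ (X : RN) (a b : ℝ), X.M ≤ a → a < b → b ≤ 1 →
  ∃ X' : RN, a < X'.M ∧ X'.M < b ∧ ∃ φ : X'.G → X.G, ∀ x y, X'.R.Adj x y → X.R.Adj (φ x) (φ y)

/-- FNP: properties of final nodes -/
def ST_FNP : Prop := ∀ x : FN, LowT x.gr (1 + 1 / x.X.M) ∧ LowC x.gr ((x.p : ℝ) / x.q) ∧
  UpT x.gr (1 + 1 / x.X.M) ∧ UpC x.gr ((x.p : ℝ) / x.q) ∧ ∃ a b, x.gr.Adj a b

/-- TREE: convex position tree (children of `w` are `b :: w`) -/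
def ST_TREE : Prop := ∀ x0 x1 y0 y1 : ℝ, x0 < x1 → y0 < y1 →
  ∃ (tx ty : List Bool → ℝ) (η : ℕ → ℝ), (∀ l, 0 < η l) ∧
    (∀ w, x0 < tx w - η w.length ∧ tx w + η w.length < x1 ∧
      y0 < ty w - η w.length ∧ ty w + η w.length < y1) ∧
    (∀ w b, tx (b :: w) + η (w.length + 1) < tx w - η w.length ∧
      ty (b :: w) + η (w.length + 1) < ty w - η w.length) ∧
    ∀ F H : List Bool → ℝ, (∀ w, |F w - tx w| < η w.length) → (∀ w, |H w - ty w| < η w.length) →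
      ∀ a, ∃ l μ : ℝ, 0 ≤ l ∧ 0 ≤ μ ∧ ∀ b, ¬ b <:+ a → l * F b + μ * H b < l * F a + μ * H a

/-- NODES -/
def ST_NODES : Prop := ∀ ε : ℝ, 0 < ε → ∃ nd : List Bool → FN,
  (((nd []).p : ℝ) / (nd []).q < 2 + ε) ∧
  (∀ w b, ∃ φ : (nd (b :: w)).V → (nd w).V, ∀ x y, (nd (b :: w)).gr.Adj x y →
    (nd w).gr.Adj (φ x) (φ y)) ∧
  ∀ a, ∃ l μ : ℝ, 0 ≤ l ∧ 0 ≤ μ ∧ ∀ b, ¬ b <:+ a →
    l * Real.log (1 + 1 / (nd b).X.M) + μ * Real.log (((nd b).p : ℝ) / (nd b).q) <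
    l * Real.log (1 + 1 / (nd a).X.M) + μ * Real.log (((nd a).p : ℝ) / (nd a).q)

/-- UNI: universality of finite sets of words -/
def ST_UNI : Prop := ∀ (P : Type) [Countable P] (r : P → P → Prop), (∀ a, r a a) →
  (∀ a b c, r a b → r b c → r a c) → ∃ B : P → Finset (List Bool), (∀ i, (B i).Nonempty) ∧
    ∀ i j, r i j ↔ ∀ a ∈ B i, ∃ b ∈ B j, b <:+ a

/-- FIN -/
def ST_FIN : Prop := ∀ (W : Type) (Z : SimpleGraph W), ¬ Z.Colorable 2 →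
  ∀ (P : Type) [Countable P] (r : P → P → Prop), (∀ a, r a a) →
  (∀ a b c, r a b → r b c → r a c) → ∃ φ : P → (Σ n : ℕ, SimpleGraph (Fin n)),
    (∀ a b, r a b ↔ ALE (φ a).2 (φ b).2) ∧
    ∀ a, ALE (⊤ : SimpleGraph (Fin 2)) (φ a).2 ∧ ALE (φ a).2 Z

end Pool.Agent.Helper14.FO
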