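import Pool.Agent.Helper14.FO.STR

/-! Random partial homomorphisms and the asymptotic preorder. -/

set_option autoImplicit false

namespace Pool.Agent.Helper14.FO

open Finset

/-- random partial homomorphism from `Q` to `X`: every vertex is in the domain with probability at
least `1 / κ` -/
def FrH {U V : Type} (Q : SimpleGraph U) (X : SimpleGraph V) (κ : ℝ) : Prop :=
  ∃ (J : Type) (_ : Fintype J) (_ : Nonempty J) (g : J → U → Option V),
    (∀ j a b x y, Q.Adj a b → g j a = some x → g j b = some y → X.Adj x y) ∧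
    ∀ a, (Fintype.card J : ℝ) ≤ κ * (univ.filter fun j => (g j a).isSome = true).card

theorem frh_cover {U V J : Type} [Fintype U] [Fintype J] [Nonempty J] (g : J → U → Option V)
    (κ : ℝ) (hκ : 1 ≤ κ)
    (hcard : ∀ a, (Fintype.card J : ℝ) ≤ κ * (univ.filter fun j => (g j a).isSome = true).card)
    (n c : ℕ) (hlt : ((Fintype.card U : ℝ) ^ n) * (1 - (κ ^ n)⁻¹) ^ c < 1) :
    ∃ js : Fin c → (Fin n → J), ∀ w : Fin n → U, ∃ k, ∀ i, (g (js k i) (w i)).isSome = true := by
  classical
  have hκ0 : 0 < κ := lt_of_lt_of_le one_pos hκ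
  have hκn : 0 < κ ^ n := by positivity
  have hκn1 : 1 ≤ κ ^ n := one_le_pow₀ hκ
  have hJ0 : (0 : ℝ) < Fintype.card J := by exact_mod_cast Fintype.card_pos
  set In : (Fin n → J) → (Fin n → U) → Prop := fun j w => ∀ i, (g (j i) (w i)).isSome = true
    with hIn
  have havg : ∀ S : Finset (Fin n → U), ∃ j : Fin n → J,
      ((S.filter fun w => ¬ In j w).card : ℝ) ≤ S.card * (1 - (κ ^ n)⁻¹) := by
    intro S
    by_contra hcon
    push Not at hcon
    have h1 : ∀ j : Fin n → J, ((S.filter fun w => In j w).card : ℝ) < S.card * (κ ^ n)⁻¹ := by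
      intro j
      have h2 := hcon j
      have h3 := Finset.card_filter_add_card_filter_not (s := S) (fun w => In j w)
      have h4 : ((S.filter fun w => In j w).card : ℝ) + (S.filter fun w => ¬ In j w).card =
          S.card := by
        exact_mod_cast h3
      linarith
    have h5 : ∑ j : Fin n → J, ((S.filter fun w => In j w).card : ℝ) <
        ∑ _j : Fin n → J, (S.card : ℝ) * (κ ^ n)⁻¹ :=
      Finset.sum_lt_sum_of_nonempty Finset.univ_nonempty fun j _ => h1 j
    have h6 : ∑ j : Fin n → J, ((S.filter fun w => In j w).card : ℝ) =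
        ∑ w ∈ S, ∏ i, ((univ.filter fun j => (g j (w i)).isSome = true).card : ℝ) := by
      have e1 : ∀ j : Fin n → J, ((S.filter fun w => In j w).card : ℝ) =
          ∑ w ∈ S, if In j w then (1 : ℝ) else 0 := by
        intro j
        rw [Finset.sum_ite, Finset.sum_const_zero, add_zero, Finset.sum_const, nsmul_eq_mul,
          mul_one]
      rw [Finset.sum_congr rfl fun j _ => e1 j, Finset.sum_comm]
      refine Finset.sum_congr rfl fun w _ => ?_
      have e2 : ∀ j : Fin n → J, (if In j w then (1 : ℝ) else 0) =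
          ∏ i, if (g (j i) (w i)).isSome = true then (1 : ℝ) else 0 := by
        intro j
        by_cases h : In j w
        · rw [if_pos h]
          exact (Finset.prod_eq_one fun i _ => if_pos (h i)).symm
        · rw [if_neg h]
          have h' : ∃ i, ¬ (g (j i) (w i)).isSome = true := by
            by_contra h''
            push Not at h''
            exact h h''
          obtain ⟨i, hi⟩ := h'
          exact (Finset.prod_eq_zero (Finset.mem_univ i) (if_neg hi)).symm
      rw [Finset.sum_congr rfl fun j _ => e2 j]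
      have e3 : ∀ i, ((univ.filter fun j => (g j (w i)).isSome = true).card : ℝ) =
          ∑ j : J, if (g j (w i)).isSome = true then (1 : ℝ) else 0 := by
        intro i
        rw [Finset.sum_ite, Finset.sum_const_zero, add_zero, Finset.sum_const, nsmul_eq_mul,
          mul_one]
      rw [Finset.prod_congr rfl fun i _ => e3 i, Finset.prod_univ_sum]
      rw [Fintype.piFinset_univ]
    have h7 : ∀ w ∈ S, ((Fintype.card J : ℝ) / κ) ^ n ≤
        ∏ i, ((univ.filter fun j => (g j (w i)).isSome = true).card : ℝ) := by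
      intro w _
      have e1 : ((Fintype.card J : ℝ) / κ) ^ n = ∏ _i : Fin n, (Fintype.card J : ℝ) / κ := by
        rw [Finset.prod_const, Finset.card_univ, Fintype.card_fin]
      rw [e1]
      refine Finset.prod_le_prod (fun _ _ => by positivity) fun i _ => ?_
      rw [div_le_iff₀ hκ0, mul_comm]
      exact hcard (w i)
    have h8 : (S.card : ℝ) * ((Fintype.card J : ℝ) / κ) ^ n ≤
        ∑ w ∈ S, ∏ i, ((univ.filter fun j => (g j (w i)).isSome = true).card : ℝ) := by
      rw [← nsmul_eq_mul]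
      exact Finset.card_nsmul_le_sum _ _ _ h7
    rw [h6, Finset.sum_const, nsmul_eq_mul, Finset.card_univ, Fintype.card_fun,
      Fintype.card_fin] at h5
    have h9 : ((Fintype.card J ^ n : ℕ) : ℝ) * ((S.card : ℝ) * (κ ^ n)⁻¹) =
        S.card * ((Fintype.card J : ℝ) / κ) ^ n := by
      push_cast
      rw [div_pow]
      field_simp
    rw [h9] at h5
    linarith
  have hit : ∀ (c : ℕ) (S : Finset (Fin n → U)), ∃ js : Fin c → (Fin n → J),
      ((S.filter fun w => ∀ k, ¬ In (js k) w).card : ℝ) ≤ S.card * (1 - (κ ^ n)⁻¹) ^ c := by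
    intro c
    induction c with
    | zero =>
      intro S
      refine ⟨fun k => k.elim0, ?_⟩
      rw [pow_zero, mul_one]
      exact_mod_cast Finset.card_filter_le _ _
    | succ c ih =>
      intro S
      obtain ⟨j, hj⟩ := havg S
      obtain ⟨js, hjs⟩ := ih (S.filter fun w => ¬ In j w)
      refine ⟨Fin.cons j js, ?_⟩
      have e1 : (S.filter fun w => ∀ k, ¬ In ((Fin.cons j js : Fin (c + 1) → (Fin n → J)) k) w) =
          (S.filter fun w => ¬ In j w).filter fun w => ∀ k, ¬ In (js k) w := by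
        rw [Finset.filter_filter]
        apply Finset.filter_congr
        intro w _
        rw [Fin.forall_fin_succ]
        rfl
      rw [e1]
      have h1 : 0 ≤ 1 - (κ ^ n)⁻¹ := by
        have : (κ ^ n)⁻¹ ≤ 1 := inv_le_one_of_one_le₀ hκn1
        linarith
      calc _ ≤ _ := hjs
        _ ≤ (S.card * (1 - (κ ^ n)⁻¹)) * (1 - (κ ^ n)⁻¹) ^ c :=
            mul_le_mul_of_nonneg_right hj (pow_nonneg h1 c)
        _ = _ := by ring
  obtain ⟨js, hjs⟩ := hit c Finset.univ
  have hcu : ((Finset.univ : Finset (Fin n → U)).card : ℝ) = (Fintype.card U : ℝ) ^ n := by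
    rw [Finset.card_univ, Fintype.card_fun, Fintype.card_fin]
    push_cast
    rfl
  rw [hcu] at hjs
  have h0 : ((Finset.univ : Finset (Fin n → U)).filter fun w => ∀ k, ¬ In (js k) w).card = 0 := by
    have h1 : (((Finset.univ : Finset (Fin n → U)).filter fun w => ∀ k, ¬ In (js k) w).card : ℝ) <
        1 := lt_of_le_of_lt hjs hlt
    have h2 : ((Finset.univ : Finset (Fin n → U)).filter fun w => ∀ k, ¬ In (js k) w).card < 1 := by
      exact_mod_cast h1
    omega
  rw [Finset.card_eq_zero] at h0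
  refine ⟨js, fun w => ?_⟩
  by_contra hcon
  push Not at hcon
  have : w ∈ (Finset.univ : Finset (Fin n → U)).filter fun w => ∀ k, ¬ In (js k) w := by
    refine Finset.mem_filter.2 ⟨Finset.mem_univ w, fun k hk => ?_⟩
    obtain ⟨i, hi⟩ := hcon k
    exact hi (hk i)
  rw [h0] at this
  exact Finset.notMem_empty w this

/-- powers -/
theorem frh_pow {U V : Type} [Fintype U] (Q : SimpleGraph U) (X : SimpleGraph V) (κ : ℝ)
    (hκ : 1 ≤ κ) (h : FrH Q X κ) (n c : ℕ)
    (hlt : ((Fintype.card U : ℝ) ^ n) * (1 - (κ ^ n)⁻¹) ^ c < 1) : PowHom Q X n c := by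
  obtain ⟨J, iJ, nJ, g, hg, hcard⟩ := h
  obtain ⟨js, hjs⟩ := frh_cover g κ hκ hcard n c hlt
  choose col hcol using hjs
  refine ⟨fun w => (col w, fun i => (g (js (col w) i) (w i)).get (hcol w i)), ?_⟩
  rintro u v ⟨i, hi⟩
  by_cases h : col u = col v
  · refine Or.inr ⟨i, ?_⟩
    dsimp only
    refine hg (js (col u) i) (u i) (v i) _ _ hi (Option.some_get _).symm ?_
    rw [h]
    exact (Option.some_get _).symm
  · exact Or.inl h

/-- the OR-product with a complete graph -/
def OrT {V : Type} (p : ℕ) (X : SimpleGraph V) : SimpleGraph (Fin p × V) where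
  Adj a b := a.1 ≠ b.1 ∨ X.Adj a.2 b.2
  symm := ⟨fun _ _ h => h.imp (fun h => h.symm) (fun h => h.symm)⟩
  loopless := ⟨fun _ h => by
    rcases h with h | h
    · exact h rfl
    · exact X.loopless.irrefl _ h⟩

/-- a graph slightly above a graph strictly below -/
theorem frh_main {U V W : Type} [Fintype U] [Fintype W] (Q : SimpleGraph U) (X₁ : SimpleGraph V)
    (X₂ : SimpleGraph W) (p q : ℕ) (κ : ℝ) (hq : 0 < q) (hκ : 1 ≤ κ) (hpq : κ * q < p)
    (h : ALE (OrT p X₁) (OrT q X₂)) (hf : FrH Q X₁ κ) : ALE Q X₂ := by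
  classical
  have hκ0 : 0 < κ := by linarith
  have hqR : (0 : ℝ) < q := by exact_mod_cast hq
  have hpR : (0 : ℝ) < p := lt_trans (by positivity) hpq
  obtain ⟨k, hk, hs, hF⟩ := h
  -- the exponential gap
  obtain ⟨ε, hε⟩ : ∃ ε : ℝ, ε = Real.log (p / (κ * q)) / 2 := ⟨_, rfl⟩
  have hr : 1 < (p : ℝ) / (κ * q) := by
    rw [one_lt_div (by positivity)]; exact hpq
  have hε0 : 0 < ε := by rw [hε]; have := Real.log_pos hr; linarith
  obtain ⟨n0, hn0⟩ := hs ε hε0
  obtain ⟨C, hC⟩ : ∃ C : ℝ, C = (Fintype.card U : ℝ) + 1 := ⟨_, rfl⟩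
  have hC0 : 0 < C := by rw [hC]; positivity
  have hlim := tendsto_pow_const_div_const_pow_of_one_lt 1 (Real.one_lt_exp_iff.2 hε0)
  have h2 : (0 : ℝ) < 1 / C := by positivity
  obtain ⟨n1, hn1⟩ := Filter.eventually_atTop.1 (hlim.eventually (gt_mem_nhds h2))
  obtain ⟨n, hn⟩ : ∃ n, n = max (max n0 n1) 1 := ⟨_, rfl⟩
  have hnn0 : n0 ≤ n := by rw [hn]; exact (le_max_left _ _).trans (le_max_left _ _)
  have hnn1 : n1 ≤ n := by rw [hn]; exact (le_max_right _ _).trans (le_max_left _ _)
  have hn1' : 1 ≤ n := by rw [hn]; exact le_max_right _ _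
  have hnR : (1 : ℝ) ≤ n := by exact_mod_cast hn1'
  have hκn : 0 < κ ^ n := pow_pos hκ0 n
  have hκn1 : 1 ≤ κ ^ n := one_le_pow₀ hκ
  obtain ⟨c, hc⟩ : ∃ c, c = ⌊(n : ℝ) * Fintype.card U * κ ^ n⌋₊ + 1 := ⟨_, rfl⟩
  have hc1 : (n : ℝ) * Fintype.card U * κ ^ n < c := by
    rw [hc]
    push_cast
    exact Nat.lt_floor_add_one _
  have hc2 : (c : ℝ) ≤ n * C * κ ^ n := by
    rw [hc, hC]
    push_cast
    have h3 := Nat.floor_le (show 0 ≤ (n : ℝ) * Fintype.card U * κ ^ n by positivity)
    have h4 : 1 ≤ (n : ℝ) * κ ^ n := by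
      calc (1 : ℝ) = 1 * 1 := by ring
        _ ≤ _ := mul_le_mul hnR hκn1 zero_le_one (by linarith)
    nlinarith
  have hcov : ((Fintype.card U : ℝ) ^ n) * (1 - (κ ^ n)⁻¹) ^ c < 1 := by
    have hx0 : 0 < (κ ^ n)⁻¹ := inv_pos.2 hκn
    have hx1 : (κ ^ n)⁻¹ ≤ 1 := inv_le_one_of_one_le₀ hκn1
    have e1 : (Fintype.card U : ℝ) ≤ Real.exp (Fintype.card U) := by
      have := Real.add_one_le_exp (Fintype.card U : ℝ)
      linarith
    have e2 : 1 - (κ ^ n)⁻¹ ≤ Real.exp (-(κ ^ n)⁻¹) := by
      have := Real.add_one_le_exp (-(κ ^ n)⁻¹)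
      linarith
    have e3 : ((Fintype.card U : ℝ) ^ n) * (1 - (κ ^ n)⁻¹) ^ c ≤
        Real.exp (Fintype.card U) ^ n * Real.exp (-(κ ^ n)⁻¹) ^ c := by
      apply mul_le_mul
      · exact pow_le_pow_left₀ (Nat.cast_nonneg _) e1 n
      · exact pow_le_pow_left₀ (by linarith) e2 _
      · exact pow_nonneg (by linarith) _
      · positivity
    refine lt_of_le_of_lt e3 ?_
    rw [← Real.exp_nat_mul, ← Real.exp_nat_mul, ← Real.exp_add, Real.exp_lt_one_iff]
    have e5 : (n : ℝ) * Fintype.card U < c * (κ ^ n)⁻¹ := by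
      rw [← div_eq_mul_inv, lt_div_iff₀ hκn]
      exact hc1
    linarith
  have hPH := frh_pow Q X₁ κ hκ hf n c hcov
  -- the inequality for the colours
  have hcol : k n * q ^ n * c ≤ p ^ n := by
    have g1 : (k n : ℝ) ≤ Real.exp (ε * n) := hn0 n hnn0
    have g2 := hn1 n hnn1
    have hE : 0 < Real.exp ε ^ n := by positivity
    rw [pow_one, div_lt_div_iff₀ hE hC0, one_mul] at g2
    have g3 : Real.exp (ε * n) = Real.exp ε ^ n := by
      rw [mul_comm, Real.exp_nat_mul]
    have g4 : Real.exp ε ^ n * Real.exp ε ^ n = ((p : ℝ) / (κ * q)) ^ n := by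
      rw [← mul_pow, ← Real.exp_add, hε, add_halves, Real.exp_log (by positivity)]
    have g5 : (k n : ℝ) * q ^ n * c ≤ p ^ n := by
      calc (k n : ℝ) * q ^ n * c ≤ Real.exp ε ^ n * q ^ n * (n * C * κ ^ n) := by
            apply mul_le_mul
            · exact mul_le_mul_of_nonneg_right (by rw [← g3]; exact g1) (by positivity)
            · exact hc2
            · positivity
            · positivity
        _ = (n * C) * (Real.exp ε ^ n * (κ * q) ^ n) := by rw [mul_pow]; ring
        _ ≤ Real.exp ε ^ n * (Real.exp ε ^ n * (κ * q) ^ n) :=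
            mul_le_mul_of_nonneg_right g2.le (by positivity)
        _ = (Real.exp ε ^ n * Real.exp ε ^ n) * (κ * q) ^ n := by ring
        _ = p ^ n := by
            rw [g4, ← mul_pow, div_mul_cancel₀ _ (by positivity)]
    exact_mod_cast g5
  -- the homomorphism
  have : Nonempty (Fin (k n) × (Fin n → Fin q)) :=
    ⟨(⟨0, hk n⟩, fun _ => ⟨0, hq⟩)⟩
  have hNe : Nonempty (Fin n) := ⟨⟨0, hn1'⟩⟩
  obtain ⟨f, hfP⟩ := hPH
  obtain ⟨G, hG⟩ := hF n hn1'
  obtain ⟨e⟩ : Nonempty (((Fin (k n) × (Fin n → Fin q)) × Fin c) ↪ (Fin n → Fin p)) := by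
    apply Function.Embedding.nonempty_of_card_le
    rw [Fintype.card_prod, Fintype.card_prod, Fintype.card_fun, Fintype.card_fun, Fintype.card_fin,
      Fintype.card_fin, Fintype.card_fin, Fintype.card_fin, Fintype.card_fin]
    exact hcol
  refine str_cancel (ι := Fin n) (M := Fin (k n) × (Fin n → Fin q)) Q X₂
    (fun a => (((G fun i => (e (a.1, (f a.2).1) i, (f a.2).2 i)).1,
      fun i => ((G fun i => (e (a.1, (f a.2).1) i, (f a.2).2 i)).2 i).1),
      fun i => ((G fun i => (e (a.1, (f a.2).1) i, (f a.2).2 i)).2 i).2)) ?_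
  intro a b hab
  have h1 : e (a.1, (f a.2).1) ≠ e (b.1, (f b.2).1) ∨ ∃ i, X₁.Adj ((f a.2).2 i) ((f b.2).2 i) := by
    rcases hab with h | h
    · exact Or.inl fun h' => h (Prod.mk.inj (e.injective h')).1
    · rcases hfP a.2 b.2 h with h' | h'
      · exact Or.inl fun h'' => h' (Prod.mk.inj (e.injective h'')).2
      · exact Or.inr h'
  have h2 : ∃ i, (OrT p X₁).Adj (e (a.1, (f a.2).1) i, (f a.2).2 i)
      (e (b.1, (f b.2).1) i, (f b.2).2 i) := by
    rcases h1 with h | ⟨i, hi⟩
    · obtain ⟨i, hi⟩ := Function.ne_iff.1 h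
      exact ⟨i, Or.inl hi⟩
    · exact ⟨i, Or.inr hi⟩
  rcases hG _ _ h2 with h3 | ⟨i, hi⟩
  · exact Or.inl fun h' => h3 (Prod.mk.inj h').1
  · rcases hi with hi | hi
    · exact Or.inl fun h' => hi (congrFun (Prod.mk.inj h').2 i)
    · exact Or.inr ⟨i, hi⟩

end Pool.Agent.Helper14.FO
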