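import Pool.Agent.Helper14.FO.Bip

set_option autoImplicit false

namespace Pool.Agent.Helper14.FO

open Finset

theorem compl_bot2 : ((⊥ : SimpleGraph (Fin 2)))ᶜ = ⊤ := compl_bot

/-- intervals above the edgeless graph on two vertices -/
theorem fin_pos (hREL1 : ST_REL1) (hREL2 : ST_REL2) (hASY : ST_ASY) (hFIN : ST_FIN)
    (n₁ n₂ : ℕ) (G₁ : SimpleGraph (Fin n₁)) (G₂ : SimpleGraph (Fin n₂))
    (h₁ : AsympLE G₁ (⊥ : SimpleGraph (Fin 2))) (h₂ : ¬ AsympLE G₂ (⊥ : SimpleGraph (Fin 2)))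
    (P : Type) [Countable P] (r : P → P → Prop) (hr : ∀ a, r a a)
    (ht : ∀ a b c, r a b → r b c → r a c) :
    ∃ φ : P → (Σ n : ℕ, SimpleGraph (Fin n)), (∀ a b, r a b ↔ AsympLE (φ a).2 (φ b).2) ∧
      ∀ a, AsympLE G₁ (φ a).2 ∧ AsympLE (φ a).2 G₂ := by
  have hZ : ¬ (G₂ᶜ).Colorable 2 := by
    rintro ⟨c⟩
    apply h₂
    rw [hASY, compl_bot2]
    exact hREL1 _ _ _ _ ⟨c, fun a b hab => c.valid hab⟩
  obtain ⟨ψ, h1, h2⟩ := hFIN (Fin n₂) G₂ᶜ hZ P r hr ht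
  refine ⟨fun a => ⟨(ψ a).1, ((ψ a).2)ᶜ⟩, ?_, ?_⟩
  · intro a b
    rw [h1 a b]
    dsimp only
    rw [hASY, compl_compl, compl_compl]
  · intro a
    obtain ⟨g1, g2⟩ := h2 a
    dsimp only
    rw [hASY, hASY, compl_compl]
    rw [hASY, compl_bot2] at h₁
    exact ⟨hREL2 _ _ _ _ _ _ h₁ g1, g2⟩

/-- there are asymptotically incomparable graphs -/
theorem fin_anti (hASY : ST_ASY) (hFIN : ST_FIN) :
    ∃ A B : (Σ n : ℕ, SimpleGraph (Fin n)), ¬ AsympLE A.2 B.2 ∧ ¬ AsympLE B.2 A.2 := by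
  have h3 : ¬ (⊤ : SimpleGraph (Fin 3)).Colorable 2 := by
    rintro ⟨c⟩
    have h01 : c 0 ≠ c 1 := c.valid (by simp)
    have h02 : c 0 ≠ c 2 := c.valid (by simp)
    have h12 : c 1 ≠ c 2 := c.valid (by simp)
    omega
  obtain ⟨ψ, h1, -⟩ := hFIN (Fin 3) ⊤ h3 Bool (fun a b => a = b) (fun _ => rfl)
    (fun _ _ _ h h' => h.trans h')
  refine ⟨⟨(ψ true).1, ((ψ true).2)ᶜ⟩, ⟨(ψ false).1, ((ψ false).2)ᶜ⟩, ?_, ?_⟩
  · dsimp only
    rw [hASY, compl_compl, compl_compl, ← h1]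
    decide
  · dsimp only
    rw [hASY, compl_compl, compl_compl, ← h1]
    decide

/-- intervals below the edgeless graph on two vertices -/
theorem fin_neg (hREL1 : ST_REL1) (hREL2 : ST_REL2) (hASY : ST_ASY) (hBH : ST_BH)
    (hODD : ST_ODD) (hFIN : ST_FIN) (n₂ : ℕ) (G₂ : SimpleGraph (Fin n₂))
    (h₂ : AsympLE G₂ (⊥ : SimpleGraph (Fin 2)))
    (φ : (Σ n : ℕ, SimpleGraph (Fin n)) → (Σ n : ℕ, SimpleGraph (Fin n)))
    (hφ : ∀ a b, AsympLE a.2 b.2 ↔ AsympLE (φ a).2 (φ b).2) :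
    ¬ ∀ a, AsympLE (φ a).2 G₂ := by
  intro hle
  obtain ⟨A, B, hAB, hBA⟩ := fin_anti hASY hFIN
  have key : ∀ C, ((φ C).2ᶜ).Colorable 2 := by
    intro C
    rw [← bip_iff hREL1 hBH hODD]
    have h1 := (hASY _ _ _ _).1 (hle C)
    have h2 := (hASY _ _ _ _).1 h₂
    rw [compl_bot2] at h2
    exact hREL2 _ _ _ _ _ _ h1 h2
  rw [hφ, hASY] at hAB
  rw [hφ, hASY] at hBA
  rcases bip_total hREL1 _ _ (key A) (key B) with h | h
  · exact hAB h
  · exact hBA h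

/-- the edgeless graph on two vertices is not below the graph with one vertex -/
theorem fin_gap (hASY : ST_ASY) :
    AsympLE (⊥ : SimpleGraph (Fin 1)) (⊥ : SimpleGraph (Fin 2)) ∧
      ¬ AsympLE (⊥ : SimpleGraph (Fin 2)) (⊥ : SimpleGraph (Fin 1)) := by
  refine ⟨?_, ?_⟩
  · refine ⟨fun _ => 1, fun _ => one_pos, ?_, ?_⟩
    · simp
    · intro n _
      refine ⟨fun u => (0, fun _ => 0), ?_⟩
      intro u v huv
      exact absurd (Subsingleton.elim u v) huv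
  · intro h
    rw [hASY] at h
    obtain ⟨k, -, hs, hf⟩ := h
    obtain ⟨n0, hn0⟩ := hs (1 / 2) (by norm_num)
    obtain ⟨f, hf⟩ := hf (n0 + 1) (by omega)
    have hinj : Function.Injective f := by
      intro u v huv
      by_contra hne
      obtain ⟨i, hi⟩ := Function.ne_iff.1 hne
      have hadj : ∃ i, ((⊥ : SimpleGraph (Fin 2))ᶜ).Adj (u i) (v i) := ⟨i, by
        rw [compl_bot]
        exact hi⟩
      rcases hf u v hadj with h1 | ⟨t, ht⟩
      · exact h1 (by rw [huv])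
      · exact ht.1 (Subsingleton.elim _ _)
    have hc := Fintype.card_le_of_injective _ hinj
    have hc' : 2 ^ (n0 + 1) ≤ k (n0 + 1) := by simpa using hc
    have h2 := hn0 (n0 + 1) (by omega)
    have h3 : ((2 : ℝ)) ^ (n0 + 1) ≤ Real.exp (1 / 2 * ((n0 + 1 : ℕ) : ℝ)) := by
      refine le_trans ?_ h2
      exact_mod_cast hc'
    have h4 : Real.exp (1 / 2 * ((n0 + 1 : ℕ) : ℝ)) = Real.exp (1 / 2) ^ (n0 + 1) := by
      rw [← Real.exp_nat_mul]
      congr 1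
      ring
    rw [h4] at h3
    have h5 : Real.exp (1 / 2) < 2 := by
      have h6 : Real.exp (1 / 2) ^ 2 = Real.exp 1 := by
        rw [← Real.exp_nat_mul]
        congr 1
        norm_num
      have h7 := Real.exp_one_lt_d9
      have h8 : 0 < Real.exp (1 / 2) := Real.exp_pos _
      nlinarith
    have h9 := pow_lt_pow_left₀ h5 (Real.exp_pos _).le (n := n0 + 1) (by omega)
    linarith

end Pool.Agent.Helper14.FO
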