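import Pool.Agent.Helper14.FO.Fin2
import Pool.Agent.Helper14.FO.STRI

/-! Universal intervals of the asymptotic cohomomorphism preorder. -/

set_option autoImplicit false

namespace Pool.Agent.Helper14.FO

open Finset

/-- translation to the complements -/
theorem uni_translate (hASY : ST_ASY) {V W : Type} (G₁ : SimpleGraph V) (G₂ : SimpleGraph W)
    (h : Uni G₁ᶜ G₂ᶜ) (P : Type) [Countable P] (r : P → P → Prop) (hr : ∀ a, r a a)
    (ht : ∀ a b c, r a b → r b c → r a c) :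
    ∃ φ : P → (Σ n : ℕ, SimpleGraph (Fin n)), (∀ a b, r a b ↔ AsympLE (φ a).2 (φ b).2) ∧
      ∀ a, AsympLE G₁ (φ a).2 ∧ AsympLE (φ a).2 G₂ := by
  obtain ⟨ψ, h1, h2⟩ := h P r hr ht
  refine ⟨fun a => ⟨(ψ a).1, ((ψ a).2)ᶜ⟩, ?_, ?_⟩
  · intro a b
    rw [h1 a b]
    dsimp only
    rw [hASY, compl_compl, compl_compl]
  · intro a
    obtain ⟨g1, g2⟩ := h2 a
    dsimp only
    rw [hASY, hASY, compl_compl]
    exact ⟨g1, g2⟩

theorem uni_wide (hREL2 : ST_REL2) {U V W Z : Type} {X₁ : SimpleGraph U} {A : SimpleGraph V}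
    {B : SimpleGraph W} {X₂ : SimpleGraph Z} (h₁ : ALE X₁ A) (h : Uni A B) (h₂ : ALE B X₂) :
    Uni X₁ X₂ := by
  intro P _ r hr ht
  obtain ⟨φ, k1, k2⟩ := h P r hr ht
  exact ⟨φ, k1, fun a => ⟨hREL2 _ _ _ _ _ _ h₁ (k2 a).1, hREL2 _ _ _ _ _ _ (k2 a).2 h₂⟩⟩

/-- graphs not below the edgeless graph on two vertices have an edge in the complement -/
theorem fin3_edge {V : Type} {X : SimpleGraph V} (h : ¬ X.Colorable 2) : ∃ a b, X.Adj a b := by
  by_contra hcon
  push Not at hcon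
  apply h
  exact ⟨SimpleGraph.Coloring.mk (fun _ => 0) fun {a b} hab => absurd hab (hcon a b)⟩

theorem fin3_upT {V : Type} {X : SimpleGraph V} {a b : V} (hab : X.Adj a b) {θ : ℝ}
    (h : UpT X θ) : 2 ≤ θ := by
  obtain ⟨d, v, h1, h2⟩ := h
  have h3 : 0 ≤ ∑ i, (v a i + v b i) ^ 2 := Finset.sum_nonneg fun i _ => sq_nonneg _
  have e : ∀ i, (v a i + v b i) ^ 2 = v a i ^ 2 + v b i ^ 2 + 2 * (v a i * v b i) := by
    intro i; ring
  rw [Finset.sum_congr rfl fun i _ => e i, Finset.sum_add_distrib, Finset.sum_add_distrib,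
    ← Finset.mul_sum, h1, h1, h2 _ _ hab] at h3
  linarith

theorem fin3_upW {V : Type} {X : SimpleGraph V} {a b : V} (hab : X.Adj a b) {c : ℝ}
    (h : UpW X c) : 2 ≤ c := by
  obtain ⟨J, iJ, p, I, hp, hp1, hI, hy⟩ := h
  have h0 : ∀ y, (∑ j, if I j y = true then p j else 0) ≤ 1 := by
    intro y
    rw [← hp1]
    refine Finset.sum_le_sum fun j _ => ?_
    split_ifs
    · exact le_rfl
    · exact hp j
  have h0' : ∀ y, 0 ≤ (∑ j, if I j y = true then p j else 0) := by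
    intro y
    refine Finset.sum_nonneg fun j _ => ?_
    split_ifs
    · exact hp j
    · exact le_rfl
  have hc : 0 < c := by
    by_contra hcon
    push Not at hcon
    have := hy a
    have h1 := mul_nonpos_of_nonpos_of_nonneg hcon (h0' a)
    linarith
  have h1 : (∑ j, if I j a = true then p j else 0) + (∑ j, if I j b = true then p j else 0) ≤
      1 := by
    rw [← Finset.sum_add_distrib, ← hp1]
    refine Finset.sum_le_sum fun j _ => ?_
    by_cases ha : I j a = true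
    · have hb : ¬ I j b = true := fun hb => hI j a b ha hb hab
      rw [if_pos ha, if_neg hb, add_zero]
    · rw [if_neg ha, zero_add]
      split_ifs
      · exact le_rfl
      · exact hp j
  have h2 := hy a
  have h3 := hy b
  nlinarith

/-- intervals with a gap of the Lovász number or of the fractional clique cover number -/
theorem fin3_gap (hCVC : ST_CVC) (hCVT : ST_CVT)
    (hFIC : ST_FIC) (hFIT : ST_FIT) (a b : ℕ) (A : SimpleGraph (Fin a)) (B : SimpleGraph (Fin b))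
    (hA : ¬ (Aᶜ).Colorable 2) (hAB : CoLE A B)
    (hgap : lovaszTheta A < lovaszTheta B ∨ fracCliqueCover A < fracCliqueCover B) :
    Uni Aᶜ Bᶜ := by
  classical
  obtain ⟨x, y, hxy⟩ := fin3_edge hA
  have hHom : HomTo Aᶜ Bᶜ := by
    obtain ⟨f, hf⟩ := hAB
    refine ⟨f, fun u v huv => ?_⟩
    rw [SimpleGraph.compl_adj] at huv ⊢
    exact hf u v huv.1 huv.2
  rcases hgap with h | h
  · obtain ⟨c, h1, h2⟩ := exists_between h
    obtain ⟨c₁, h3, h4⟩ := (hCVT a A c).1 h1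
    have h5 := fin3_upT hxy h4
    exact hFIT _ _ _ _ hHom c₁ c h4 ((hCVT b B c).2 (by linarith) h2) h3 (by linarith)
  · obtain ⟨c, h1, h2⟩ := exists_between h
    obtain ⟨c₁, h3, h4⟩ := (hCVC a A c).1 h1
    have h5 := fin3_upW hxy h4
    exact hFIC _ _ _ _ hHom c₁ c h4 ((hCVC b B c).2 (by linarith) h2) h3 (by linarith)

theorem fin3_compl {V : Type} (p : ℕ) (G : SimpleGraph V) :
    (strongProd (⊥ : SimpleGraph (Fin p)) G)ᶜ = OrT p Gᶜ := by
  ext ⟨i, x⟩ ⟨j, y⟩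
  rw [SimpleGraph.compl_adj]
  constructor
  · rintro ⟨h1, h2⟩
    by_cases hij : i = j
    · right
      rw [SimpleGraph.compl_adj]
      have hxy : x ≠ y := fun h => h1 (Prod.ext hij h)
      exact ⟨hxy, fun h => h2 ⟨h1, Or.inl hij, Or.inr h⟩⟩
    · exact Or.inl hij
  · rintro (h | h)
    · refine ⟨fun h' => h (congrArg Prod.fst h'), ?_⟩
      rintro ⟨_, h2 | h2, _⟩
      · exact h h2
      · exact h2
    · rw [SimpleGraph.compl_adj] at h
      refine ⟨fun h' => h.1 (congrArg Prod.snd h'), ?_⟩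
      rintro ⟨_, _, h3 | h3⟩
      · exact h.1 h3
      · exact h.2 h3

/-- strictly separated pairs -/
theorem fin3_strict (hREL2 : ST_REL2) (hASY : ST_ASY) (hFIT : ST_FIT) (n₁ n₂ : ℕ)
    (G₁ : SimpleGraph (Fin n₁)) (G₂ : SimpleGraph (Fin n₂)) (hG : ¬ (G₁ᶜ).Colorable 2)
    (p q : ℕ) (hq : 0 < q) (hpq : q < p)
    (h : AsympLE (strongProd (⊥ : SimpleGraph (Fin p)) G₁)
      (strongProd (⊥ : SimpleGraph (Fin q)) G₂)) : Uni G₁ᶜ G₂ᶜ := by
  rw [hASY, fin3_compl, fin3_compl] at h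
  exact strict_main hREL2 hFIT G₁ᶜ G₂ᶜ hG p q hq hpq h

/-- independent sets in powers of the upper end -/
theorem fin3_alpha (hREL2 : ST_REL2) (hUPI : ST_UPI) (hCVC : ST_CVC) (hFIT : ST_FIT) (n₁ n₂ : ℕ)
    (G₁ : SimpleGraph (Fin n₁)) (G₂ : SimpleGraph (Fin n₂)) (hG : ¬ (G₁ᶜ).Colorable 2)
    (n : ℕ) (hn : 1 ≤ n) (I : Finset (Fin n → Fin n₂))
    (hI : ∀ x ∈ I, ∀ y ∈ I, ¬ (strongPow G₂ n).Adj x y)
    (hlt : fracCliqueCover G₁ ^ n < I.card) : Uni G₁ᶜ G₂ᶜ := by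
  classical
  obtain ⟨x, y, hxy⟩ := fin3_edge hG
  have h2 : 2 ≤ fracCliqueCover G₁ := by
    by_contra hcon
    push Not at hcon
    obtain ⟨c₁, h3, h4⟩ := (hCVC n₁ G₁ 2).1 hcon
    have := fin3_upW hxy h4
    linarith
  obtain ⟨c, hc1, hc2⟩ : ∃ c, fracCliqueCover G₁ < c ∧ c ^ n < I.card := by
    have hcont : Filter.Tendsto (fun c : ℝ => c ^ n) (nhds (fracCliqueCover G₁))
        (nhds (fracCliqueCover G₁ ^ n)) := (continuous_pow n).tendsto _
    have h3 := hcont.eventually (gt_mem_nhds hlt)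
    obtain ⟨ε, hε, h4⟩ := Metric.eventually_nhds_iff.1 h3
    refine ⟨fracCliqueCover G₁ + ε / 2, by linarith, h4 ?_⟩
    rw [Real.dist_eq, add_sub_cancel_left, abs_of_pos (by linarith)]
    linarith
  obtain ⟨c₁, h3, h4⟩ := (hCVC n₁ G₁ c).1 hc1
  have h5 := fin3_upW hxy h4
  have hU : UpC G₁ᶜ c := int_upC _ (by linarith) h3 h4
  have hcl : PowClique G₂ᶜ n I.card := by
    have e := I.equivFin.symm
    refine ⟨fun a => (e a).1, fun a b hab => ?_⟩
    have hne : (e a).1 ≠ (e b).1 := fun h => hab (e.injective (Subtype.ext h))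
    have h6 := hI _ (e a).2 _ (e b).2
    by_contra hcon
    push Not at hcon
    apply h6
    refine ⟨hne, fun i => ?_⟩
    by_contra hi
    push Not at hi
    exact hcon i (by rw [SimpleGraph.compl_adj]; exact ⟨hi.1, hi.2⟩)
  obtain ⟨p, q, hq, hpq, hle⟩ := strict_clique hUPI G₁ᶜ G₂ᶜ c (by linarith) hU n I.card hn hcl hc2
  exact strict_main hREL2 hFIT G₁ᶜ G₂ᶜ hG p q hq hpq hle

end Pool.Agent.Helper14.FO
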