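import Pool.Agent.Helper14.FO.Defs2

/-! Large cliques in powers of circular cliques slightly below a complete graph. -/

set_option autoImplicit false

namespace Pool.Agent.Helper14.FO

open Finset

/-- `p 0 = 1`, `p (k + 1) = m p k - 1` -/
def qstP (m : ℤ) : ℕ → ℤ
  | 0 => 1
  | k + 1 => m * qstP m k - 1

theorem qst_diff (m : ℤ) (k : ℕ) : qstP m (k + 1) = qstP m k + (m - 2) * m ^ k := by
  induction k with
  | zero => simp only [qstP]; ring
  | succ k ih =>
    have h : qstP m (k + 1 + 1) = m * qstP m (k + 1) - 1 := rfl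
    have h' : qstP m (k + 1) = m * qstP m k - 1 := rfl
    calc qstP m (k + 1 + 1) = m * qstP m (k + 1) - 1 := h
      _ = m * (qstP m k + (m - 2) * m ^ k) - 1 := by rw [ih]
      _ = (m * qstP m k - 1) + (m - 2) * m ^ (k + 1) := by ring
      _ = qstP m (k + 1) + (m - 2) * m ^ (k + 1) := by rw [← h']

theorem qst_mod (m : ℤ) (hm : 3 ≤ m) (j k : ℕ) : ∃ K : ℤ, 0 ≤ K ∧
    qstP m (j + k) = K * m ^ j + qstP m j := by
  induction k with
  | zero => exact ⟨0, le_rfl, by simp⟩
  | succ k ih =>
    obtain ⟨K, hK, h⟩ := ih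
    refine ⟨K + (m - 2) * m ^ k, ?_, ?_⟩
    · have : 0 ≤ (m - 2) * m ^ k := mul_nonneg (by linarith) (pow_nonneg (by linarith) _)
      linarith
    · rw [← add_assoc, qst_diff, h, pow_add]
      ring

theorem qst_lt (m : ℤ) (hm : 3 ≤ m) (j : ℕ) : 1 ≤ qstP m j ∧ qstP m j ≤ m ^ j := by
  induction j with
  | zero => simp [qstP]
  | succ j ih =>
    have h : qstP m (j + 1) = m * qstP m j - 1 := rfl
    rw [h, pow_succ]
    constructor <;> nlinarith [ih.1, ih.2]

/-- the descent -/
theorem qst_desc (m : ℤ) (hm : 3 ≤ m) (n : ℕ) (u : ℕ → ℤ) (hu0 : ∀ i, i ≤ n → 0 ≤ u i)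
    (huq : ∀ i, i ≤ n → u i < qstP m n)
    (hst : ∀ i, i < n → m * u i = u (i + 1) ∨ m * u i = qstP m (n + 1) - u (i + 1)) :
    ∀ k, k ≤ n → u (n - k) = 0 ∨ ∃ t r : ℤ, 0 ≤ t ∧ 0 < r ∧ r < qstP m (n - k) ∧
      u (n - k) = t * m ^ (n - k) + r := by
  intro k
  induction k with
  | zero =>
    intro _
    rcases (hu0 n le_rfl).eq_or_lt with h | h
    · left; rw [Nat.sub_zero]; exact h.symm
    · right
      refine ⟨0, u n, le_rfl, h, ?_, ?_⟩
      · rw [Nat.sub_zero]; exact huq n le_rfl
      · rw [Nat.sub_zero]; ring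
  | succ k ih =>
    intro hk
    have ih' := ih (by omega)
    obtain ⟨j, hj⟩ : ∃ j, n - (k + 1) = j := ⟨_, rfl⟩
    have hj1 : n - k = j + 1 := by omega
    rw [hj1] at ih'
    rw [hj]
    have hjn : j < n := by omega
    have hP : qstP m (n + 1) = m * qstP m n - 1 := rfl
    have hPj : qstP m (j + 1) = m * qstP m j - 1 := rfl
    have hmu : m * u j < qstP m (n + 1) := by
      have := huq j hjn.le
      rw [hP]
      nlinarith
    obtain ⟨K, hK, hKe⟩ := qst_mod m hm (j + 1) (n - j)
    rw [show j + 1 + (n - j) = n + 1 by omega] at hKe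
    have hmp : (0 : ℤ) < m ^ (j + 1) := pow_pos (by linarith) _
    have key : ∀ t r : ℤ, 0 < r → r < qstP m (j + 1) → m * u j = t * m ^ (j + 1) + r →
        u j = 0 ∨ ∃ t r : ℤ, 0 ≤ t ∧ 0 < r ∧ r < qstP m j ∧ u j = t * m ^ j + r := by
      intro t r hr0 hr1 he
      right
      have hdr : m ∣ r := by
        have : r = m * (u j - t * m ^ j) := by
          rw [pow_succ] at he
          linarith
        exact ⟨_, this⟩
      obtain ⟨r', hr'⟩ := hdr
      have ht : 0 ≤ t := by
        by_contra ht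
        have h1 : t ≤ -1 := by omega
        have h2 := (qst_lt m hm (j + 1)).2
        have h3 := hu0 j hjn.le
        nlinarith
      refine ⟨t, r', ht, ?_, ?_, ?_⟩
      · by_contra h
        have : r' ≤ 0 := not_lt.1 h
        nlinarith
      · by_contra h
        have h4 : qstP m j ≤ r' := not_lt.1 h
        rw [hPj] at hr1
        nlinarith
      · rw [hr', pow_succ] at he
        have h5 : m * u j = m * (t * m ^ j + r') := by linarith
        exact mul_left_cancel₀ (by linarith : m ≠ 0) h5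
    rcases ih' with h0 | ⟨t, r, ht, hr0, hr1, he⟩
    · left
      rcases hst j hjn with h | h
      · rw [h0] at h
        rcases mul_eq_zero.1 h with h1 | h1
        · linarith
        · exact h1
      · exfalso
        rw [h0, sub_zero] at h
        linarith
    · rcases hst j hjn with h | h
      · exact key t r hr0 hr1 (by rw [h, he])
      · refine key (K - t) (qstP m (j + 1) - r) (by linarith) (by linarith) ?_
        rw [h, he, hKe]
        ring

theorem qst_main (m : ℤ) (hm : 3 ≤ m) (n : ℕ) (u : ℕ → ℤ) (hu0 : ∀ i, i ≤ n → 0 ≤ u i)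
    (huq : ∀ i, i ≤ n → u i < qstP m n)
    (hst : ∀ i, i < n → m * u i = u (i + 1) ∨ m * u i = qstP m (n + 1) - u (i + 1)) :
    u 0 = 0 := by
  rcases qst_desc m hm n u hu0 huq hst n le_rfl with h | ⟨t, r, ht, hr0, hr1, he⟩
  · rwa [Nat.sub_self] at h
  · rw [Nat.sub_self] at hr1
    simp only [qstP] at hr1
    omega

/-- the clique in the power -/
theorem qst_clique (m n p q : ℕ) (hm : 3 ≤ m) (hp : (p : ℤ) = qstP m (n + 1))
    (hq : (q : ℤ) = qstP m n) : PowClique (KC p q) (n + 1) p := by
  have hq1 : 1 ≤ q := by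
    have := (qst_lt m (by exact_mod_cast hm) n).1
    rw [← hq] at this
    exact_mod_cast this
  have hpq : p + 1 = m * q := by
    have h : qstP m (n + 1) = m * qstP m n - 1 := rfl
    rw [← hp, ← hq] at h
    have : (p : ℤ) + 1 = m * q := by linarith
    exact_mod_cast this
  have hp1 : 1 < p := by nlinarith
  have hpz : NeZero p := ⟨by omega⟩
  refine ⟨fun a i => ((m : ZMod p)) ^ (i : ℕ) * ((a : ℕ) : ZMod p), ?_⟩
  intro a b hab
  by_contra hcon
  push Not at hcon
  obtain ⟨d, hd⟩ : ∃ d : ZMod p, d = ((a : ℕ) : ZMod p) - ((b : ℕ) : ZMod p) := ⟨_, rfl⟩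
  have hd0 : d ≠ 0 := by
    intro h
    rw [hd, sub_eq_zero, ZMod.natCast_eq_natCast_iff] at h
    have h1 := Nat.ModEq.eq_of_lt_of_lt h a.2 b.2
    exact hab (Fin.ext h1)
  obtain ⟨u, hu⟩ : ∃ u : ℕ → ℕ, ∀ i, u i = min ((m : ZMod p) ^ i * d).val
      (p - ((m : ZMod p) ^ i * d).val) := ⟨_, fun _ => rfl⟩
  have hval : ∀ x : ZMod p, x.val < p := fun x => ZMod.val_lt x
  have huq : ∀ i, i ≤ n → u i < q := by
    intro i hi
    by_contra h
    have h1 : q ≤ u i := not_lt.1 h
    rw [hu] at h1
    have h2 : q ≤ ((m : ZMod p) ^ i * d).val := le_trans h1 (min_le_left _ _)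
    have h3 : q ≤ p - ((m : ZMod p) ^ i * d).val := le_trans h1 (min_le_right _ _)
    apply hcon ⟨i, by omega⟩
    have e1 : (m : ZMod p) ^ i * ((a : ℕ) : ZMod p) - (m : ZMod p) ^ i * ((b : ℕ) : ZMod p) =
        (m : ZMod p) ^ i * d := by rw [hd]; ring
    have hne : (m : ZMod p) ^ i * d ≠ 0 := by
      intro h4
      rw [h4, ZMod.val_zero] at h2
      omega
    refine ⟨?_, ?_, ?_⟩
    · intro h4
      rw [sub_eq_zero.2 h4] at e1
      exact hne e1.symm
    · change q ≤ ((m : ZMod p) ^ i * ((a : ℕ) : ZMod p) -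
        (m : ZMod p) ^ i * ((b : ℕ) : ZMod p)).val
      rw [e1]
      exact h2
    · change q ≤ ((m : ZMod p) ^ i * ((b : ℕ) : ZMod p) -
        (m : ZMod p) ^ i * ((a : ℕ) : ZMod p)).val
      have e2 : (m : ZMod p) ^ i * ((b : ℕ) : ZMod p) - (m : ZMod p) ^ i * ((a : ℕ) : ZMod p) =
          -((m : ZMod p) ^ i * d) := by rw [hd]; ring
      rw [e2, ZMod.neg_val, if_neg hne]
      exact h3
  have hstep : ∀ i, i < n → m * u i = u (i + 1) ∨ m * u i = p - u (i + 1) := by
    intro i hi
    obtain ⟨x, hx⟩ : ∃ x : ZMod p, x = (m : ZMod p) ^ i * d := ⟨_, rfl⟩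
    have hx' : (m : ZMod p) ^ (i + 1) * d = m * x := by rw [hx, pow_succ]; ring
    have hui := huq i hi.le
    rw [hu, hu, hx', ← hx]
    rw [hu, ← hx] at hui
    obtain ⟨v, hv⟩ : ∃ v, v = x.val := ⟨_, rfl⟩
    rw [← hv] at hui ⊢
    have hvp : v < p := by rw [hv]; exact hval x
    have hxv : x = (v : ZMod p) := by rw [hv, ZMod.natCast_val, ZMod.cast_id]
    rcases le_total v (p - v) with hle | hle
    · rw [min_eq_left hle] at hui ⊢
      have hmv : m * v < p := by nlinarith
      have e : ((m : ZMod p) * x).val = m * v := by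
        rw [hxv, ← Nat.cast_mul, ZMod.val_natCast, Nat.mod_eq_of_lt hmv]
      rw [e]
      rcases le_total (m * v) (p - m * v) with h | h
      · left; rw [min_eq_left h]
      · right; rw [min_eq_right h]; omega
    · rw [min_eq_right hle] at hui ⊢
      obtain ⟨w, hw⟩ : ∃ w, w = p - v := ⟨_, rfl⟩
      rw [← hw] at hui ⊢
      have hmw : m * w < p := by nlinarith
      have hw0 : 0 < w := by omega
      have hmw0 : 0 < m * w := by positivity
      have e : ((m : ZMod p) * x).val = p - m * w := by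
        have e1 : (m : ZMod p) * x = -((m * w : ℕ) : ZMod p) := by
          rw [hxv, hw, Nat.cast_mul, Nat.cast_sub hvp.le, ZMod.natCast_self]
          ring
        have e2 : ((m * w : ℕ) : ZMod p).val = m * w := by
          rw [ZMod.val_natCast, Nat.mod_eq_of_lt hmw]
        have e3 : ((m * w : ℕ) : ZMod p) ≠ 0 := by
          intro h
          rw [h, ZMod.val_zero] at e2
          omega
        rw [e1, ZMod.neg_val, if_neg e3, e2]
      rw [e]
      have e4 : p - (p - m * w) = m * w := by omega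
      rw [e4]
      rcases le_total (p - m * w) (m * w) with h | h
      · right; rw [min_eq_left h]; omega
      · left; rw [min_eq_right h]
  have hz := qst_main m (by exact_mod_cast hm) n (fun i => (u i : ℤ)) (fun i _ => by positivity)
    (fun i hi => by rw [← hq]; exact_mod_cast huq i hi) (fun i hi => by
      have hup : u (i + 1) ≤ p := by
        rw [hu]
        exact le_trans (min_le_left _ _) (hval _).le
      rcases hstep i hi with h | h
      · left; exact_mod_cast h
      · right
        rw [← hp]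
        have : ((m * u i : ℕ) : ℤ) = ((p - u (i + 1) : ℕ) : ℤ) := by rw [h]
        rw [Nat.cast_sub hup] at this
        push_cast at this
        exact this)
  have hz' : u 0 = 0 := by exact_mod_cast hz
  rw [hu, pow_zero, one_mul] at hz'
  have h1 := hval d
  have h2 : 0 < d.val := by
    rw [Nat.pos_iff_ne_zero]
    intro h
    exact hd0 ((ZMod.val_eq_zero d).1 h)
  omega

end Pool.Agent.Helper14.FO
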