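import Pool.Agent.Helper14.FO.Defs2

/-! Calculus of the asymptotic preorder: powers, cancellation, random partial homomorphisms. -/

set_option autoImplicit false

namespace Pool.Agent.Helper14.FO

open Finset

/-- homomorphism from a power of `X` to `K_C * Y^ι` -/
def PH {V W : Type} (X : SimpleGraph V) (Y : SimpleGraph W) (ι C : Type) : Prop :=
  ∃ f : (ι → V) → C × (ι → W), ∀ u v : ι → V, (∃ i, X.Adj (u i) (v i)) →
    (f u).1 ≠ (f v).1 ∨ ∃ i, Y.Adj ((f u).2 i) ((f v).2 i)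

theorem ph_equiv {V W ι ι' C C' : Type} {X : SimpleGraph V} {Y : SimpleGraph W} (e : ι ≃ ι')
    (c : C → C') (hc : Function.Injective c) (h : PH X Y ι C) : PH X Y ι' C' := by
  obtain ⟨f, hf⟩ := h
  refine ⟨fun u => (c (f (fun i => u (e i))).1, fun i => (f (fun i => u (e i))).2 (e.symm i)), ?_⟩
  rintro u v ⟨i, hi⟩
  rcases hf (fun i => u (e i)) (fun i => v (e i)) ⟨e.symm i, by
    rw [Equiv.apply_symm_apply]; exact hi⟩ with h1 | ⟨t, ht⟩
  · exact Or.inl fun h2 => h1 (hc h2)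
  · refine Or.inr ⟨e t, ?_⟩
    dsimp only
    rw [Equiv.symm_apply_apply]
    exact ht

theorem ph_prod {V W ι C : Type} {X : SimpleGraph V} {Y : SimpleGraph W} (J : Type)
    (h : PH X Y ι C) : PH X Y (J × ι) (J → C) := by
  obtain ⟨f, hf⟩ := h
  refine ⟨fun u => (fun j => (f (fun i => u (j, i))).1, fun z => (f (fun i => u (z.1, i))).2 z.2), ?_⟩
  rintro u v ⟨⟨j, i⟩, hi⟩
  rcases hf (fun i => u (j, i)) (fun i => v (j, i)) ⟨i, hi⟩ with h1 | ⟨t, ht⟩
  · exact Or.inl fun h2 => h1 (congrFun h2 j)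
  · exact Or.inr ⟨(j, t), ht⟩

theorem ph_pad {V W ι κ C : Type} {X : SimpleGraph V} {Y : SimpleGraph W} (i0 : ι)
    (h : PH X Y (ι ⊕ κ) C) : PH X Y ι (C × (κ → W)) := by
  obtain ⟨f, hf⟩ := h
  refine ⟨fun u => (((f (Sum.elim u fun _ => u i0)).1,
    fun k => (f (Sum.elim u fun _ => u i0)).2 (Sum.inr k)),
    fun i => (f (Sum.elim u fun _ => u i0)).2 (Sum.inl i)), ?_⟩
  rintro u v ⟨i, hi⟩
  rcases hf (Sum.elim u fun _ => u i0) (Sum.elim v fun _ => v i0) ⟨Sum.inl i, hi⟩ with h1 | ⟨t, ht⟩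
  · refine Or.inl fun h2 => h1 ?_
    have h3 := congrArg Prod.fst h2
    exact h3
  · rcases t with t | t
    · exact Or.inr ⟨t, ht⟩
    · refine Or.inl fun h2 => ?_
      have h3 := congrFun (congrArg Prod.snd h2) t
      dsimp only at h3
      rw [h3] at ht
      exact Y.loopless.irrefl _ ht

/-- iterated composition -/
theorem ph_iter {V W ι M : Type} {X : SimpleGraph V} {Y : SimpleGraph W}
    (F : M × (ι → V) → M × (ι → W))
    (hF : ∀ a b : M × (ι → V), (a.1 ≠ b.1 ∨ ∃ i, X.Adj (a.2 i) (b.2 i)) →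
      (F a).1 ≠ (F b).1 ∨ ∃ i, Y.Adj ((F a).2 i) ((F b).2 i)) (j : ℕ) :
    ∃ G : M × (Fin j × ι → V) → M × (Fin j × ι → W),
      ∀ a b : M × (Fin j × ι → V), (a.1 ≠ b.1 ∨ ∃ i, X.Adj (a.2 i) (b.2 i)) →
      (G a).1 ≠ (G b).1 ∨ ∃ i, Y.Adj ((G a).2 i) ((G b).2 i) := by
  induction j with
  | zero =>
    refine ⟨fun a => (a.1, fun z => z.1.elim0), ?_⟩
    rintro a b (h | ⟨i, _⟩)
    · exact Or.inl h
    · exact i.1.elim0
  | succ j ih =>
    obtain ⟨G, hG⟩ := ih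
    refine ⟨fun a => ((F ((G (a.1, fun z => a.2 (z.1.succ, z.2))).1, fun i => a.2 (0, i))).1,
      fun z => Fin.cases (motive := fun _ => W)
        ((F ((G (a.1, fun z => a.2 (z.1.succ, z.2))).1, fun i => a.2 (0, i))).2 z.2)
        (fun t => (G (a.1, fun z => a.2 (z.1.succ, z.2))).2 (t, z.2)) z.1), ?_⟩
    intro a b hab
    have key : ((G (a.1, fun z => a.2 (z.1.succ, z.2))).1 ≠
        (G (b.1, fun z => b.2 (z.1.succ, z.2))).1 ∨ ∃ i, X.Adj (a.2 (0, i)) (b.2 (0, i))) ∨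
        ∃ i, Y.Adj ((G (a.1, fun z => a.2 (z.1.succ, z.2))).2 i)
          ((G (b.1, fun z => b.2 (z.1.succ, z.2))).2 i) := by
      have h1 : (a.1 ≠ b.1 ∨ ∃ i : Fin j × ι, X.Adj (a.2 (i.1.succ, i.2)) (b.2 (i.1.succ, i.2))) ∨
          ∃ i, X.Adj (a.2 (0, i)) (b.2 (0, i)) := by
        rcases hab with h | ⟨⟨s, i⟩, hi⟩
        · exact Or.inl (Or.inl h)
        · rcases Fin.eq_zero_or_eq_succ s with h0 | ⟨t, ht⟩
          · rw [h0] at hi
            exact Or.inr ⟨i, hi⟩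
          · rw [ht] at hi
            exact Or.inl (Or.inr ⟨(t, i), hi⟩)
      rcases h1 with h1 | h1
      · rcases hG (a.1, fun z => a.2 (z.1.succ, z.2)) (b.1, fun z => b.2 (z.1.succ, z.2)) h1 with
          h2 | h2
        · exact Or.inl (Or.inl h2)
        · exact Or.inr h2
      · exact Or.inl (Or.inr h1)
    rcases key with key | ⟨⟨t, i⟩, ht⟩
    · rcases hF (((G (a.1, fun z => a.2 (z.1.succ, z.2))).1, fun i => a.2 (0, i)))
        (((G (b.1, fun z => b.2 (z.1.succ, z.2))).1, fun i => b.2 (0, i))) key with h2 | ⟨i, hi⟩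
      · exact Or.inl h2
      · exact Or.inr ⟨(0, i), hi⟩
    · exact Or.inr ⟨(t.succ, i), ht⟩

/-- criterion for the asymptotic preorder -/
theorem str_crit {V W : Type} [Fintype W] (X : SimpleGraph V) (Y : SimpleGraph W)
    (h : ∀ ε : ℝ, 0 < ε → ∃ N k : ℕ, 1 ≤ N ∧ (k : ℝ) ≤ Real.exp (ε * N) ∧ PowHom X Y N k) :
    ALE X Y := by
  classical
  have hmono : ∀ n k k', k ≤ k' → PowHom X Y n k → PowHom X Y n k' := by
    intro n k k' hk hh
    exact ph_equiv (Equiv.refl _) (Fin.castLE hk) (Fin.castLE_injective hk) hh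
  have hstep : ∀ N k, 1 ≤ N → PowHom X Y N k → ∀ n, 1 ≤ n → ∀ j, n ≤ j * N →
      PowHom X Y n (k ^ j * Fintype.card W ^ (j * N - n)) := by
    intro N k hN hh n hn j hj
    have h1 : PH X Y (Fin j × Fin N) (Fin j → Fin k) := ph_prod (Fin j) hh
    obtain ⟨e⟩ : Nonempty (Fin j × Fin N ≃ Fin n ⊕ Fin (j * N - n)) :=
      ⟨Fintype.equivOfCardEq (by
        rw [Fintype.card_prod, Fintype.card_sum, Fintype.card_fin, Fintype.card_fin,
          Fintype.card_fin, Fintype.card_fin]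
        omega)⟩
    have h2 : PH X Y (Fin n ⊕ Fin (j * N - n)) (Fin j → Fin k) :=
      ph_equiv e id Function.injective_id h1
    have h3 := ph_pad (⟨0, by omega⟩ : Fin n) h2
    obtain ⟨e'⟩ : Nonempty (((Fin j → Fin k) × (Fin (j * N - n) → W)) ≃
        Fin (k ^ j * Fintype.card W ^ (j * N - n))) := ⟨Fintype.equivOfCardEq (by
          rw [Fintype.card_prod, Fintype.card_fun, Fintype.card_fun, Fintype.card_fin,
            Fintype.card_fin, Fintype.card_fin, Fintype.card_fin])⟩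
    exact ph_equiv (Equiv.refl _) e' e'.injective h3
  have hex : ∀ n : ℕ, ∃ k, 1 ≤ k ∧ (1 ≤ n → PowHom X Y n k) := by
    intro n
    by_cases hn : 1 ≤ n
    · obtain ⟨N, k, hN, _, hh⟩ := h 1 one_pos
      refine ⟨max 1 (k ^ n * Fintype.card W ^ (n * N - n)), le_max_left _ _, fun _ => ?_⟩
      exact hmono _ _ _ (le_max_right _ _) (hstep N k hN hh n hn n (Nat.le_mul_of_pos_right n hN))
    · exact ⟨1, le_rfl, fun h' => absurd h' hn⟩
  refine ⟨fun n => Nat.find (hex n), fun n => (Nat.find_spec (hex n)).1, ?_,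
    fun n hn => (Nat.find_spec (hex n)).2 hn⟩
  intro ε hε
  obtain ⟨N, k, hN, hk, hh⟩ := h (ε / 2) (by linarith)
  obtain ⟨C, hC⟩ : ∃ C : ℝ, C = Real.exp (ε / 2 * N) * ((Fintype.card W : ℝ) + 1) ^ N :=
    ⟨_, rfl⟩
  have hC1 : 1 ≤ C := by
    rw [hC]
    have h1 : (1 : ℝ) ≤ Real.exp (ε / 2 * N) := Real.one_le_exp (by positivity)
    have h2 : (1 : ℝ) ≤ ((Fintype.card W : ℝ) + 1) ^ N :=
      one_le_pow₀ (by have := Nat.cast_nonneg (α := ℝ) (Fintype.card W); linarith)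
    calc (1 : ℝ) = 1 * 1 := by ring
      _ ≤ _ := mul_le_mul h1 h2 zero_le_one (by positivity)
  obtain ⟨n0, hn0⟩ := exists_nat_gt (Real.log C / (ε / 2))
  refine ⟨max n0 1, fun n hn => ?_⟩
  have hn1 : 1 ≤ n := le_trans (le_max_right _ _) hn
  have hn2 : n0 ≤ n := le_trans (le_max_left _ _) hn
  have hNR : (1 : ℝ) ≤ N := by exact_mod_cast hN
  -- number of blocks
  obtain ⟨j, hj⟩ : ∃ j, j = n / N + 1 := ⟨_, rfl⟩
  have hj1 : n ≤ j * N := by
    rw [hj]
    have h4 := Nat.div_add_mod n N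
    have h5 := Nat.mod_lt n (show 0 < N by omega)
    rw [Nat.add_mul, Nat.one_mul, Nat.mul_comm]
    omega
  have hj2 : j * N ≤ n + N := by
    rw [hj, Nat.add_mul, Nat.one_mul]
    have := Nat.div_mul_le_self n N
    omega
  have hP := hmono _ _ (max 1 (k ^ j * Fintype.card W ^ (j * N - n))) (le_max_right _ _)
    (hstep N k hN hh n hn1 j hj1)
  have hle : Nat.find (hex n) ≤ max 1 (k ^ j * Fintype.card W ^ (j * N - n)) :=
    Nat.find_min' (hex n) ⟨le_max_left _ _, fun _ => hP⟩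
  have hle' : ((Nat.find (hex n) : ℕ) : ℝ) ≤ max 1 ((k : ℝ) ^ j * (Fintype.card W : ℝ) ^ (j * N - n)) := by
    have : ((Nat.find (hex n) : ℕ) : ℝ) ≤ ((max 1 (k ^ j * Fintype.card W ^ (j * N - n)) : ℕ) : ℝ) := by
      exact_mod_cast hle
    rwa [Nat.cast_max, Nat.cast_mul, Nat.cast_pow, Nat.cast_pow, Nat.cast_one] at this
  refine hle'.trans (max_le (Real.one_le_exp (by positivity)) ?_)
  have g1 : (k : ℝ) ^ j ≤ Real.exp (ε / 2 * n) * Real.exp (ε / 2 * N) := by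
    calc (k : ℝ) ^ j ≤ Real.exp (ε / 2 * N) ^ j := pow_le_pow_left₀ (Nat.cast_nonneg _) hk j
      _ = Real.exp (j * (ε / 2 * N)) := (Real.exp_nat_mul _ _).symm
      _ ≤ Real.exp (ε / 2 * n + ε / 2 * N) := by
        apply Real.exp_le_exp.2
        have : (j : ℝ) * N ≤ n + N := by exact_mod_cast hj2
        nlinarith
      _ = _ := Real.exp_add _ _
  have g2 : (Fintype.card W : ℝ) ^ (j * N - n) ≤ ((Fintype.card W : ℝ) + 1) ^ N := by
    calc (Fintype.card W : ℝ) ^ (j * N - n) ≤ ((Fintype.card W : ℝ) + 1) ^ (j * N - n) :=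
          pow_le_pow_left₀ (Nat.cast_nonneg _) (by linarith) _
      _ ≤ _ := pow_le_pow_right₀
          (by have := Nat.cast_nonneg (α := ℝ) (Fintype.card W); linarith) (by omega)
  have g3 : C ≤ Real.exp (ε / 2 * n) := by
    have h1 : Real.log C < ε / 2 * n := by
      rw [div_lt_iff₀ (by linarith)] at hn0
      have : (n0 : ℝ) ≤ n := by exact_mod_cast hn2
      nlinarith
    calc C = Real.exp (Real.log C) := (Real.exp_log (by linarith)).symm
      _ ≤ _ := Real.exp_le_exp.2 h1.le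
  calc (k : ℝ) ^ j * (Fintype.card W : ℝ) ^ (j * N - n)
      ≤ (Real.exp (ε / 2 * n) * Real.exp (ε / 2 * N)) * ((Fintype.card W : ℝ) + 1) ^ N :=
        mul_le_mul g1 g2 (by positivity) (by positivity)
    _ = Real.exp (ε / 2 * n) * C := by rw [hC]; ring
    _ ≤ Real.exp (ε / 2 * n) * Real.exp (ε / 2 * n) :=
        mul_le_mul_of_nonneg_left g3 (Real.exp_pos _).le
    _ = Real.exp (ε * n) := by rw [← Real.exp_add]; ring_nf

/-- a homomorphism `K_M * X^ι → K_M * Y^ι` gives `X ≲ Y` -/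
theorem str_cancel {V W ι M : Type} [Fintype W] [Fintype ι] [Nonempty ι] [Fintype M] [Nonempty M]
    (X : SimpleGraph V) (Y : SimpleGraph W) (F : M × (ι → V) → M × (ι → W))
    (hF : ∀ a b : M × (ι → V), (a.1 ≠ b.1 ∨ ∃ i, X.Adj (a.2 i) (b.2 i)) →
      (F a).1 ≠ (F b).1 ∨ ∃ i, Y.Adj ((F a).2 i) ((F b).2 i)) : ALE X Y := by
  classical
  apply str_crit
  intro ε hε
  obtain ⟨j, hj⟩ := exists_nat_gt (Real.log (Fintype.card M) / ε)
  obtain ⟨G, hG⟩ := ph_iter F hF (j + 1)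
  obtain ⟨m0⟩ : Nonempty M := inferInstance
  have h1 : PH X Y (Fin (j + 1) × ι) M :=
    ⟨fun u => G (m0, u), fun u v huv => hG (m0, u) (m0, v) (Or.inr huv)⟩
  obtain ⟨e⟩ : Nonempty (Fin (j + 1) × ι ≃ Fin ((j + 1) * Fintype.card ι)) :=
    ⟨Fintype.equivOfCardEq (by rw [Fintype.card_prod, Fintype.card_fin, Fintype.card_fin])⟩
  have h2 : PowHom X Y ((j + 1) * Fintype.card ι) (Fintype.card M) :=
    ph_equiv e (Fintype.equivFin M) (Fintype.equivFin M).injective h1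
  have hι : 1 ≤ Fintype.card ι := Fintype.card_pos
  have hM : 1 ≤ Fintype.card M := Fintype.card_pos
  refine ⟨(j + 1) * Fintype.card ι, Fintype.card M, Nat.mul_pos (Nat.succ_pos j) hι, ?_, h2⟩
  have hM' : (0 : ℝ) < Fintype.card M := by exact_mod_cast hM
  rw [← Real.exp_log hM']
  apply Real.exp_le_exp.2
  rw [div_lt_iff₀ hε] at hj
  have hι' : (1 : ℝ) ≤ Fintype.card ι := by exact_mod_cast hι
  push_cast
  have hj0 : (0 : ℝ) ≤ j := Nat.cast_nonneg j
  nlinarith [mul_nonneg hj0 (sub_nonneg.2 hι')]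

end Pool.Agent.Helper14.FO
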